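import Pool.Agent.Lib.MP_51356b_lc.Sign

/-!
# Basic solutions of homogeneous linear sign systems
-/

namespace Pool.Agent.Lib.UPSlopes

open Module

/-- the feasible points of the scaled system -/
def BsFeas {ι κ : Type*} [Fintype κ] (A : ι → κ → ℝ) (τ : ι → ℤ) (free : Set ι)
    (z : κ → ℝ) : Prop :=
  ∀ r, r ∉ free → (τ r = 0 → ∑ c, A r c * z c = 0) ∧
        (τ r ≠ 0 → 1 ≤ (τ r : ℝ) * ∑ c, A r c * z c)

theorem bs_scale {ι κ : Type*} [Finite ι] [Fintype κ] (A : ι → κ → ℝ)
    (τ : ι → ℤ) (free : Set ι) (hτ : ∀ r, τ r = 0 ∨ τ r = 1 ∨ τ r = -1)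
    (z : κ → ℝ) (hz : ∀ r, r ∉ free → sg (∑ c, A r c * z c) = τ r) :
    ∃ z', BsFeas A τ free z' := by
  classical
  have := Fintype.ofFinite ι
  -- positive values
  have hpos : ∀ r, r ∉ free → τ r ≠ 0 → 0 < (τ r : ℝ) * ∑ c, A r c * z c := by
    intro r hr h0
    have h1 := hz r hr
    rcases hτ r with h | h | h
    · exact absurd h h0
    · rw [h] at h1 ⊢
      have := sg_eq_one.mp h1
      simpa using this
    · rw [h] at h1 ⊢
      have := sg_eq_neg_one.mp h1
      push_cast
      linarith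
  obtain ⟨C, hC⟩ : ∃ C : ℝ, ∀ r, 1 / |(τ r : ℝ) * ∑ c, A r c * z c| ≤ C := by
    obtain ⟨C, hC⟩ := (Set.finite_range
      (fun r => 1 / |(τ r : ℝ) * ∑ c, A r c * z c|)).bddAbove
    exact ⟨C, fun r => hC ⟨r, rfl⟩⟩
  refine ⟨fun c => C * z c, fun r hr => ?_⟩
  have hsum : ∑ c, A r c * (C * z c) = C * ∑ c, A r c * z c := by
    rw [Finset.mul_sum]
    exact Finset.sum_congr rfl fun c _ => by ring
  refine ⟨fun h0 => ?_, fun h0 => ?_⟩
  · have h1 := hz r hr
    rw [h0] at h1
    rw [hsum, sg_eq_zero.mp h1, mul_zero]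
  · have h1 := hpos r hr h0
    have h2 := hC r
    rw [abs_of_pos h1, div_le_iff₀ h1] at h2
    rw [hsum]
    linarith [h2]

theorem bs_step {ι κ : Type*} [Finite ι] [Fintype κ] [DecidableEq κ] (A : ι → κ → ℝ)
    (τ : ι → ℤ) (free : Set ι) (hτ : ∀ r, τ r = 0 ∨ τ r = 1 ∨ τ r = -1)
    (hfree : ∀ r ∈ free, τ r = 0) (hunit : ∀ c : κ, ∃ r ∈ free, A r = Pi.single c 1)
    (z : κ → ℝ) (hz : BsFeas A τ free z)
    (hspan : Submodule.span ℝ (A '' {r | ∑ c, A r c * z c = τ r}) ≠ ⊤) :
    ∃ z', BsFeas A τ free z' ∧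
      finrank ℝ (Submodule.span ℝ (A '' {r | ∑ c, A r c * z c = τ r})) <
      finrank ℝ (Submodule.span ℝ (A '' {r | ∑ c, A r c * z' c = τ r})) := by
  classical
  have := Fintype.ofFinite ι
  set T : Set ι := {r | ∑ c, A r c * z c = τ r} with hT
  -- a vector orthogonal to the tight rows
  obtain ⟨w, hw0, hw⟩ : ∃ w : κ → ℝ, w ≠ 0 ∧ ∀ r ∈ T, ∑ c, A r c * w c = 0 := by
    obtain ⟨f, hf0, hf⟩ := Submodule.exists_le_ker_of_lt_top _ (lt_top_iff_ne_top.mpr hspan)
    have hfx : ∀ x : κ → ℝ, f x = ∑ c, x c * f (Pi.single c 1) := by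
      intro x
      conv_lhs => rw [pi_eq_sum_univ' x]
      rw [map_sum]
      refine Finset.sum_congr rfl fun c _ => ?_
      rw [map_smul, smul_eq_mul]
    refine ⟨fun c => f (Pi.single c 1), ?_, ?_⟩
    · intro h
      apply hf0
      ext x
      rw [LinearMap.comp_apply, LinearMap.single_apply, LinearMap.zero_comp, LinearMap.zero_apply]
      simpa using congrFun h x
    · intro r hr
      have h1 : A r ∈ LinearMap.ker f := hf (Submodule.subset_span ⟨r, hr, rfl⟩)
      rw [LinearMap.mem_ker, hfx] at h1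
      exact h1
  obtain ⟨c, hc⟩ : ∃ c, w c ≠ 0 := by
    by_contra h
    push Not at h
    exact hw0 (funext h)
  obtain ⟨rc, hrc, hArc⟩ := hunit c
  have hsingle : ∀ y : κ → ℝ, ∑ d, A rc d * y d = y c := by
    intro y
    rw [hArc]
    simp [Pi.single_apply]
  have hzc : z c ≠ 0 := by
    intro h
    apply hc
    have : rc ∈ T := by
      show ∑ d, A rc d * z d = τ rc
      rw [hsingle, h, hfree rc hrc]
      simp
    have h2 := hw rc this
    rwa [hsingle] at h2
  -- choose the direction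
  obtain ⟨w, hw, hwc⟩ : ∃ w : κ → ℝ, (∀ r ∈ T, ∑ c, A r c * w c = 0) ∧ z c * w c < 0 := by
    rcases lt_or_gt_of_ne (mul_ne_zero hzc hc) with h | h
    · exact ⟨w, hw, h⟩
    · refine ⟨fun d => - w d, fun r hr => ?_, by linarith⟩
      have := hw r hr
      simp only [mul_neg, Finset.sum_neg_distrib, this, neg_zero]
  clear hw0 hc
  -- the rows to be watched
  set g : ι → ℝ := fun r => if r = rc then z c * z c else
    (τ r : ℝ) * (∑ c, A r c * z c) - 1 with hg
  set b : ι → ℝ := fun r => if r = rc then z c * w c else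
    (τ r : ℝ) * (∑ c, A r c * w c) with hb
  have hbr : ∀ r, b r ≠ 0 → ∑ c, A r c * w c ≠ 0 := by
    intro r h1 h2
    apply h1
    simp only [hb]
    split_ifs with h
    · subst h
      rw [hsingle] at h2
      rw [h2, mul_zero]
    · rw [h2, mul_zero]
  -- nonnegativity of the slacks
  have hg0 : ∀ r, (r = rc ∨ r ∉ free) → b r < 0 → 0 ≤ g r := by
    intro r h1 h2
    simp only [hg]
    split_ifs with h3
    · exact mul_self_nonneg _
    · have h4 : r ∉ free := h1.resolve_left h3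
      have h5 : τ r ≠ 0 := by
        intro h5
        simp only [hb, if_neg h3, h5] at h2
        simp at h2
      have := (hz r h4).2 h5
      linarith
  let W : Finset ι := Finset.univ.filter fun r => (r = rc ∨ r ∉ free) ∧ b r < 0
  have hWne : W.Nonempty := ⟨rc, by
    simp only [W, Finset.mem_filter, Finset.mem_univ, true_and]
    exact ⟨Or.inl trivial, by simpa [hb] using hwc⟩⟩
  obtain ⟨rs, hrs, hmin⟩ := W.exists_min_image (fun r => g r / (- b r)) hWne
  simp only [W, Finset.mem_filter, Finset.mem_univ, true_and] at hrs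
  set t : ℝ := g rs / (- b rs) with ht
  have ht0 : 0 ≤ t := div_nonneg (hg0 rs hrs.1 hrs.2) (by linarith [hrs.2])
  have hsum : ∀ r, ∑ d, A r d * (z d + t * w d) =
      ∑ d, A r d * z d + t * ∑ d, A r d * w d := by
    intro r
    rw [Finset.mul_sum, ← Finset.sum_add_distrib]
    exact Finset.sum_congr rfl fun d _ => by ring
  have hkey : ∀ r, (r = rc ∨ r ∉ free) → b r < 0 → 0 ≤ g r + t * b r := by
    intro r h1 h2
    have h3 := hmin r (by
      simp only [W, Finset.mem_filter, Finset.mem_univ, true_and]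
      exact ⟨h1, h2⟩)
    rw [le_div_iff₀ (by linarith)] at h3
    linarith
  have hzero : g rs + t * b rs = 0 := by
    have h1 : - b rs ≠ 0 := by linarith [hrs.2]
    have h2 : b rs ≠ 0 := by linarith [hrs.2]
    rw [ht]
    field_simp
    ring
  have hT' : T ⊆ {r | ∑ d, A r d * (z d + t * w d) = τ r} := by
    intro r hr
    show ∑ d, A r d * (z d + t * w d) = τ r
    rw [hsum, hw r hr, mul_zero, add_zero]
    exact hr
  have hrs' : rs ∈ {r | ∑ d, A r d * (z d + t * w d) = τ r} := by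
    show ∑ d, A rs d * (z d + t * w d) = τ rs
    by_cases h : rs = rc
    · simp only [hg, hb, if_pos h] at hzero
      rw [h, hsingle, hfree rc hrc]
      have h1 : z c * (z c + t * w c) = 0 := by linarith
      have h2 := (mul_eq_zero.mp h1).resolve_left hzc
      rw [h2]
      simp
    · simp only [hg, hb, if_neg h] at hzero
      rw [hsum]
      have h3 : (τ rs : ℝ) * (∑ d, A rs d * z d + t * ∑ d, A rs d * w d) = 1 := by linarith
      rcases hτ rs with h4 | h4 | h4
      · rw [h4] at h3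
        simp at h3
      · rw [h4] at h3 ⊢
        push_cast at h3 ⊢
        linarith
      · rw [h4] at h3 ⊢
        push_cast at h3 ⊢
        linarith
  refine ⟨fun d => z d + t * w d, ?_, ?_⟩
  · intro r hr
    refine ⟨fun h0 => ?_, fun h0 => ?_⟩
    · have h1 : r ∈ T := by
        show ∑ c, A r c * z c = τ r
        rw [(hz r hr).1 h0, h0]
        simp
      have h2 := hT' h1
      have h3 : ∑ d, A r d * (z d + t * w d) = τ r := h2
      rw [h3, h0]
      simp
    · have h1 := (hz r hr).2 h0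
      have hne : r ≠ rc := fun h => hr (h ▸ hrc)
      by_cases h2 : b r < 0
      · have h3 := hkey r (Or.inr hr) h2
        simp only [hg, hb, if_neg hne] at h3
        rw [hsum]
        linarith
      · simp only [hb, if_neg hne] at h2
        rw [hsum]
        have h3 : 0 ≤ t * ((τ r : ℝ) * ∑ c, A r c * w c) := mul_nonneg ht0 (not_lt.mp h2)
        linarith
  · apply Submodule.finrank_lt_finrank_of_lt
    refine lt_of_le_of_ne (Submodule.span_mono (Set.image_mono hT')) ?_
    intro heq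
    have h1 : A rs ∈ Submodule.span ℝ (A '' T) := by
      rw [heq]
      exact Submodule.subset_span ⟨rs, hrs', rfl⟩
    have h2 : ∀ x ∈ Submodule.span ℝ (A '' T), ∑ d, x d * w d = 0 := by
      intro x hx
      induction hx using Submodule.span_induction with
      | mem x hx =>
        obtain ⟨r, hr, rfl⟩ := hx
        exact hw r hr
      | zero => simp
      | add x y _ _ hx hy =>
        simp only [Pi.add_apply, add_mul, Finset.sum_add_distrib, hx, hy, add_zero]
      | smul a x _ hx =>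
        simp only [Pi.smul_apply, smul_eq_mul, mul_assoc, ← Finset.mul_sum, hx, mul_zero]
    exact hbr rs hrs.2.ne (h2 _ h1)

theorem bs_full {ι κ : Type*} [Finite ι] [Fintype κ] [DecidableEq κ] (A : ι → κ → ℝ)
    (τ : ι → ℤ) (free : Set ι) (hτ : ∀ r, τ r = 0 ∨ τ r = 1 ∨ τ r = -1)
    (hfree : ∀ r ∈ free, τ r = 0) (hunit : ∀ c : κ, ∃ r ∈ free, A r = Pi.single c 1)
    (n : ℕ) : ∀ (z : κ → ℝ), BsFeas A τ free z →
    Fintype.card κ - finrank ℝ (Submodule.span ℝ (A '' {r | ∑ c, A r c * z c = τ r})) = n →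
    ∃ z', BsFeas A τ free z' ∧
      Submodule.span ℝ (A '' {r | ∑ c, A r c * z' c = τ r}) = ⊤ := by
  induction n using Nat.strong_induction_on with
  | _ n ih =>
    intro z hz hn
    by_cases hspan : Submodule.span ℝ (A '' {r | ∑ c, A r c * z c = τ r}) = ⊤
    · exact ⟨z, hz, hspan⟩
    · obtain ⟨z', hz', hlt⟩ := bs_step A τ free hτ hfree hunit z hz hspan
      have hle : finrank ℝ (Submodule.span ℝ (A '' {r | ∑ c, A r c * z' c = τ r})) ≤
          Fintype.card κ := by
        have := Submodule.finrank_le (Submodule.span ℝ (A '' {r | ∑ c, A r c * z' c = τ r}))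
        rwa [finrank_fintype_fun_eq_card] at this
      exact ih _ (by omega) z' hz' rfl

theorem exists_basic {ι κ : Type*} [Finite ι] [Fintype κ] [DecidableEq κ] (A : ι → κ → ℝ)
    (τ : ι → ℤ) (free : Set ι) (hτ : ∀ r, τ r = 0 ∨ τ r = 1 ∨ τ r = -1)
    (hfree : ∀ r ∈ free, τ r = 0) (hunit : ∀ c : κ, ∃ r ∈ free, A r = Pi.single c 1)
    (z : κ → ℝ) (hz : ∀ r, r ∉ free → sg (∑ c, A r c * z c) = τ r) :
    ∃ (ρ : κ → ι) (z' : κ → ℝ), (Matrix.of fun t c => A (ρ t) c).det ≠ 0 ∧
      (∀ t, ∑ c, A (ρ t) c * z' c = τ (ρ t)) ∧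
      ∀ r, r ∉ free → (τ r = 0 → ∑ c, A r c * z' c = 0) ∧
        (τ r ≠ 0 → 1 ≤ (τ r : ℝ) * ∑ c, A r c * z' c) := by
  obtain ⟨z₀, hz₀⟩ := bs_scale A τ free hτ z hz
  obtain ⟨z', hz', hspan⟩ := bs_full A τ free hτ hfree hunit _ z₀ hz₀ rfl
  obtain ⟨κ', a, ha, hspan', hli⟩ := exists_linearIndependent' ℝ
    (fun r : {r | ∑ c, A r c * z' c = τ r} => A r.1)
  have htop : ⊤ ≤ Submodule.span ℝ (Set.range
      ((fun r : {r | ∑ c, A r c * z' c = τ r} => A r.1) ∘ a)) := by
    rw [hspan', ← hspan]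
    apply Submodule.span_mono
    rintro _ ⟨r, hr, rfl⟩
    exact ⟨⟨r, hr⟩, rfl⟩
  let B := Basis.mk hli htop
  let e : κ' ≃ κ := B.indexEquiv (Pi.basisFun ℝ κ)
  refine ⟨fun t => (a (e.symm t)).1, z', ?_, fun t => (a (e.symm t)).2, hz'⟩
  have hli2 : LinearIndependent ℝ (fun t => A (a (e.symm t)).1) := by
    have := hli.comp e.symm e.symm.injective
    exact this
  have hunit2 : IsUnit (Matrix.of fun t c => A (a (e.symm t)).1 c) := by
    rw [← Matrix.linearIndependent_rows_iff_isUnit]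
    exact hli2
  rw [Matrix.isUnit_iff_isUnit_det] at hunit2
  exact hunit2.ne_zero

end Pool.Agent.Lib.UPSlopes
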