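import Pool.Agent.Lib.MP_51356b_lc.Gap

/-!
# Growth of functions, and bounds for values of polynomials
-/

namespace Pool.Agent.Lib.UPSlopes

open Finset MvPolynomial

/-- polynomially bounded functions -/
def PB (f : ℕ → ℕ) : Prop := ∃ c : ℕ, ∀ L, f L ≤ (L + 2) ^ c

/-- functions bounded by `2` to a polynomial -/
def LB (f : ℕ → ℕ) : Prop := ∃ c : ℕ, ∀ L, f L ≤ 2 ^ ((L + 2) ^ c)

theorem PB.mono {f g : ℕ → ℕ} (hg : PB g) (h : ∀ L, f L ≤ g L) : PB f := by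
  obtain ⟨c, hc⟩ := hg
  exact ⟨c, fun L => (h L).trans (hc L)⟩

theorem PB.const (n : ℕ) : PB (fun _ => n) := by
  refine ⟨n, fun L => ?_⟩
  calc n ≤ 2 ^ n := Nat.lt_two_pow_self.le
    _ ≤ (L + 2) ^ n := Nat.pow_le_pow_left (by omega) n

theorem PB.id : PB (fun L => L) := ⟨1, fun L => by rw [pow_one]; exact Nat.le_add_right L 2⟩

theorem PB.add {f g : ℕ → ℕ} (hf : PB f) (hg : PB g) : PB (fun L => f L + g L) := by
  obtain ⟨a, ha⟩ := hf
  obtain ⟨b, hb⟩ := hg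
  refine ⟨a + b + 1, fun L => ?_⟩
  have h1 : (L + 2) ^ a ≤ (L + 2) ^ (a + b) := Nat.pow_le_pow_right (by omega) (by omega)
  have h2 : (L + 2) ^ b ≤ (L + 2) ^ (a + b) := Nat.pow_le_pow_right (by omega) (by omega)
  calc f L + g L ≤ (L + 2) ^ (a + b) + (L + 2) ^ (a + b) :=
        Nat.add_le_add ((ha L).trans h1) ((hb L).trans h2)
    _ = (L + 2) ^ (a + b) * 2 := by ring
    _ ≤ (L + 2) ^ (a + b) * (L + 2) := Nat.mul_le_mul_left _ (by omega)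
    _ = (L + 2) ^ (a + b + 1) := by rw [pow_succ]

theorem PB.mul {f g : ℕ → ℕ} (hf : PB f) (hg : PB g) : PB (fun L => f L * g L) := by
  obtain ⟨a, ha⟩ := hf
  obtain ⟨b, hb⟩ := hg
  refine ⟨a + b, fun L => ?_⟩
  rw [pow_add]
  exact Nat.mul_le_mul (ha L) (hb L)

theorem PB.pow {f : ℕ → ℕ} (hf : PB f) (n : ℕ) : PB (fun L => f L ^ n) := by
  obtain ⟨a, ha⟩ := hf
  refine ⟨a * n, fun L => ?_⟩
  rw [pow_mul]
  exact Nat.pow_le_pow_left (ha L) n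

theorem LB.mono {f g : ℕ → ℕ} (hg : LB g) (h : ∀ L, f L ≤ g L) : LB f := by
  obtain ⟨c, hc⟩ := hg
  exact ⟨c, fun L => (h L).trans (hc L)⟩

theorem LB.of_pb {f : ℕ → ℕ} (hf : PB f) : LB f := by
  obtain ⟨c, hc⟩ := hf
  exact ⟨c, fun L => (hc L).trans Nat.lt_two_pow_self.le⟩

theorem LB.two_pow {f : ℕ → ℕ} (hf : PB f) : LB (fun L => 2 ^ f L) := by
  obtain ⟨c, hc⟩ := hf
  exact ⟨c, fun L => Nat.pow_le_pow_right (by omega) (hc L)⟩

theorem LB.mul {f g : ℕ → ℕ} (hf : LB f) (hg : LB g) : LB (fun L => f L * g L) := by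
  obtain ⟨a, ha⟩ := hf
  obtain ⟨b, hb⟩ := hg
  obtain ⟨c, hc⟩ := PB.add (f := fun L => (L + 2) ^ a) (g := fun L => (L + 2) ^ b)
    ⟨a, fun L => le_rfl⟩ ⟨b, fun L => le_rfl⟩
  refine ⟨c, fun L => ?_⟩
  calc f L * g L ≤ 2 ^ ((L + 2) ^ a) * 2 ^ ((L + 2) ^ b) := Nat.mul_le_mul (ha L) (hb L)
    _ = 2 ^ ((L + 2) ^ a + (L + 2) ^ b) := by rw [pow_add]
    _ ≤ 2 ^ ((L + 2) ^ c) := Nat.pow_le_pow_right (by omega) (hc L)

theorem LB.add {f g : ℕ → ℕ} (hf : LB f) (hg : LB g) : LB (fun L => f L + g L) := by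
  obtain ⟨a, ha⟩ := hf
  obtain ⟨b, hb⟩ := hg
  obtain ⟨c, hc⟩ := PB.add (f := fun L => (L + 2) ^ a) (g := fun L => (L + 2) ^ b)
    ⟨a, fun L => le_rfl⟩ ⟨b, fun L => le_rfl⟩
  refine ⟨c, fun L => ?_⟩
  have h1 : 2 ≤ 2 ^ ((L + 2) ^ a) := by
    calc 2 = 2 ^ 1 := rfl
      _ ≤ 2 ^ ((L + 2) ^ a) := Nat.pow_le_pow_right (by omega) (Nat.one_le_pow _ _ (by omega))
  have h2 : 2 ≤ 2 ^ ((L + 2) ^ b) := by
    calc 2 = 2 ^ 1 := rfl
      _ ≤ 2 ^ ((L + 2) ^ b) := Nat.pow_le_pow_right (by omega) (Nat.one_le_pow _ _ (by omega))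
  calc f L + g L ≤ 2 ^ ((L + 2) ^ a) + 2 ^ ((L + 2) ^ b) := Nat.add_le_add (ha L) (hb L)
    _ ≤ 2 ^ ((L + 2) ^ a) * 2 ^ ((L + 2) ^ b) := by nlinarith
    _ = 2 ^ ((L + 2) ^ a + (L + 2) ^ b) := by rw [pow_add]
    _ ≤ 2 ^ ((L + 2) ^ c) := Nat.pow_le_pow_right (by omega) (hc L)

theorem LB.pow {f g : ℕ → ℕ} (hf : LB f) (hg : PB g) : LB (fun L => f L ^ g L) := by
  obtain ⟨a, ha⟩ := hf
  obtain ⟨b, hb⟩ := hg
  refine ⟨a + b, fun L => ?_⟩
  calc f L ^ g L ≤ (2 ^ ((L + 2) ^ a)) ^ g L := Nat.pow_le_pow_left (ha L) _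
    _ ≤ (2 ^ ((L + 2) ^ a)) ^ ((L + 2) ^ b) :=
        Nat.pow_le_pow_right (Nat.pos_of_ne_zero (by positivity)) (hb L)
    _ = 2 ^ ((L + 2) ^ (a + b)) := by rw [← pow_mul, ← pow_add]

theorem LB.const (n : ℕ) : LB (fun _ => n) := LB.of_pb (PB.const n)

theorem gE_pb {m D : ℕ → ℕ} (hm : PB m) (hD : PB D) : PB (fun L => gE (m L) (D L)) :=
  ((hm.add (PB.const 1)).mul (hD.add (PB.const 1))).add (PB.const 1)

theorem gN_pb (k : ℕ) {m D : ℕ → ℕ} (hm : PB m) (hD : PB D) : PB (fun L => gN k (m L) (D L)) :=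
  PB.mono (((PB.const 2).mul (gE_pb hm hD)).pow (k + 1))
    (fun _ => Nat.pow_le_pow_left (Nat.sub_le _ _) _)

theorem gL_lb {a m D Λ : ℕ → ℕ} (ha : PB a) (hm : PB m) (hD : PB D) (hΛ : LB Λ) :
    LB (fun L => gL (a L) (m L) (D L) (Λ L)) :=
  (LB.of_pb ((PB.const 2).mul (gE_pb hm hD))).mul
    (((LB.of_pb ha).mul (hΛ.pow (PB.const 2))).add
      (((hΛ.pow hm).add (LB.const 1)).pow (PB.const 2)))

theorem gP_lb (k : ℕ) {a m D Λ : ℕ → ℕ} (ha : PB a) (hm : PB m) (hD : PB D) (hΛ : LB Λ) :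
    LB (fun L => gP k (a L) (m L) (D L) (Λ L)) := by
  refine LB.pow ?_ (gN_pb k hm hD)
  refine (LB.const 1).add (LB.mul ?_ ?_)
  · exact LB.of_pb (((PB.const 2).mul (gE_pb hm hD)).add (PB.const (k + 1)))
  · refine (gL_lb ha hm hD hΛ).pow ?_
    refine PB.add (PB.add ((PB.const 2).mul (gE_pb hm hD)) ?_) (PB.const 1)
    refine PB.mul (PB.const (k + 1)) ?_
    exact PB.mono ((PB.const 2).mul (gE_pb hm hD)) (fun _ => Nat.sub_le _ _)

theorem gC_lb (k : ℕ) {m D R : ℕ → ℕ} (hm : PB m) (hD : PB D) (hR : LB R) :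
    LB (fun L => gC k (m L) (D L) (R L)) :=
  (LB.const (k + 1)).mul (hR.pow ((PB.const 2).mul (gE_pb hm hD)))

theorem gU_lb (k : ℕ) {a m D Λ R : ℕ → ℕ} (ha : PB a) (hm : PB m) (hD : PB D) (hΛ : LB Λ)
    (hR : LB R) : LB (fun L => gU k (a L) (m L) (D L) (Λ L) (R L)) := by
  have h1 := gC_lb k hm hD hR
  have h2 := gN_pb k hm hD
  have h3 := gP_lb k ha hm hD hΛ
  have h4 := gE_pb hm hD
  exact ((((LB.const 2).mul (LB.of_pb h4)).mul h3).mul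
    (((h1.add (LB.of_pb h2)).add (LB.const 2)).pow h2)).add
    ((h1.add (LB.of_pb h2)).add (LB.const 3))

/-! ### values of polynomials -/

theorem abs_monomial_le {ι : Type*} (S : Finset ι) (n : ι → ℕ) (s : ι → ℝ) {H : ℝ}
    (hs : ∀ i, |s i| ≤ H) : |∏ i ∈ S, s i ^ n i| ≤ H ^ (∑ i ∈ S, n i) := by
  rw [Finset.abs_prod, ← Finset.prod_pow_eq_pow_sum]
  refine Finset.prod_le_prod (fun i _ => abs_nonneg _) (fun i _ => ?_)
  rw [abs_pow]
  exact pow_le_pow_left₀ (abs_nonneg _) (hs i) _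

theorem abs_pow_sub_le {a b H e : ℝ} (hH : 1 ≤ H) (ha : |a| ≤ H) (hb : |b| ≤ H)
    (he : |a - b| ≤ e) (n : ℕ) : |a ^ n - b ^ n| ≤ n * H ^ n * e := by
  have he0 : 0 ≤ e := (abs_nonneg _).trans he
  induction n with
  | zero => simp
  | succ n ih =>
    have h1 : a ^ (n + 1) - b ^ (n + 1) = (a ^ n - b ^ n) * a + b ^ n * (a - b) := by ring
    rw [h1]
    refine (abs_add_le _ _).trans ?_
    rw [abs_mul, abs_mul, abs_pow]
    have h2 : |a ^ n - b ^ n| * |a| ≤ (n * H ^ n * e) * H :=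
      mul_le_mul ih ha (abs_nonneg _) (by positivity)
    have h3 : |b| ^ n * |a - b| ≤ H ^ (n + 1) * e := by
      refine mul_le_mul ?_ he (abs_nonneg _) (by positivity)
      refine (pow_le_pow_left₀ (abs_nonneg _) hb n).trans ?_
      exact pow_le_pow_right₀ hH (Nat.le_succ n)
    calc |a ^ n - b ^ n| * |a| + |b| ^ n * |a - b|
        ≤ (n * H ^ n * e) * H + H ^ (n + 1) * e := add_le_add h2 h3
      _ = ((n + 1 : ℕ) : ℝ) * H ^ (n + 1) * e := by push_cast; ring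

theorem abs_monomial_sub_le {ι : Type*} (S : Finset ι) (n : ι → ℕ) (s q : ι → ℝ) {H e : ℝ}
    (hH : 1 ≤ H) (hs : ∀ i, |s i| ≤ H) (hq : ∀ i, |q i| ≤ H) (he : ∀ i, |s i - q i| ≤ e)
    (he0 : 0 ≤ e) :
    |∏ i ∈ S, s i ^ n i - ∏ i ∈ S, q i ^ n i| ≤ (∑ i ∈ S, n i : ℕ) * H ^ (∑ i ∈ S, n i) * e := by
  classical
  induction S using Finset.induction_on with
  | empty => simp
  | insert a S ha ih =>
    rw [Finset.prod_insert ha, Finset.prod_insert ha, Finset.sum_insert ha]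
    set A := ∏ i ∈ S, s i ^ n i
    set B := ∏ i ∈ S, q i ^ n i
    set N := ∑ i ∈ S, n i with hN
    have h1 : s a ^ n a * A - q a ^ n a * B = (s a ^ n a - q a ^ n a) * A +
        q a ^ n a * (A - B) := by ring
    rw [h1]
    refine (abs_add_le _ _).trans ?_
    rw [abs_mul, abs_mul]
    have h2 : |s a ^ n a - q a ^ n a| * |A| ≤ (n a * H ^ n a * e) * H ^ N :=
      mul_le_mul (abs_pow_sub_le hH (hs a) (hq a) (he a) _) (abs_monomial_le S n s hs)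
        (abs_nonneg _) (by positivity)
    have h3 : |q a ^ n a| * |A - B| ≤ H ^ n a * (N * H ^ N * e) := by
      refine mul_le_mul ?_ ih (abs_nonneg _) (by positivity)
      rw [abs_pow]
      exact pow_le_pow_left₀ (abs_nonneg _) (hq a) _
    calc |s a ^ n a - q a ^ n a| * |A| + |q a ^ n a| * |A - B|
        ≤ (n a * H ^ n a * e) * H ^ N + H ^ n a * (N * H ^ N * e) := add_le_add h2 h3
      _ = ((n a + N : ℕ) : ℝ) * H ^ (n a + N) * e := by push_cast; rw [pow_add]; ring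

theorem abs_aeval_le {K D : ℕ} (p : MvPolynomial (Fin K) ℤ) (hp : p.totalDegree ≤ D)
    (s : Fin K → ℝ) {H : ℝ} (hH : 1 ≤ H) (hs : ∀ i, |s i| ≤ H) :
    |aeval s p| ≤ mvl p * H ^ D := by
  rw [aeval_eq_sum]
  refine (Finset.abs_sum_le_sum_abs _ _).trans ?_
  have h1 : (mvl p : ℝ) * H ^ D = ∑ m ∈ p.support, (((coeff m p).natAbs : ℕ) : ℝ) * H ^ D := by
    rw [← Finset.sum_mul]
    congr 1
    unfold mvl Mag.mval
    push_cast
    rfl
  rw [h1]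
  refine Finset.sum_le_sum (fun m hm => ?_)
  rw [abs_mul]
  refine mul_le_mul ?_ ?_ (abs_nonneg _) (by positivity)
  · rw [Nat.cast_natAbs, Int.cast_abs]
  · refine (abs_monomial_le Finset.univ (fun i => m i) s hs).trans ?_
    refine pow_le_pow_right₀ hH ?_
    have h2 := le_totalDegree hm
    rw [Finsupp.sum_fintype _ _ (fun _ => rfl)] at h2
    exact h2.trans hp

theorem abs_aeval_sub_le {K D : ℕ} (p : MvPolynomial (Fin K) ℤ) (hp : p.totalDegree ≤ D)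
    (s q : Fin K → ℝ) {H e : ℝ} (hH : 1 ≤ H) (hs : ∀ i, |s i| ≤ H) (hq : ∀ i, |q i| ≤ H)
    (he : ∀ i, |s i - q i| ≤ e) (he0 : 0 ≤ e) :
    |aeval s p - aeval q p| ≤ mvl p * (D * H ^ D * e) := by
  rw [aeval_eq_sum, aeval_eq_sum, ← Finset.sum_sub_distrib]
  refine (Finset.abs_sum_le_sum_abs _ _).trans ?_
  have h1 : (mvl p : ℝ) * (D * H ^ D * e) =
      ∑ m ∈ p.support, (((coeff m p).natAbs : ℕ) : ℝ) * (D * H ^ D * e) := by
    rw [← Finset.sum_mul]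
    congr 1
    unfold mvl Mag.mval
    push_cast
    rfl
  rw [h1]
  refine Finset.sum_le_sum (fun m hm => ?_)
  rw [← mul_sub, abs_mul]
  refine mul_le_mul ?_ ?_ (abs_nonneg _) (by positivity)
  · rw [Nat.cast_natAbs, Int.cast_abs]
  · refine (abs_monomial_sub_le Finset.univ (fun i => m i) s q hH hs hq he he0).trans ?_
    have h2 := le_totalDegree hm
    rw [Finsupp.sum_fintype _ _ (fun _ => rfl)] at h2
    have h3 := h2.trans hp
    gcongr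

end Pool.Agent.Lib.UPSlopes
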