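import Pool.Agent.Lib.PolyTime.NatBin
import Pool.Agent.Lib.CookLevin.Sat

/-!
# Upward planar drawings with few slopes: definitions

* `Code`: digraphs given by the list of their vertices and the list of their edges, the names of
  the vertices being natural numbers written in binary (`NBin` is the type `ℕ`);
* `Drawing c P`: `P` is an upward planar straight-line drawing of the digraph `c`;
* `slopes c P`: the set of the directions of the edges (lines through the origin);
* `Code.word c`: the bit string which encodes `c`;
* `NP A`: the set `A` of bit strings belongs to the class NP.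
-/

namespace Pool.Agent.Lib.UPSlopes

open Pool.Agent.Lib.PolyTime Turing

/-- A digraph given by the list of its vertices and the list of its edges. -/
abbrev Code : Type := List NBin × List (NBin × NBin)

/-- The lists describe a finite digraph without loops and multiple edges. -/
structure Code.IsDigraph (c : Code) : Prop where
  vertices : c.1.Nodup
  ends : ∀ e ∈ c.2, e.1 ∈ c.1 ∧ e.2 ∈ c.1
  loopless : ∀ e ∈ c.2, e.1 ≠ e.2
  edges : c.2.Nodup

/-- `P` is an upward planar straight-line drawing: the vertices lie at distinct points, no vertex
lies on an edge except its ends, two edges meet only in common ends, and every edge is directed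
upwards. -/
structure Drawing (c : Code) (P : NBin → ℝ × ℝ) : Prop where
  inj : ∀ u ∈ c.1, ∀ v ∈ c.1, P u = P v → u = v
  vertex : ∀ e ∈ c.2, ∀ w ∈ c.1, w ≠ e.1 → w ≠ e.2 → P w ∉ segment ℝ (P e.1) (P e.2)
  cross : ∀ e ∈ c.2, ∀ f ∈ c.2, e ≠ f → ∀ p, p ∈ segment ℝ (P e.1) (P e.2) →
    p ∈ segment ℝ (P f.1) (P f.2) → ∃ w, (w = e.1 ∨ w = e.2) ∧ (w = f.1 ∨ w = f.2) ∧ p = P w
  upward : ∀ e ∈ c.2, (P e.1).2 < (P e.2).2

/-- The set of the directions of the edges. -/
def slopes (c : Code) (P : NBin → ℝ × ℝ) : Set (Submodule ℝ (ℝ × ℝ)) :=
  {d | ∃ e ∈ c.2, d = Submodule.span ℝ {P e.2 - P e.1}}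

/-- `c` has an upward planar straight-line drawing whose edges use at most `k` slopes. -/
def HasDrawing (k : ℕ) (c : Code) : Prop :=
  ∃ P : NBin → ℝ × ℝ, Drawing c P ∧ (slopes c P).ncard ≤ k

/-- The word of a name: its binary digits (least significant first), each preceded by `true`,
and a final `false`. -/
def nameWord (n : NBin) : List Bool :=
  (Nat.bits n).flatMap (fun b => [true, b]) ++ [false]

/-- The bit string of a digraph: the words of the vertices, each preceded by `true`, a `false`,
the words of the two ends of every edge, preceded by `true`, and a final `false`. -/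
def Code.word (c : Code) : List Bool :=
  c.1.flatMap (fun v => true :: nameWord v) ++
    false :: (c.2.flatMap (fun e => true :: (nameWord e.1 ++ nameWord e.2)) ++ [false])

/-- The decision problem `UPSN_k` as a set of bit strings: the words of the digraphs which have an
upward planar straight-line drawing whose edges use at most `k` slopes. -/
def UPSN (k : ℕ) : Set (List Bool) :=
  {x | ∃ c : Code, c.IsDigraph ∧ HasDrawing k c ∧ x = c.word}

/-- The class NP: `x ∈ A` if and only if some word `w` of length at most `p(|x|)` satisfies
`V (x, w)`, for a polynomial `p` and a predicate `V` decidable in polynomial time by a Turing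
machine. -/
def NP (A : Set (List Bool)) : Prop :=
  ∃ (p : Polynomial ℕ) (V : List Bool × List Bool → Bool),
    Nonempty (TM2ComputableInPolyTime CookLevin.pairWord Computability.encodeBool V) ∧
    ∀ x, x ∈ A ↔ ∃ w : List Bool, w.length ≤ p.eval x.length ∧ V (x, w) = true

end Pool.Agent.Lib.UPSlopes
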