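import Mathlib

/-!
# The sign of a real number as an integer
-/

namespace Pool.Agent.Lib.UPSlopes

/-- The sign of a real number as an integer. -/
noncomputable def sg (x : ℝ) : ℤ := if 0 < x then 1 else if x < 0 then -1 else 0

theorem sg_eq_one {x : ℝ} : sg x = 1 ↔ 0 < x := by
  unfold sg
  split_ifs with h1 h2
  · simp [h1]
  · simp [h1]
  · simp [h1]

theorem sg_eq_neg_one {x : ℝ} : sg x = -1 ↔ x < 0 := by
  unfold sg
  split_ifs with h1 h2
  · simp only [false_iff, not_lt]
    exact h1.le
  · simp [h2]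
  · simp [h2]

theorem sg_eq_zero {x : ℝ} : sg x = 0 ↔ x = 0 := by
  unfold sg
  split_ifs with h1 h2
  · simp only [one_ne_zero, false_iff]
    exact h1.ne'
  · simp only [neg_eq_zero, one_ne_zero, false_iff]
    exact h2.ne
  · simp only [true_iff]
    exact le_antisymm (not_lt.mp h1) (not_lt.mp h2)

theorem sg_cases (x : ℝ) : sg x = 0 ∨ sg x = 1 ∨ sg x = -1 := by
  unfold sg
  split_ifs <;> simp

end Pool.Agent.Lib.UPSlopes
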