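import Pool.Agent.Lib.MP_51356b_lc.Defs
import Pool.Agent.Lib.MP_51356b_lc.Sign

/-!
# Drawings in terms of signs of linear forms

A drawing `P` whose edges are parallel to the vectors `(s i, 1)`, `i < k`, is described by the
signs of the forms `x_u - x_v`, `y_u - y_v` and `(x_u - x_v) - s_i (y_u - y_v)`.
-/

namespace Pool.Agent.Lib.UPSlopes

open Pool.Agent.Lib.PolyTime

noncomputable def sX (P : NBin → ℝ × ℝ) (u v : NBin) : ℤ := sg ((P u).1 - (P v).1)

noncomputable def sY (P : NBin → ℝ × ℝ) (u v : NBin) : ℤ := sg ((P u).2 - (P v).2)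

noncomputable def sD (s : ℕ → ℝ) (P : NBin → ℝ × ℝ) (i : ℕ) (u v : NBin) : ℤ :=
  sg (((P u).1 - (P v).1) - s i * ((P u).2 - (P v).2))

/-- The combinatorial conditions on the tables of signs. -/
structure Good (k : ℕ) (c : Code) (X Y : NBin → NBin → ℤ) (D : ℕ → NBin → NBin → ℤ) : Prop where
  inj : ∀ u ∈ c.1, ∀ v ∈ c.1, X u v = 0 → Y u v = 0 → u = v
  edge : ∀ e ∈ c.2, Y e.2 e.1 = 1 ∧ ∃ i < k, D i e.2 e.1 = 0
  vertex : ∀ e ∈ c.2, ∀ i < k, D i e.2 e.1 = 0 → ∀ w ∈ c.1, w ≠ e.1 → w ≠ e.2 →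
    ¬ (D i w e.1 = 0 ∧ Y w e.1 = 1 ∧ Y e.2 w = 1)
  cross : ∀ e ∈ c.2, ∀ f ∈ c.2, e ≠ f → ∀ i < k, ∀ j < k, D i e.2 e.1 = 0 → D j f.2 f.1 = 0 →
    e.1 = f.2 ∨ e.2 = f.1 ∨ (e.1 = f.1 ∧ D i f.2 e.1 ≠ 0) ∨ (e.2 = f.2 ∧ D i f.1 e.2 ≠ 0) ∨
    (D i f.1 e.1 = 1 ∧ D i f.2 e.1 = 1) ∨ (D i f.1 e.1 = -1 ∧ D i f.2 e.1 = -1) ∨
    (D j e.1 f.1 = 1 ∧ D j e.2 f.1 = 1) ∨ (D j e.1 f.1 = -1 ∧ D j e.2 f.1 = -1) ∨
    Y f.1 e.2 = 1 ∨ Y e.1 f.2 = 1

/-! ### Plane geometry -/

/-- The points of a non-horizontal segment. -/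
theorem draw_mem_segment {a b : ℝ × ℝ} {s : ℝ} (hab : a.2 < b.2)
    (hs : b.1 - a.1 = s * (b.2 - a.2)) (p : ℝ × ℝ) :
    p ∈ segment ℝ a b ↔ p.1 - a.1 = s * (p.2 - a.2) ∧ a.2 ≤ p.2 ∧ p.2 ≤ b.2 := by
  have hpos : 0 < b.2 - a.2 := by linarith
  constructor
  · rintro ⟨u, v, hu, hv, huv, rfl⟩
    have hu' : u = 1 - v := by linarith
    subst hu'
    simp only [Prod.fst_add, Prod.snd_add, Prod.smul_fst, Prod.smul_snd, smul_eq_mul]
    refine ⟨?_, ?_, ?_⟩
    · have : b.1 = a.1 + s * (b.2 - a.2) := by linarith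
      rw [this]; ring
    · nlinarith
    · nlinarith
  · rintro ⟨h1, h2, h3⟩
    refine ⟨(b.2 - p.2) / (b.2 - a.2), (p.2 - a.2) / (b.2 - a.2), ?_, ?_, ?_, ?_⟩
    · exact div_nonneg (by linarith) hpos.le
    · exact div_nonneg (by linarith) hpos.le
    · rw [← add_div, div_eq_one_iff_eq hpos.ne']; ring
    · apply Prod.ext
      · simp only [Prod.fst_add, Prod.smul_fst, smul_eq_mul]
        have hb : b.1 = a.1 + s * (b.2 - a.2) := by linarith
        have hp : p.1 = a.1 + s * (p.2 - a.2) := by linarith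
        rw [hb, hp]
        field_simp
        ring
      · simp only [Prod.snd_add, Prod.smul_snd, smul_eq_mul]
        field_simp
        ring

/-- If the two segments have a common point, then none of the separations holds. -/
theorem draw_no_meet {a b c d : ℝ × ℝ} {s t : ℝ} (hab : a.2 < b.2) (hcd : c.2 < d.2)
    (hs : b.1 - a.1 = s * (b.2 - a.2)) (ht : d.1 - c.1 = t * (d.2 - c.2)) {p : ℝ × ℝ}
    (hp : p ∈ segment ℝ a b) (hq : p ∈ segment ℝ c d) :
    ¬ (0 < (c.1 - a.1) - s * (c.2 - a.2) ∧ 0 < (d.1 - a.1) - s * (d.2 - a.2)) ∧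
    ¬ ((c.1 - a.1) - s * (c.2 - a.2) < 0 ∧ (d.1 - a.1) - s * (d.2 - a.2) < 0) := by
  rw [draw_mem_segment hab hs] at hp
  obtain ⟨u, v, hu, hv, huv, rfl⟩ := hq
  have hu' : u = 1 - v := by linarith
  subst hu'
  obtain ⟨h1, -, -⟩ := hp
  simp only [Prod.fst_add, Prod.snd_add, Prod.smul_fst, Prod.smul_snd, smul_eq_mul] at h1
  have key : (1 - v) * ((c.1 - a.1) - s * (c.2 - a.2)) + v * ((d.1 - a.1) - s * (d.2 - a.2)) = 0 := by
    linear_combination h1
  constructor
  · rintro ⟨h2, h3⟩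
    rcases hv.eq_or_lt with h | h
    · subst h; linarith
    · nlinarith [mul_pos h h3, mul_nonneg hu h2.le]
  · rintro ⟨h2, h3⟩
    rcases hv.eq_or_lt with h | h
    · subst h; linarith
    · nlinarith [mul_pos h (neg_pos.mpr h3), mul_nonneg hu (neg_pos.mpr h2).le]

/-- If none of the separations holds, then the two segments have a common point. -/
theorem draw_meet {a b c d : ℝ × ℝ} {s t : ℝ} (hab : a.2 < b.2) (hcd : c.2 < d.2)
    (hs : b.1 - a.1 = s * (b.2 - a.2)) (ht : d.1 - c.1 = t * (d.2 - c.2))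
    (h1 : ¬ (0 < (c.1 - a.1) - s * (c.2 - a.2) ∧ 0 < (d.1 - a.1) - s * (d.2 - a.2)))
    (h2 : ¬ ((c.1 - a.1) - s * (c.2 - a.2) < 0 ∧ (d.1 - a.1) - s * (d.2 - a.2) < 0))
    (h3 : ¬ (0 < (a.1 - c.1) - t * (a.2 - c.2) ∧ 0 < (b.1 - c.1) - t * (b.2 - c.2)))
    (h4 : ¬ ((a.1 - c.1) - t * (a.2 - c.2) < 0 ∧ (b.1 - c.1) - t * (b.2 - c.2) < 0))
    (h5 : c.2 ≤ b.2) (h6 : a.2 ≤ d.2) :
    ∃ p, p ∈ segment ℝ a b ∧ p ∈ segment ℝ c d := by
  by_cases hst : s = t
  · subst hst
    have hd : d.1 = c.1 + s * (d.2 - c.2) := by linarith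
    have hc0 : (c.1 - a.1) - s * (c.2 - a.2) = 0 := by
      rcases lt_trichotomy ((c.1 - a.1) - s * (c.2 - a.2)) 0 with h | h | h
      · exact absurd ⟨h, by rw [hd]; linarith⟩ h2
      · exact h
      · exact absurd ⟨h, by rw [hd]; linarith⟩ h1
    rcases le_total a.2 c.2 with h | h
    · refine ⟨c, (draw_mem_segment hab hs c).mpr ⟨by linarith, h, h5⟩, left_mem_segment ℝ c d⟩
    · refine ⟨a, left_mem_segment ℝ a b, (draw_mem_segment hcd ht a).mpr ⟨by linarith, h, h6⟩⟩
  · -- the height of the common point of the lines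
    have hts : t - s ≠ 0 := sub_ne_zero.mpr (Ne.symm hst)
    set y := (a.1 - c.1 + t * c.2 - s * a.2) / (t - s) with hy
    have hy' : (t - s) * y = a.1 - c.1 + t * c.2 - s * a.2 := by
      rw [hy]; field_simp
    have hb : b.1 = a.1 + s * (b.2 - a.2) := by linarith
    have hd : d.1 = c.1 + t * (d.2 - c.2) := by linarith
    have ec : (c.1 - a.1) - s * (c.2 - a.2) = (t - s) * (c.2 - y) := by
      linear_combination hy'
    have ed : (d.1 - a.1) - s * (d.2 - a.2) = (t - s) * (d.2 - y) := by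
      rw [hd]; linear_combination hy'
    have ea : (a.1 - c.1) - t * (a.2 - c.2) = (t - s) * (y - a.2) := by
      linear_combination - hy'
    have eb : (b.1 - c.1) - t * (b.2 - c.2) = (t - s) * (y - b.2) := by
      rw [hb]; linear_combination - hy'
    rw [ec, ed] at h1 h2
    rw [ea, eb] at h3 h4
    have hyc : c.2 ≤ y ∧ y ≤ d.2 := by
      rcases lt_or_gt_of_ne hts with h | h
      · constructor
        · by_contra hlt
          push Not at hlt
          exact h2 ⟨mul_neg_of_neg_of_pos h (by linarith), mul_neg_of_neg_of_pos h (by linarith)⟩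
        · by_contra hlt
          push Not at hlt
          exact h1 ⟨mul_pos_of_neg_of_neg h (by linarith), mul_pos_of_neg_of_neg h (by linarith)⟩
      · constructor
        · by_contra hlt
          push Not at hlt
          exact h1 ⟨mul_pos h (by linarith), mul_pos h (by linarith)⟩
        · by_contra hlt
          push Not at hlt
          exact h2 ⟨mul_neg_of_pos_of_neg h (by linarith), mul_neg_of_pos_of_neg h (by linarith)⟩
    have hya : a.2 ≤ y ∧ y ≤ b.2 := by
      rcases lt_or_gt_of_ne hts with h | h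
      · constructor
        · by_contra hlt
          push Not at hlt
          exact h3 ⟨mul_pos_of_neg_of_neg h (by linarith), mul_pos_of_neg_of_neg h (by linarith)⟩
        · by_contra hlt
          push Not at hlt
          exact h4 ⟨mul_neg_of_neg_of_pos h (by linarith), mul_neg_of_neg_of_pos h (by linarith)⟩
      · constructor
        · by_contra hlt
          push Not at hlt
          exact h4 ⟨mul_neg_of_pos_of_neg h (by linarith), mul_neg_of_pos_of_neg h (by linarith)⟩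
        · by_contra hlt
          push Not at hlt
          exact h3 ⟨mul_pos h (by linarith), mul_pos h (by linarith)⟩
    refine ⟨(a.1 + s * (y - a.2), y), (draw_mem_segment hab hs _).mpr ⟨?_, hya.1, hya.2⟩,
      (draw_mem_segment hcd ht _).mpr ⟨?_, hyc.1, hyc.2⟩⟩
    · simp
    · simp only
      linear_combination - hy'

/-! ### The signs of a drawing -/

theorem sY_eq_one {P : NBin → ℝ × ℝ} {u v : NBin} : sY P u v = 1 ↔ (P v).2 < (P u).2 := by
  rw [sY, sg_eq_one, sub_pos]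

theorem sY_eq_zero {P : NBin → ℝ × ℝ} {u v : NBin} : sY P u v = 0 ↔ (P u).2 = (P v).2 := by
  rw [sY, sg_eq_zero, sub_eq_zero]

theorem sX_eq_zero {P : NBin → ℝ × ℝ} {u v : NBin} : sX P u v = 0 ↔ (P u).1 = (P v).1 := by
  rw [sX, sg_eq_zero, sub_eq_zero]

theorem sD_eq_zero {s : ℕ → ℝ} {P : NBin → ℝ × ℝ} {i : ℕ} {u v : NBin} :
    sD s P i u v = 0 ↔ (P u).1 - (P v).1 = s i * ((P u).2 - (P v).2) := by
  rw [sD, sg_eq_zero, sub_eq_zero]

theorem good_of_drawing {k : ℕ} {c : Code} (hc : c.IsDigraph) {s : ℕ → ℝ} {P : NBin → ℝ × ℝ}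
    (hD : Drawing c P)
    (hs : ∀ e ∈ c.2, ∃ i < k, (P e.2).1 - (P e.1).1 = s i * ((P e.2).2 - (P e.1).2)) :
    Good k c (sX P) (sY P) (sD s P) := by
  refine ⟨?_, ?_, ?_, ?_⟩
  · intro u hu v hv hx hy
    exact hD.inj u hu v hv (Prod.ext (sX_eq_zero.mp hx) (sY_eq_zero.mp hy))
  · intro e he
    refine ⟨sY_eq_one.mpr (hD.upward e he), ?_⟩
    obtain ⟨i, hi, h⟩ := hs e he
    exact ⟨i, hi, sD_eq_zero.mpr h⟩
  · rintro e he i hi h0 w hw hw1 hw2 ⟨h1, h2, h3⟩
    refine hD.vertex e he w hw hw1 hw2 ?_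
    rw [draw_mem_segment (hD.upward e he) (sD_eq_zero.mp h0)]
    exact ⟨sD_eq_zero.mp h1, (sY_eq_one.mp h2).le, (sY_eq_one.mp h3).le⟩
  · intro e he f hf hef i hi j hj h0 h0'
    have ue := hD.upward e he
    have uf := hD.upward f hf
    have le := sD_eq_zero.mp h0
    have lf := sD_eq_zero.mp h0'
    by_contra hcon
    simp only [not_or, not_and, ne_eq, not_not] at hcon
    obtain ⟨c1, c2, c3, c4, c5, c6, c7, c8, c9, c10⟩ := hcon
    have hfe : e.1 ≠ f.1 := by
      intro h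
      have h' := sD_eq_zero.mp (c3 h)
      rcases le_total (P f.2).2 (P e.2).2 with hle | hle
      · refine hD.vertex e he f.2 (hc.ends f hf).2 (Ne.symm c1) ?_ ?_
        · intro h2
          exact hef (Prod.ext h h2.symm)
        · rw [draw_mem_segment ue le]
          refine ⟨h', ?_, hle⟩
          rw [h]; exact uf.le
      · refine hD.vertex f hf e.2 (hc.ends e he).2 c2 ?_ ?_
        · intro h2
          exact hef (Prod.ext h h2)
        · have lf' : (P f.2).1 - (P f.1).1 = s i * ((P f.2).2 - (P f.1).2) := by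
            rw [← h]; exact h'
          rw [draw_mem_segment uf lf']
          refine ⟨?_, ?_, hle⟩
          · rw [← h]; exact le
          · rw [← h]; exact ue.le
    have hfe2 : e.2 ≠ f.2 := by
      intro h
      have h' := sD_eq_zero.mp (c4 h)
      rcases le_total (P f.1).2 (P e.1).2 with hle | hle
      · refine hD.vertex f hf e.1 (hc.ends e he).1 hfe c1 ?_
        have lf' : (P f.2).1 - (P f.1).1 = s i * ((P f.2).2 - (P f.1).2) := by
          rw [← h]; linarith
        rw [draw_mem_segment uf lf']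
        refine ⟨?_, hle, ?_⟩
        · linarith
        · rw [← h]; exact ue.le
      · refine hD.vertex e he f.1 (hc.ends f hf).1 (Ne.symm hfe) (Ne.symm c2) ?_
        rw [draw_mem_segment ue le]
        refine ⟨?_, hle, ?_⟩
        · linarith
        · rw [h]; exact uf.le
    obtain ⟨p, hp, hq⟩ := draw_meet ue uf le lf
      (fun h => c5 (sg_eq_one.mpr h.1) (sg_eq_one.mpr h.2))
      (fun h => c6 (sg_eq_neg_one.mpr h.1) (sg_eq_neg_one.mpr h.2))
      (fun h => c7 (sg_eq_one.mpr h.1) (sg_eq_one.mpr h.2))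
      (fun h => c8 (sg_eq_neg_one.mpr h.1) (sg_eq_neg_one.mpr h.2))
      (not_lt.mp fun h => c9 (sY_eq_one.mpr h)) (not_lt.mp fun h => c10 (sY_eq_one.mpr h))
    obtain ⟨w, hw1, hw2, -⟩ := hD.cross e he f hf hef p hp hq
    rcases hw1 with rfl | rfl <;> rcases hw2 with h | h
    · exact hfe h
    · exact c1 h
    · exact c2 h
    · exact hfe2 h

theorem drawing_of_good {k : ℕ} {c : Code} (hc : c.IsDigraph) {s : ℕ → ℝ} {P : NBin → ℝ × ℝ}
    (h : Good k c (sX P) (sY P) (sD s P)) : Drawing c P := by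
  have up : ∀ e ∈ c.2, (P e.1).2 < (P e.2).2 := fun e he => sY_eq_one.mp (h.edge e he).1
  have inj : ∀ u ∈ c.1, ∀ v ∈ c.1, P u = P v → u = v := by
    intro u hu v hv huv
    exact h.inj u hu v hv (sX_eq_zero.mpr (by rw [huv])) (sY_eq_zero.mpr (by rw [huv]))
  refine ⟨inj, ?_, ?_, up⟩
  · intro e he w hw hw1 hw2 hmem
    obtain ⟨-, i, hi, h0⟩ := h.edge e he
    have le := sD_eq_zero.mp h0
    rw [draw_mem_segment (up e he) le] at hmem
    obtain ⟨m1, m2, m3⟩ := hmem
    refine h.vertex e he i hi h0 w hw hw1 hw2 ⟨sD_eq_zero.mpr m1, ?_, ?_⟩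
    · rw [sY_eq_one]
      refine lt_of_le_of_ne m2 fun heq => hw1 (inj w hw e.1 (hc.ends e he).1 (Prod.ext ?_ heq.symm))
      rw [← heq, sub_self, mul_zero] at m1
      linarith
    · rw [sY_eq_one]
      refine lt_of_le_of_ne m3 fun heq => hw2 (inj w hw e.2 (hc.ends e he).2 (Prod.ext ?_ heq))
      rw [heq] at m1
      linarith
  · intro e he f hf hef p hp hq
    obtain ⟨-, i, hi, h0⟩ := h.edge e he
    obtain ⟨-, j, hj, h0'⟩ := h.edge f hf
    have ue := up e he
    have uf := up f hf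
    have le := sD_eq_zero.mp h0
    have lf := sD_eq_zero.mp h0'
    have m := (draw_mem_segment ue le p).mp hp
    have m' := (draw_mem_segment uf lf p).mp hq
    have n1 := draw_no_meet ue uf le lf hp hq
    have n2 := draw_no_meet uf ue lf le hq hp
    rcases h.cross e he f hf hef i hi j hj h0 h0' with c | c | c | c | c | c | c | c | c | c
    · refine ⟨e.1, Or.inl rfl, Or.inr c, ?_⟩
      have hy : p.2 = (P e.1).2 := by
        refine le_antisymm ?_ m.2.1
        rw [c]; exact m'.2.2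
      refine Prod.ext ?_ hy
      have := m.1
      rw [hy, sub_self, mul_zero] at this
      linarith
    · refine ⟨e.2, Or.inr rfl, Or.inl c, ?_⟩
      have hy : p.2 = (P e.2).2 := by
        refine le_antisymm m.2.2 ?_
        rw [c]; exact m'.2.1
      refine Prod.ext ?_ hy
      have := m.1
      rw [hy] at this
      linarith
    · obtain ⟨c1, c2⟩ := c
      refine ⟨e.1, Or.inl rfl, Or.inl c1, ?_⟩
      have m1 := m.1
      have m1' := m'.1
      rw [← c1] at m1' lf
      have hy : p.2 = (P e.1).2 := by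
        by_contra hne
        have hne' : p.2 - (P e.1).2 ≠ 0 := sub_ne_zero.mpr hne
        have hst : s i = s j := mul_right_cancel₀ hne' (by rw [← m1, ← m1'])
        exact c2 (sD_eq_zero.mpr (by rw [hst]; exact lf))
      refine Prod.ext ?_ hy
      rw [hy, sub_self, mul_zero] at m1
      linarith
    · obtain ⟨c1, c2⟩ := c
      refine ⟨e.2, Or.inr rfl, Or.inr c1, ?_⟩
      have m1 := m.1
      have m1' := m'.1
      have m2 : p.1 - (P e.2).1 = s i * (p.2 - (P e.2).2) := by linarith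
      have m2' : p.1 - (P f.2).1 = s j * (p.2 - (P f.2).2) := by linarith
      rw [← c1] at m2' lf
      have hy : p.2 = (P e.2).2 := by
        by_contra hne
        have hne' : p.2 - (P e.2).2 ≠ 0 := sub_ne_zero.mpr hne
        have hst : s i = s j := mul_right_cancel₀ hne' (by rw [← m2, ← m2'])
        refine c2 (sD_eq_zero.mpr ?_)
        rw [hst]; linarith
      refine Prod.ext ?_ hy
      rw [hy, sub_self, mul_zero] at m2
      linarith
    · exact absurd ⟨sg_eq_one.mp c.1, sg_eq_one.mp c.2⟩ n1.1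
    · exact absurd ⟨sg_eq_neg_one.mp c.1, sg_eq_neg_one.mp c.2⟩ n1.2
    · exact absurd ⟨sg_eq_one.mp c.1, sg_eq_one.mp c.2⟩ n2.1
    · exact absurd ⟨sg_eq_neg_one.mp c.1, sg_eq_neg_one.mp c.2⟩ n2.2
    · have := sY_eq_one.mp c
      linarith [m.2.2, m'.2.1]
    · have := sY_eq_one.mp c
      linarith [m.2.1, m'.2.2]

/-- The direction of a vector which is not horizontal. -/
theorem draw_span {v : ℝ × ℝ} {s : ℝ} (h2 : v.2 ≠ 0) (h : v.1 = s * v.2) :
    Submodule.span ℝ {v} = Submodule.span ℝ {((s, 1) : ℝ × ℝ)} := by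
  have hv : v = v.2 • ((s, 1) : ℝ × ℝ) := by
    apply Prod.ext
    · simp [h, mul_comm]
    · simp
  rw [hv]
  simpa using Submodule.span_singleton_smul_eq (IsUnit.mk0 v.2 h2) ((s, 1) : ℝ × ℝ)

theorem draw_span_inj : Function.Injective fun s : ℝ => Submodule.span ℝ {((s, 1) : ℝ × ℝ)} := by
  intro s t hst
  have h : ((s, 1) : ℝ × ℝ) ∈ Submodule.span ℝ {((t, 1) : ℝ × ℝ)} := by
    have := Submodule.mem_span_singleton_self (R := ℝ) ((s, 1) : ℝ × ℝ)
    simp only at hst
    rwa [hst] at this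
  rw [Submodule.mem_span_singleton] at h
  obtain ⟨r, hr⟩ := h
  have h1 := congrArg Prod.fst hr
  have h2 := congrArg Prod.snd hr
  simp only [Prod.smul_mk, smul_eq_mul, mul_one] at h1 h2
  rw [h2, one_mul] at h1
  exact h1.symm

theorem hasDrawing_iff {k : ℕ} {c : Code} (hc : c.IsDigraph) :
    HasDrawing k c ↔ ∃ (s : ℕ → ℝ) (P : NBin → ℝ × ℝ), Good k c (sX P) (sY P) (sD s P) := by
  classical
  constructor
  · rintro ⟨P, hD, hk⟩
    let σ : NBin × NBin → ℝ := fun e => ((P e.2).1 - (P e.1).1) / ((P e.2).2 - (P e.1).2)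
    have hσ : ∀ e ∈ c.2, (P e.2).1 - (P e.1).1 = σ e * ((P e.2).2 - (P e.1).2) := by
      intro e he
      have : (P e.2).2 - (P e.1).2 ≠ 0 := (sub_pos.mpr (hD.upward e he)).ne'
      simp only [σ]
      field_simp
    let T : Finset ℝ := (c.2.map σ).toFinset
    have hsl : slopes c P = (fun s : ℝ => Submodule.span ℝ {((s, 1) : ℝ × ℝ)}) '' (T : Set ℝ) := by
      ext d
      simp only [slopes, Set.mem_setOf_eq, Set.mem_image, Finset.mem_coe, T, List.mem_toFinset,
        List.mem_map]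
      constructor
      · rintro ⟨e, he, rfl⟩
        refine ⟨σ e, ⟨e, he, rfl⟩, ?_⟩
        exact (draw_span (v := P e.2 - P e.1) (sub_pos.mpr (hD.upward e he)).ne' (hσ e he)).symm
      · rintro ⟨_, ⟨e, he, rfl⟩, rfl⟩
        refine ⟨e, he, ?_⟩
        exact (draw_span (v := P e.2 - P e.1) (sub_pos.mpr (hD.upward e he)).ne' (hσ e he)).symm
    have hcard : T.card ≤ k := by
      rw [hsl, Set.ncard_image_of_injective _ draw_span_inj, Set.ncard_coe_finset] at hk
      exact hk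
    refine ⟨fun i => T.toList.getD i 0, P, good_of_drawing hc hD ?_⟩
    intro e he
    have hmem : σ e ∈ T.toList := by
      rw [Finset.mem_toList]
      simp only [T, List.mem_toFinset, List.mem_map]
      exact ⟨e, he, rfl⟩
    obtain ⟨i, hi, hi'⟩ := List.getElem_of_mem hmem
    refine ⟨i, ?_, ?_⟩
    · rw [Finset.length_toList] at hi
      omega
    · rw [List.getD_eq_getElem _ _ hi, hi']
      exact hσ e he
  · rintro ⟨s, P, h⟩
    have hD := drawing_of_good hc h
    refine ⟨P, hD, ?_⟩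
    have hsub : slopes c P ⊆
        (fun i : ℕ => Submodule.span ℝ {((s i, 1) : ℝ × ℝ)}) '' (Finset.range k : Set ℕ) := by
      rintro d ⟨e, he, rfl⟩
      obtain ⟨-, i, hi, h0⟩ := h.edge e he
      refine ⟨i, by simpa using hi, ?_⟩
      exact (draw_span (v := P e.2 - P e.1) (sub_pos.mpr (hD.upward e he)).ne'
        (sD_eq_zero.mp h0)).symm
    calc (slopes c P).ncard ≤ _ := Set.ncard_le_ncard hsub (Set.toFinite _)
      _ ≤ (Finset.range k : Set ℕ).ncard := Set.ncard_image_le (Set.toFinite _)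
      _ = k := by rw [Set.ncard_coe_finset, Finset.card_range]

end Pool.Agent.Lib.UPSlopes
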