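import Pool.Agent.Lib.MP_51356b_lc.Mag

/-!
# Elimination for critical points

If `X x_i^(2E-1) = w_i(x)` with `deg w_i ≤ 2E-2`, then every monomial, multiplied by a power of
`X`, is a combination of the monomials with exponents `≤ 2E-2`, with controlled coefficients in
`ℤ[X]`. Hence every polynomial function of `x` satisfies a controlled polynomial equation.
-/

namespace Pool.Agent.Lib.UPSlopes

open Finset

/-- sum of the absolute values of the coefficients -/
noncomputable def mvl {σ : Type*} (p : MvPolynomial σ ℤ) : ℕ := Mag.int.mval p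

theorem l1_eq (p : Polynomial ℤ) : l1 p = Mag.int.pval p := rfl

theorem l11_eq (p : Polynomial (Polynomial ℤ)) : l11 p = Mag.int.poly.pval p := rfl

theorem aeval_eq_sum {K : ℕ} (x : Fin K → ℝ) (p : MvPolynomial (Fin K) ℤ) :
    MvPolynomial.aeval x p = ∑ m ∈ p.support, ((MvPolynomial.coeff m p : ℤ) : ℝ) * ∏ i, x i ^ m i := by
  rw [MvPolynomial.aeval_def, MvPolynomial.eval₂_eq']
  rfl

theorem reduce_mono {K E Λ : ℕ} (hE : 1 ≤ E) (hΛ : 1 ≤ Λ)
    (w : Fin K → MvPolynomial (Fin K) ℤ) (hdeg : ∀ i, (w i).totalDegree ≤ 2 * E - 2)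
    (hl : ∀ i, mvl (w i) ≤ Λ) (d : ℕ) : ∀ α : Fin K → ℕ, ∑ i, α i ≤ d →
    ∃ c : (Fin K → Fin (2 * E - 1)) → Polynomial ℤ, (∀ b, (c b).natDegree ≤ d) ∧
      ∑ b, l1 (c b) ≤ Λ ^ d ∧ ∀ (X : ℝ) (x : Fin K → ℝ),
        (∀ i, X * x i ^ (2 * E - 1) = MvPolynomial.aeval x (w i)) →
        X ^ d * ∏ i, x i ^ α i =
          ∑ b, Polynomial.aeval X (c b) * ∏ i, x i ^ ((b i : Fin (2 * E - 1)) : ℕ) := by
  classical
  induction d with
  | zero =>
    intro α hα
    have h0 : ∀ i, α i = 0 := by
      intro i
      have := Finset.single_le_sum (f := α) (fun j _ => Nat.zero_le (α j)) (Finset.mem_univ i)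
      omega
    refine ⟨Pi.single (fun _ => ⟨0, by omega⟩) 1, ?_, ?_, ?_⟩
    · intro b
      rw [Pi.single_apply]
      split_ifs <;> simp
    · rw [Finset.sum_eq_single (fun _ => ⟨0, by omega⟩)]
      · rw [Pi.single_eq_same, l1_eq, ← Polynomial.C_1, Mag.pval_C, pow_zero]
        exact le_rfl
      · intro b _ hb
        rw [Pi.single_eq_of_ne hb, l1_eq]
        simp [Mag.pval]
      · intro h; exact absurd (Finset.mem_univ _) h
    · intro X x _
      rw [Finset.sum_eq_single (fun _ => ⟨0, by omega⟩)]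
      · rw [Pi.single_eq_same]
        simp [h0]
      · intro b _ hb
        rw [Pi.single_eq_of_ne hb]
        simp
      · intro h; exact absurd (Finset.mem_univ _) h
  | succ d ih =>
    intro α hα
    by_cases hbox : ∀ i, α i < 2 * E - 1
    · refine ⟨Pi.single (fun i => ⟨α i, hbox i⟩) (Polynomial.X ^ (d + 1)), ?_, ?_, ?_⟩
      · intro b
        rw [Pi.single_apply]
        split_ifs
        · exact Polynomial.natDegree_X_pow_le _
        · simp
      · rw [Finset.sum_eq_single (fun i => ⟨α i, hbox i⟩)]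
        · rw [Pi.single_eq_same, l1_eq]
          exact (Mag.pval_X_pow_le _ _).trans (Nat.one_le_pow _ _ hΛ)
        · intro b _ hb
          rw [Pi.single_eq_of_ne hb, l1_eq]
          simp [Mag.pval]
        · intro h; exact absurd (Finset.mem_univ _) h
      · intro X x _
        rw [Finset.sum_eq_single (fun i => ⟨α i, hbox i⟩)]
        · rw [Pi.single_eq_same]
          simp
        · intro b _ hb
          rw [Pi.single_eq_of_ne hb]
          simp
        · intro h; exact absurd (Finset.mem_univ _) h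
    · push Not at hbox
      obtain ⟨i, hi⟩ := hbox
      -- the exponents after one reduction
      set β : (Fin K →₀ ℕ) → Fin K → ℕ := fun m j =>
        (if j = i then α j - (2 * E - 1) else α j) + m j with hβ
      have hβsum : ∀ m ∈ (w i).support, ∑ j, β m j ≤ d := by
        intro m hm
        have h1 : ∑ j, m j ≤ 2 * E - 2 := by
          have h2 := MvPolynomial.le_totalDegree hm
          rw [Finsupp.sum_fintype _ _ (fun _ => rfl)] at h2
          exact h2.trans (hdeg i)
        have h2 : ∑ j, (if j = i then α j - (2 * E - 1) else α j) + (2 * E - 1) = ∑ j, α j := by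
          rw [← Finset.add_sum_erase Finset.univ
              (fun j => if j = i then α j - (2 * E - 1) else α j) (Finset.mem_univ i),
            ← Finset.add_sum_erase Finset.univ α (Finset.mem_univ i)]
          have h3 : ∑ j ∈ Finset.univ.erase i, (if j = i then α j - (2 * E - 1) else α j) =
              ∑ j ∈ Finset.univ.erase i, α j := by
            refine Finset.sum_congr rfl (fun j hj => ?_)
            rw [if_neg (Finset.ne_of_mem_erase hj)]
          rw [h3, if_pos rfl]
          omega
        simp only [hβ]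
        rw [Finset.sum_add_distrib]
        omega
      choose! c hc1 hc2 hc3 using fun m (hm : m ∈ (w i).support) => ih (β m) (hβsum m hm)
      refine ⟨fun b => ∑ m ∈ (w i).support, Polynomial.C ((w i).coeff m) * c m b, ?_, ?_, ?_⟩
      · intro b
        refine Polynomial.natDegree_sum_le_of_forall_le _ _ (fun m hm => ?_)
        refine (Polynomial.natDegree_C_mul_le _ _).trans ?_
        exact (hc1 m hm b).trans (Nat.le_succ d)
      · have h1 : ∀ b, l1 (∑ m ∈ (w i).support, Polynomial.C ((w i).coeff m) * c m b) ≤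
            ∑ m ∈ (w i).support, ((w i).coeff m).natAbs * l1 (c m b) := by
          intro b
          refine (Mag.int.pval_sum _ _).trans (Finset.sum_le_sum (fun m _ => ?_))
          refine (Mag.int.pval_mul _ _).trans ?_
          rw [Mag.pval_C]
          exact le_rfl
        refine (Finset.sum_le_sum (fun b _ => h1 b)).trans ?_
        rw [Finset.sum_comm]
        calc ∑ m ∈ (w i).support, ∑ b, ((w i).coeff m).natAbs * l1 (c m b)
            = ∑ m ∈ (w i).support, ((w i).coeff m).natAbs * ∑ b, l1 (c m b) := by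
              refine Finset.sum_congr rfl (fun m _ => ?_)
              rw [Finset.mul_sum]
          _ ≤ ∑ m ∈ (w i).support, ((w i).coeff m).natAbs * Λ ^ d :=
              Finset.sum_le_sum (fun m hm => Nat.mul_le_mul_left _ (hc2 m hm))
          _ = mvl (w i) * Λ ^ d := by rw [← Finset.sum_mul]; rfl
          _ ≤ Λ * Λ ^ d := Nat.mul_le_mul_right _ (hl i)
          _ = Λ ^ (d + 1) := by rw [pow_succ]; ring
      · intro X x hx
        have h1 : X ^ (d + 1) * ∏ j, x j ^ α j =
            X ^ d * ((∏ j, x j ^ (if j = i then α j - (2 * E - 1) else α j)) *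
              (X * x i ^ (2 * E - 1))) := by
          rw [← Finset.mul_prod_erase Finset.univ (fun j => x j ^ α j) (Finset.mem_univ i),
            ← Finset.mul_prod_erase Finset.univ
              (fun j => x j ^ (if j = i then α j - (2 * E - 1) else α j)) (Finset.mem_univ i)]
          have h3 : ∏ j ∈ Finset.univ.erase i, x j ^ (if j = i then α j - (2 * E - 1) else α j) =
              ∏ j ∈ Finset.univ.erase i, x j ^ α j := by
            refine Finset.prod_congr rfl (fun j hj => ?_)
            rw [if_neg (Finset.ne_of_mem_erase hj)]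
          rw [h3, if_pos rfl]
          have h4 : x i ^ α i = x i ^ (α i - (2 * E - 1)) * x i ^ (2 * E - 1) := by
            rw [← pow_add]; congr 1; omega
          rw [h4]
          ring
        rw [h1, hx i, aeval_eq_sum, Finset.mul_sum, Finset.mul_sum]
        have h5 : ∀ b : Fin K → Fin (2 * E - 1),
            Polynomial.aeval X (∑ m ∈ (w i).support, Polynomial.C ((w i).coeff m) * c m b) *
              ∏ j, x j ^ (b j : ℕ) =
            ∑ m ∈ (w i).support, ((MvPolynomial.coeff m (w i) : ℤ) : ℝ) * (Polynomial.aeval X (c m b) *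
              ∏ j, x j ^ (b j : ℕ)) := by
          intro b
          rw [map_sum, Finset.sum_mul]
          refine Finset.sum_congr rfl (fun m _ => ?_)
          rw [map_mul, Polynomial.aeval_C]
          simp only [algebraMap_int_eq, eq_intCast]
          ring
        rw [Finset.sum_congr rfl (fun b _ => h5 b), Finset.sum_comm]
        refine Finset.sum_congr rfl (fun m hm => ?_)
        rw [← Finset.mul_sum, ← hc3 m hm X x hx]
        simp only [hβ, pow_add, Finset.prod_mul_distrib]
        ring

theorem reduce_poly {K E Λ : ℕ} (hE : 1 ≤ E) (hΛ : 1 ≤ Λ)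
    (w : Fin K → MvPolynomial (Fin K) ℤ) (hdeg : ∀ i, (w i).totalDegree ≤ 2 * E - 2)
    (hl : ∀ i, mvl (w i) ≤ Λ) (d : ℕ) (g : MvPolynomial (Fin K) ℤ) (hg : g.totalDegree ≤ d) :
    ∃ c : (Fin K → Fin (2 * E - 1)) → Polynomial ℤ, (∀ b, (c b).natDegree ≤ d) ∧
      ∑ b, l1 (c b) ≤ mvl g * Λ ^ d ∧ ∀ (X : ℝ) (x : Fin K → ℝ),
        (∀ i, X * x i ^ (2 * E - 1) = MvPolynomial.aeval x (w i)) →
        X ^ d * MvPolynomial.aeval x g =
          ∑ b, Polynomial.aeval X (c b) * ∏ i, x i ^ ((b i : Fin (2 * E - 1)) : ℕ) := by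
  classical
  have hsum : ∀ m ∈ g.support, ∑ j, m j ≤ d := by
    intro m hm
    have h2 := MvPolynomial.le_totalDegree hm
    rw [Finsupp.sum_fintype _ _ (fun _ => rfl)] at h2
    exact h2.trans hg
  choose! c hc1 hc2 hc3 using fun m (hm : m ∈ g.support) =>
    reduce_mono hE hΛ w hdeg hl d m (hsum m hm)
  refine ⟨fun b => ∑ m ∈ g.support, Polynomial.C (g.coeff m) * c m b, ?_, ?_, ?_⟩
  · intro b
    refine Polynomial.natDegree_sum_le_of_forall_le _ _ (fun m hm => ?_)
    exact (Polynomial.natDegree_C_mul_le _ _).trans (hc1 m hm b)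
  · have h1 : ∀ b, l1 (∑ m ∈ g.support, Polynomial.C (g.coeff m) * c m b) ≤
        ∑ m ∈ g.support, (g.coeff m).natAbs * l1 (c m b) := by
      intro b
      refine (Mag.int.pval_sum _ _).trans (Finset.sum_le_sum (fun m _ => ?_))
      refine (Mag.int.pval_mul _ _).trans ?_
      rw [Mag.pval_C]
      exact le_rfl
    refine (Finset.sum_le_sum (fun b _ => h1 b)).trans ?_
    rw [Finset.sum_comm]
    calc ∑ m ∈ g.support, ∑ b, (g.coeff m).natAbs * l1 (c m b)
        = ∑ m ∈ g.support, (g.coeff m).natAbs * ∑ b, l1 (c m b) := by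
          refine Finset.sum_congr rfl (fun m _ => ?_)
          rw [Finset.mul_sum]
      _ ≤ ∑ m ∈ g.support, (g.coeff m).natAbs * Λ ^ d :=
          Finset.sum_le_sum (fun m hm => Nat.mul_le_mul_left _ (hc2 m hm))
      _ = mvl g * Λ ^ d := by rw [← Finset.sum_mul]; rfl
  · intro X x hx
    rw [aeval_eq_sum, Finset.mul_sum]
    have h5 : ∀ b : Fin K → Fin (2 * E - 1),
        Polynomial.aeval X (∑ m ∈ g.support, Polynomial.C (g.coeff m) * c m b) *
          ∏ j, x j ^ (b j : ℕ) =
        ∑ m ∈ g.support, ((MvPolynomial.coeff m g : ℤ) : ℝ) * (Polynomial.aeval X (c m b) *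
          ∏ j, x j ^ (b j : ℕ)) := by
      intro b
      rw [map_sum, Finset.sum_mul]
      refine Finset.sum_congr rfl (fun m _ => ?_)
      rw [map_mul, Polynomial.aeval_C]
      simp only [algebraMap_int_eq, eq_intCast]
      ring
    rw [Finset.sum_congr rfl (fun b _ => h5 b), Finset.sum_comm]
    refine Finset.sum_congr rfl (fun m hm => ?_)
    rw [← Finset.mul_sum, ← hc3 m hm X x hx]
    ring

/-! ### degrees in the inner variable -/

/-- All coefficients have degree at most `n`. -/
def InDeg (n : ℕ) (p : Polynomial (Polynomial ℤ)) : Prop := ∀ i, (p.coeff i).natDegree ≤ n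

theorem InDeg.mul {n m : ℕ} {p q : Polynomial (Polynomial ℤ)} (hp : InDeg n p) (hq : InDeg m q) :
    InDeg (n + m) (p * q) := by
  intro i
  rw [Polynomial.coeff_mul]
  refine Polynomial.natDegree_sum_le_of_forall_le _ _ (fun a _ => ?_)
  exact Polynomial.natDegree_mul_le.trans (Nat.add_le_add (hp _) (hq _))

theorem InDeg.prod {ι : Type*} {n : ℕ} (s : Finset ι) (f : ι → Polynomial (Polynomial ℤ))
    (h : ∀ i ∈ s, InDeg n (f i)) : InDeg (s.card * n) (∏ i ∈ s, f i) := by
  classical
  induction s using Finset.induction_on with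
  | empty =>
    intro i
    rw [Finset.prod_empty, Polynomial.coeff_one]
    split_ifs <;> simp
  | insert a s ha ih =>
    rw [Finset.prod_insert ha, Finset.card_insert_of_notMem ha, add_mul, one_mul, add_comm]
    exact (h a (Finset.mem_insert_self _ _)).mul
      (ih (fun i hi => h i (Finset.mem_insert_of_mem hi)))

theorem InDeg.neg {n : ℕ} {p : Polynomial (Polynomial ℤ)} (hp : InDeg n p) : InDeg n (-p) := by
  intro i
  rw [Polynomial.coeff_neg, Polynomial.natDegree_neg]
  exact hp i

theorem InDeg.sub {n : ℕ} {p q : Polynomial (Polynomial ℤ)} (hp : InDeg n p) (hq : InDeg n q) :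
    InDeg n (p - q) := by
  intro i
  rw [Polynomial.coeff_sub]
  exact (Polynomial.natDegree_sub_le _ _).trans (max_le (hp i) (hq i))

theorem InDeg.det {n : Type*} [Fintype n] [DecidableEq n]
    (A : Matrix n n (Polynomial (Polynomial ℤ))) (h : ∀ i j, InDeg 1 (A i j)) :
    InDeg (Fintype.card n) A.det := by
  intro i
  rw [Matrix.det_apply, Polynomial.finsetSum_coeff]
  refine Polynomial.natDegree_sum_le_of_forall_le _ _ (fun σ _ => ?_)
  have h1 : InDeg (Fintype.card n) (∏ j, A (σ j) j) := by
    have := InDeg.prod Finset.univ (fun j => A (σ j) j) (n := 1) (fun j _ => h _ _)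
    rwa [Finset.card_univ, mul_one] at this
  rcases Int.units_eq_one_or (Equiv.Perm.sign σ) with h2 | h2
  · rw [h2, one_smul]; exact h1 i
  · rw [h2, Units.neg_smul, one_smul]; exact h1.neg i

/-! ### the elimination theorem -/

/-- `ev` as a ring homomorphism -/
noncomputable def evHom (X w : ℝ) : Polynomial (Polynomial ℤ) →+* ℝ :=
  Polynomial.eval₂RingHom (Polynomial.aeval w : Polynomial ℤ →ₐ[ℤ] ℝ).toRingHom X

theorem evHom_apply (X w : ℝ) (p : Polynomial (Polynomial ℤ)) : evHom X w p = ev p X w := rfl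

theorem totalDegree_pderiv_le {K : ℕ} (Φ : MvPolynomial (Fin K) ℤ) (i : Fin K) {n : ℕ}
    (h : Φ.totalDegree ≤ n + 1) : (MvPolynomial.pderiv i Φ).totalDegree ≤ n := by
  classical
  unfold MvPolynomial.totalDegree
  refine Finset.sup_le (fun m hm => ?_)
  rw [MvPolynomial.mem_support_iff, MvPolynomial.coeff_pderiv] at hm
  have h1 : m + Finsupp.single i 1 ∈ Φ.support := by
    rw [MvPolynomial.mem_support_iff]
    intro h0
    rw [h0, zero_mul] at hm
    exact hm rfl
  have h2 := (MvPolynomial.le_totalDegree h1).trans h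
  rw [Finsupp.sum_add_index' (fun _ => rfl) (fun _ _ _ => rfl), Finsupp.sum_single_index rfl] at h2
  omega

theorem ev_map_C (X w : ℝ) (p : Polynomial ℤ) :
    ev (p.map Polynomial.C) X w = Polynomial.aeval X p := by
  unfold ev
  rw [Polynomial.eval₂_map, Polynomial.aeval_def]
  congr 1
  ext
  simp

theorem ev_C_X_mul (X w : ℝ) (n : ℕ) :
    ev (Polynomial.C Polynomial.X * Polynomial.X ^ n) X w = w * X ^ n := by
  unfold ev
  rw [Polynomial.eval₂_mul, Polynomial.eval₂_C, Polynomial.eval₂_X_pow]
  simp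

theorem elim {K E Λ : ℕ} (hE : 1 ≤ E) (hΛ : 1 ≤ Λ) (Φ : MvPolynomial (Fin K) ℤ)
    (hdeg : Φ.totalDegree ≤ 2 * E - 1) (hl : mvl Φ ≤ Λ)
    (hdl : ∀ i, mvl (MvPolynomial.pderiv i Φ) ≤ Λ) :
    ∃ ψ : Polynomial (Polynomial ℤ), ψ ≠ 0 ∧
      (∀ i, (ψ.coeff i).natDegree ≤ (2 * E - 1) ^ K) ∧
      l11 ψ ≤ (1 + (2 * E + K) * Λ ^ ((2 * E + K * (2 * E - 2)) + 1)) ^ ((2 * E - 1) ^ K) ∧
      ∀ (u : ℝ) (x : Fin K → ℝ), 0 < u →
        (∀ i, u * MvPolynomial.aeval x (MvPolynomial.pderiv i Φ) +
          2 * E * x i ^ (2 * E - 1) = 0) →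
        ev ψ (2 * E / u) (u * MvPolynomial.aeval x Φ + nrm E x) = 0 := by
  classical
  set d : ℕ := 2 * E + K * (2 * E - 2) with hd
  set w : Fin K → MvPolynomial (Fin K) ℤ := fun i => -MvPolynomial.pderiv i Φ with hw
  have hwdeg : ∀ i, (w i).totalDegree ≤ 2 * E - 2 := by
    intro i
    rw [hw]
    simp only
    rw [MvPolynomial.totalDegree_neg]
    exact totalDegree_pderiv_le Φ i (hdeg.trans (by omega))
  have hwl : ∀ i, mvl (w i) ≤ Λ := by
    intro i
    exact ((Mag.int.mv (Fin K)).neg _).le.trans (hdl i)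
  -- the monomials
  set mon : (Fin K → Fin (2 * E - 1)) → MvPolynomial (Fin K) ℤ := fun b =>
    MvPolynomial.monomial (Finsupp.equivFunOnFinite.symm (fun i => (b i : ℕ))) 1 with hmon
  have hmondeg : ∀ b, (mon b).totalDegree ≤ K * (2 * E - 2) := by
    intro b
    refine (MvPolynomial.totalDegree_monomial_le _ _).trans ?_
    rw [Finsupp.sum_fintype _ _ (fun _ => rfl)]
    refine (Finset.sum_le_card_nsmul _ _ (2 * E - 2) (fun i _ => ?_)).trans (by simp)
    have := (b i).isLt
    show (b i : ℕ) ≤ 2 * E - 2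
    omega
  have hmonl : ∀ b, mvl (mon b) ≤ 1 := fun b => Mag.int.mval_monomial_le _ _
  have hmonev : ∀ (x : Fin K → ℝ) b, MvPolynomial.aeval x (mon b) = ∏ i, x i ^ (b i : ℕ) := by
    intro x b
    rw [hmon]
    simp only
    rw [MvPolynomial.aeval_monomial, Finsupp.prod_fintype _ _ (fun _ => pow_zero _)]
    simp
  -- the norm
  set N : MvPolynomial (Fin K) ℤ := ∑ i, MvPolynomial.X i ^ (2 * E) with hN
  have hNdeg : N.totalDegree ≤ 2 * E := by
    refine MvPolynomial.totalDegree_finsetSum_le (fun i _ => ?_)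
    rw [MvPolynomial.totalDegree_X_pow]
  have hNl : mvl N ≤ K := by
    refine (Mag.int.mval_sum _ _).trans ?_
    refine (Finset.sum_le_card_nsmul _ _ 1 (fun i _ => ?_)).trans (by simp)
    rw [MvPolynomial.X_pow_eq_monomial]
    exact Mag.int.mval_monomial_le _ _
  have hNev : ∀ x : Fin K → ℝ, MvPolynomial.aeval x N = nrm E x := by
    intro x
    rw [hN, map_sum]
    simp [nrm]
  -- the two families of coefficients
  have hr1 : ∀ b, (Φ * mon b).totalDegree ≤ d := by
    intro b
    refine (MvPolynomial.totalDegree_mul _ _).trans ?_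
    have := hmondeg b
    omega
  have hr2 : ∀ b, (N * mon b).totalDegree ≤ d := by
    intro b
    refine (MvPolynomial.totalDegree_mul _ _).trans ?_
    have := hmondeg b
    omega
  choose c1 hc11 hc12 hc13 using fun b => reduce_poly hE hΛ w hwdeg hwl d (Φ * mon b) (hr1 b)
  choose c2 hc21 hc22 hc23 using fun b => reduce_poly hE hΛ w hwdeg hwl d (N * mon b) (hr2 b)
  have hm1 : ∀ b, mvl (Φ * mon b) ≤ Λ := by
    intro b
    refine (Mag.int.mval_mul _ _).trans ?_
    calc mvl Φ * mvl (mon b) ≤ Λ * 1 := Nat.mul_le_mul hl (hmonl b)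
      _ = Λ := mul_one _
  have hm2 : ∀ b, mvl (N * mon b) ≤ K := by
    intro b
    refine (Mag.int.mval_mul _ _).trans ?_
    calc mvl N * mvl (mon b) ≤ K * 1 := Nat.mul_le_mul hNl (hmonl b)
      _ = K := mul_one _
  set M : Matrix (Fin K → Fin (2 * E - 1)) (Fin K → Fin (2 * E - 1)) (Polynomial ℤ) :=
    fun b b' => Polynomial.C (2 * E : ℤ) * c1 b b' + Polynomial.X * c2 b b' with hM
  have hMrow : ∀ b, ∑ b', l1 (M b b') ≤ (2 * E + K) * Λ ^ (d + 1) := by
    intro b
    have h1 : ∀ b', l1 (M b b') ≤ 2 * E * l1 (c1 b b') + l1 (c2 b b') := by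
      intro b'
      refine (Mag.int.pval_add _ _).trans (Nat.add_le_add ?_ ?_)
      · refine (Mag.int.pval_mul _ _).trans ?_
        rw [Mag.pval_C]
        exact le_rfl
      · refine (Mag.int.pval_mul _ _).trans ?_
        have h2 : Mag.int.pval (Polynomial.X : Polynomial ℤ) ≤ 1 := by
          have := Mag.int.pval_X_pow_le 1
          rwa [pow_one] at this
        calc Mag.int.pval (Polynomial.X : Polynomial ℤ) * Mag.int.pval (c2 b b')
            ≤ 1 * Mag.int.pval (c2 b b') := Nat.mul_le_mul_right _ h2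
          _ = l1 (c2 b b') := one_mul _
    refine (Finset.sum_le_sum (fun b' _ => h1 b')).trans ?_
    rw [Finset.sum_add_distrib, ← Finset.mul_sum]
    have h3 : ∑ b', l1 (c1 b b') ≤ Λ ^ (d + 1) := by
      refine (hc12 b).trans ?_
      rw [pow_succ, mul_comm]
      exact Nat.mul_le_mul_left _ (hm1 b)
    have h4 : ∑ b', l1 (c2 b b') ≤ K * Λ ^ (d + 1) := by
      refine (hc22 b).trans ?_
      exact Nat.mul_le_mul (hm2 b) (Nat.pow_le_pow_right hΛ (Nat.le_succ d))
    calc 2 * E * ∑ b', l1 (c1 b b') + ∑ b', l1 (c2 b b')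
        ≤ 2 * E * Λ ^ (d + 1) + K * Λ ^ (d + 1) := Nat.add_le_add (Nat.mul_le_mul_left _ h3) h4
      _ = (2 * E + K) * Λ ^ (d + 1) := by ring
  set A : Matrix (Fin K → Fin (2 * E - 1)) (Fin K → Fin (2 * E - 1)) (Polynomial (Polynomial ℤ)) :=
    fun b b' => (if b = b' then Polynomial.C Polynomial.X * Polynomial.X ^ (d + 1) else 0) -
      (M b b').map Polynomial.C with hA
  have hcard : Fintype.card (Fin K → Fin (2 * E - 1)) = (2 * E - 1) ^ K := by simp
  refine ⟨A.det, ?_, ?_, ?_, ?_⟩
  · -- nonzero
    intro h0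
    have h1 : (Polynomial.evalRingHom (1 : Polynomial ℤ)) A.det =
        (Matrix.charpoly (fun b b' => (M b b').eval 1 : Matrix _ _ ℤ)) := by
      rw [RingHom.map_det, Matrix.charpoly]
      congr 1
      ext b b' : 1
      simp only [RingHom.mapMatrix_apply, Matrix.map_apply, hA, Polynomial.coe_evalRingHom,
        Polynomial.eval_sub]
      rw [Matrix.charmatrix_apply, Matrix.diagonal_apply]
      have h2 : Polynomial.eval (1 : Polynomial ℤ) ((M b b').map Polynomial.C) =
          Polynomial.C ((M b b').eval 1) := by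
        rw [Polynomial.eval_map, Polynomial.eval₂_at_one]
      rw [h2]
      congr 1
      split_ifs <;> simp
    rw [h0, map_zero] at h1
    exact (Matrix.charpoly_monic _).ne_zero h1.symm
  · -- degrees
    rw [← hcard]
    refine InDeg.det A (fun b b' => ?_)
    refine InDeg.sub ?_ ?_
    · split_ifs
      · intro i
        rw [Polynomial.coeff_C_mul, Polynomial.coeff_X_pow]
        split_ifs <;> simp
      · intro i; simp
    · intro i
      rw [Polynomial.coeff_map]
      simp
  · -- magnitudes
    refine (Mag.int.poly.poly.det_le A).trans ?_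
    rw [← hcard, ← Finset.card_univ]
    refine Finset.prod_le_pow_card _ _ _ (fun b _ => ?_)
    have h1 : ∀ b', Mag.int.poly.poly.val (A b b') ≤ (if b = b' then 1 else 0) + l1 (M b b') := by
      intro b'
      refine (Mag.int.poly.poly.sub_le _ _).trans (Nat.add_le_add ?_ ?_)
      · split_ifs
        · refine (Mag.int.poly.poly.mul _ _).trans ?_
          have h2 : Mag.int.poly.poly.val (Polynomial.C (Polynomial.X : Polynomial ℤ)) ≤ 1 := by
            show Mag.int.poly.pval (Polynomial.C (Polynomial.X : Polynomial ℤ)) ≤ 1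
            rw [Mag.pval_C]
            have := Mag.int.pval_X_pow_le 1
            rwa [pow_one] at this
          calc _ ≤ 1 * 1 := Nat.mul_le_mul h2 (Mag.int.poly.pval_X_pow_le (d + 1))
            _ = 1 := rfl
        · exact Mag.int.poly.poly.zero.le
      · show Mag.int.poly.pval ((M b b').map Polynomial.C) ≤ Mag.int.pval (M b b')
        rw [Mag.int.poly.pval_eq (Polynomial.support_map_subset _ _)]
        refine Finset.sum_le_sum (fun i _ => ?_)
        rw [Polynomial.coeff_map]
        show Mag.int.pval _ ≤ _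
        rw [Mag.pval_C]
    refine (Finset.sum_le_sum (fun b' _ => h1 b')).trans ?_
    rw [Finset.sum_add_distrib, Finset.sum_ite_eq]
    rw [if_pos (Finset.mem_univ _)]
    exact Nat.add_le_add_left (hMrow b) 1
  · intro u x hu hx
    set X : ℝ := 2 * E / u with hX
    set ω : ℝ := u * MvPolynomial.aeval x Φ + nrm E x with hω
    have hXu : X * u = 2 * E := by rw [hX]; field_simp
    have hw' : ∀ i, X * x i ^ (2 * E - 1) = MvPolynomial.aeval x (w i) := by
      intro i
      have h1 := hx i
      have h2 : MvPolynomial.aeval x (w i) = -MvPolynomial.aeval x (MvPolynomial.pderiv i Φ) := by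
        rw [hw]; simp
      rw [h2, hX]
      field_simp
      linarith
    have hkey : ∀ b, X ^ (d + 1) * ω * ∏ i, x i ^ (b i : ℕ) =
        ∑ b', Polynomial.aeval X (M b b') * ∏ i, x i ^ ((b' i : Fin (2 * E - 1)) : ℕ) := by
      intro b
      have h1 := hc13 b X x hw'
      have h2 := hc23 b X x hw'
      rw [map_mul, hmonev] at h1 h2
      rw [hNev] at h2
      have h3 : ∀ b', Polynomial.aeval X (M b b') * ∏ i, x i ^ ((b' i : Fin (2 * E - 1)) : ℕ) =
          2 * E * (Polynomial.aeval X (c1 b b') * ∏ i, x i ^ ((b' i : Fin (2 * E - 1)) : ℕ)) +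
          X * (Polynomial.aeval X (c2 b b') * ∏ i, x i ^ ((b' i : Fin (2 * E - 1)) : ℕ)) := by
        intro b'
        rw [hM]
        simp only [map_add, map_mul, Polynomial.aeval_X, Polynomial.aeval_C]
        simp
        ring
      rw [Finset.sum_congr rfl (fun b' _ => h3 b'), Finset.sum_add_distrib, ← Finset.mul_sum,
        ← Finset.mul_sum, ← h1, ← h2, hω]
      have h4 : X ^ (d + 1) * (u * MvPolynomial.aeval x Φ + nrm E x) =
          2 * E * (X ^ d * MvPolynomial.aeval x Φ) + X * (X ^ d * nrm E x) := by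
        rw [← hXu, pow_succ]; ring
      rw [h4]
      ring
    have hdet : ev A.det X ω = (Matrix.det (fun b b' => ev (A b b') X ω)) := by
      rw [← evHom_apply, RingHom.map_det]
      rfl
    rw [hdet, ← Matrix.exists_mulVec_eq_zero_iff]
    refine ⟨fun b => ∏ i, x i ^ (b i : ℕ), ?_, ?_⟩
    · intro h0
      have h1 := congrFun h0 (fun _ => ⟨0, by omega⟩)
      simp at h1
    · funext b
      have h1 : ∀ b', ev (A b b') X ω = (if b = b' then ω * X ^ (d + 1) else 0) -
          Polynomial.aeval X (M b b') := by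
        intro b'
        rw [← evHom_apply, hA]
        simp only
        rw [map_sub]
        congr 1
        · split_ifs
          · exact ev_C_X_mul _ _ _
          · exact map_zero _
        · exact ev_map_C _ _ _
      simp only [Matrix.mulVec, dotProduct, h1, sub_mul, Finset.sum_sub_distrib, ite_mul, zero_mul,
        Finset.sum_ite_eq, Finset.mem_univ, if_true, Pi.zero_apply]
      rw [← hkey b]
      ring

end Pool.Agent.Lib.UPSlopes
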