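import Pool.Agent.Lib.MP_51356b_lc.Elim

/-!
# Gap theorem for systems of polynomial equations and strict inequalities
-/

namespace Pool.Agent.Lib.UPSlopes

open Finset MvPolynomial

theorem mvl_pderiv_le {K : ℕ} (p : MvPolynomial (Fin K) ℤ) (i : Fin K) :
    mvl (pderiv i p) ≤ p.totalDegree * mvl p := by
  classical
  have h1 : ∀ m ∈ (pderiv i p).support, m + Finsupp.single i 1 ∈ p.support := by
    intro m hm
    rw [mem_support_iff, coeff_pderiv] at hm
    rw [mem_support_iff]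
    intro h0
    rw [h0, zero_mul] at hm
    exact hm rfl
  have h2 : ∀ m ∈ (pderiv i p).support, (coeff m (pderiv i p)).natAbs ≤
      p.totalDegree * (coeff (m + Finsupp.single i 1) p).natAbs := by
    intro m hm
    have h3 := le_totalDegree (h1 m hm)
    rw [Finsupp.sum_add_index' (fun _ => rfl) (fun _ _ _ => rfl),
      Finsupp.sum_single_index rfl] at h3
    have h4 : m i ≤ m.sum fun _ e => e := by
      by_cases hi : i ∈ m.support
      · exact Finset.single_le_sum (f := fun j => m j) (fun _ _ => Nat.zero_le _) hi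
      · rw [Finsupp.notMem_support_iff.mp hi]; exact Nat.zero_le _
    rw [coeff_pderiv, Int.natAbs_mul, mul_comm]
    refine Nat.mul_le_mul_right _ ?_
    have h5 : ((m i : ℤ) + 1).natAbs = m i + 1 := by omega
    rw [h5]
    omega
  calc mvl (pderiv i p) = ∑ m ∈ (pderiv i p).support, (coeff m (pderiv i p)).natAbs := rfl
    _ ≤ ∑ m ∈ (pderiv i p).support,
        p.totalDegree * (coeff (m + Finsupp.single i 1) p).natAbs := Finset.sum_le_sum h2
    _ = p.totalDegree * ∑ m ∈ (pderiv i p).support,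
        (coeff (m + Finsupp.single i 1) p).natAbs := by rw [Finset.mul_sum]
    _ = p.totalDegree * ∑ m ∈ (pderiv i p).support.map (addRightEmbedding (Finsupp.single i 1)),
        (coeff m p).natAbs := by rw [Finset.sum_map]; rfl
    _ ≤ p.totalDegree * mvl p := by
      refine Nat.mul_le_mul_left _ (Finset.sum_le_sum_of_subset ?_)
      intro m hm
      rw [Finset.mem_map] at hm
      obtain ⟨m', hm', rfl⟩ := hm
      exact h1 m' hm'

theorem hasDerivAt_aeval {K : ℕ} (p : MvPolynomial (Fin K) ℤ) (x : Fin K → ℝ) (i : Fin K) :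
    HasDerivAt (fun t : ℝ => aeval (Function.update x i t) p) (aeval x (pderiv i p)) (x i) := by
  induction p using MvPolynomial.induction_on with
  | C a => simpa using hasDerivAt_const (x i) ((a : ℤ) : ℝ)
  | add p q hp hq =>
    rw [map_add, map_add]
    refine (hp.add hq).congr_of_eventuallyEq (Filter.Eventually.of_forall (fun t => ?_))
    simp
  | mul_X p j hp =>
    have h1 : HasDerivAt (fun t : ℝ => Function.update x i t j) (if j = i then 1 else 0) (x i) := by
      by_cases hj : j = i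
      · subst hj
        rw [if_pos rfl]
        exact (hasDerivAt_id (x j)).congr_of_eventuallyEq
          (Filter.Eventually.of_forall (fun t => by simp))
      · rw [if_neg hj]
        exact (hasDerivAt_const (x i) (x j)).congr_of_eventuallyEq
          (Filter.Eventually.of_forall (fun t => by simp [hj]))
    have h2 := hp.mul h1
    simp only [Function.update_eq_self] at h2
    have h3 : aeval x (pderiv i (p * X j)) =
        aeval x (pderiv i p) * x j + aeval x p * (if j = i then 1 else 0) := by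
      rw [Derivation.leibniz, pderiv_X]
      simp only [smul_eq_mul, map_add, map_mul, aeval_X]
      by_cases hj : j = i
      · subst hj; simp; ring
      · simp [hj]; ring
    rw [h3]
    refine h2.congr_of_eventuallyEq (Filter.Eventually.of_forall (fun t => ?_))
    simp

theorem continuous_aeval {K : ℕ} (p : MvPolynomial (Fin K) ℤ) :
    Continuous (fun x : Fin K → ℝ => aeval x p) := by
  simp_rw [aeval_eq_sum]
  fun_prop

theorem crit {K E : ℕ} (Φ : MvPolynomial (Fin K) ℤ) {β : Type*} [Finite β]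
    (G : β → MvPolynomial (Fin K) ℤ) (u : ℝ) (x : Fin K → ℝ) (hx : ∀ j, 0 < aeval x (G j))
    (hmin : ∀ y : Fin K → ℝ, (∀ j, 0 ≤ aeval y (G j)) →
      u * aeval x Φ + nrm E x ≤ u * aeval y Φ + nrm E y) (i : Fin K) :
    u * aeval x (pderiv i Φ) + 2 * E * x i ^ (2 * E - 1) = 0 := by
  classical
  set N : MvPolynomial (Fin K) ℤ := ∑ i, X i ^ (2 * E) with hN
  have hNev : ∀ y : Fin K → ℝ, aeval y N = nrm E y := by
    intro y
    rw [hN, map_sum]
    simp [nrm]
  have h1 := ((hasDerivAt_aeval Φ x i).const_mul u).add (hasDerivAt_aeval N x i)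
  have h2 : aeval x (pderiv i N) = 2 * E * x i ^ (2 * E - 1) := by
    rw [hN, map_sum]
    rw [Finset.sum_eq_single i]
    · rw [pderiv_pow, pderiv_X_self]
      simp
    · intro j _ hj
      rw [pderiv_pow, pderiv_X_of_ne hj]
      simp
    · intro h; exact absurd (Finset.mem_univ _) h
  rw [← h2]
  refine IsLocalMin.hasDerivAt_eq_zero ?_ h1
  have h3 : ∀ᶠ t in nhds (x i), ∀ j, 0 < aeval (Function.update x i t) (G j) := by
    rw [Filter.eventually_all]
    intro j
    have h4 : Continuous (fun t : ℝ => aeval (Function.update x i t) (G j)) :=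
      (continuous_aeval (G j)).comp (continuous_const.update i continuous_id)
    refine (h4.tendsto (x i)).eventually (lt_mem_nhds ?_)
    rw [Function.update_eq_self]
    exact hx j
  refine h3.mono (fun t ht => ?_)
  simp only [Pi.add_apply, Function.update_eq_self, hNev]
  exact hmin _ (fun j => (ht j).le)

/-! ### the constants -/

def gE (m D : ℕ) : ℕ := (m + 1) * (D + 1) + 1

def gL (a m D Λ₀ : ℕ) : ℕ := 2 * gE m D * (a * Λ₀ ^ 2 + (Λ₀ ^ m + 1) ^ 2)

def gN (k m D : ℕ) : ℕ := (2 * gE m D - 1) ^ (k + 1)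

def gP (k a m D Λ₀ : ℕ) : ℕ :=
  (1 + (2 * gE m D + (k + 1)) *
    gL a m D Λ₀ ^ ((2 * gE m D + (k + 1) * (2 * gE m D - 2)) + 1)) ^ gN k m D

def gC (k m D R : ℕ) : ℕ := (k + 1) * R ^ (2 * gE m D)

def gU (k a m D Λ₀ R : ℕ) : ℕ :=
  2 * gE m D * gP k a m D Λ₀ * (gC k m D R + gN k m D + 2) ^ gN k m D +
    (gC k m D R + gN k m D + 3)

theorem gap {k a m D Λ₀ : ℕ} {α β : Type*} [Fintype α] [Fintype β] (hα : Fintype.card α ≤ a)
    (hβ : Fintype.card β ≤ m) (hΛ₀ : 1 ≤ Λ₀) (F : α → MvPolynomial (Fin k) ℤ)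
    (G : β → MvPolynomial (Fin k) ℤ) (hFd : ∀ j, (F j).totalDegree ≤ D)
    (hGd : ∀ j, (G j).totalDegree ≤ D) (hFl : ∀ j, mvl (F j) ≤ Λ₀) (hGl : ∀ j, mvl (G j) ≤ Λ₀) :
    ((∃ s : Fin k → ℝ, (∀ j, aeval s (F j) = 0) ∧ ∀ j, 0 < aeval s (G j)) →
      ∃ s : Fin k → ℝ, (∀ j, aeval s (F j) = 0) ∧ (∀ j, 0 < aeval s (G j)) ∧
        (∀ i, |s i| ≤ gP k a m D Λ₀) ∧ 1 ≤ (∏ j, aeval s (G j)) * gP k a m D Λ₀) ∧
    ∀ R : ℕ, (∃ q : Fin k → ℝ, (∀ i, |q i| ≤ R) ∧ (∀ j, 0 < aeval q (G j)) ∧
        1 ≤ (∏ j, aeval q (G j)) * R ∧ (∑ j, aeval q (F j) ^ 2) * gU k a m D Λ₀ R ≤ 1) →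
      ∃ s : Fin k → ℝ, (∀ j, aeval s (F j) = 0) ∧ ∀ j, 0 < aeval s (G j) := by
  classical
  set E := gE m D with hE
  have hE1 : 1 ≤ E := by rw [hE]; unfold gE; omega
  set up : MvPolynomial (Fin k) ℤ →ₐ[ℤ] MvPolynomial (Fin (k + 1)) ℤ := rename Fin.succ with hup
  have hupev : ∀ (x : Fin (k + 1) → ℝ) p, aeval x (up p) = aeval (fun i => x (Fin.succ i)) p := by
    intro x p
    rw [hup, aeval_rename]
    rfl
  set Φ : MvPolynomial (Fin (k + 1)) ℤ :=
    ∑ j, up (F j) ^ 2 + (X 0 * up (∏ j, G j) - 1) ^ 2 with hΦ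
  have hΦev : ∀ x : Fin (k + 1) → ℝ, aeval x Φ = ∑ j, aeval (fun i => x (Fin.succ i)) (F j) ^ 2 +
      (x 0 * ∏ j, aeval (fun i => x (Fin.succ i)) (G j) - 1) ^ 2 := by
    intro x
    rw [hΦ]
    simp only [map_add, map_sum, map_pow, map_sub, map_mul, map_one, aeval_X, hupev, map_prod]
  have hΦ0 : ∀ x : Fin (k + 1) → ℝ, 0 ≤ aeval x Φ := by
    intro x
    rw [hΦev]
    positivity
  -- degrees
  have hupd : ∀ p : MvPolynomial (Fin k) ℤ, (up p).totalDegree ≤ p.totalDegree := fun p =>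
    totalDegree_rename_le _ _
  have hdeg : Φ.totalDegree ≤ 2 * E - 1 := by
    have hb : 2 * (m * D + D + 1) ≤ 2 * E - 1 := by
      rw [hE]; unfold gE
      have : (m + 1) * (D + 1) = m * D + D + m + 1 := by ring
      omega
    refine le_trans ?_ hb
    rw [hΦ]
    refine (totalDegree_add _ _).trans (max_le ?_ ?_)
    · refine totalDegree_finsetSum_le (fun j _ => ?_)
      refine (totalDegree_pow _ _).trans ?_
      have h1 := (hupd (F j)).trans (hFd j)
      have : (up (F j)).totalDegree ≤ m * D + D + 1 := h1.trans (by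
        have := Nat.zero_le (m * D)
        omega)
      omega
    · refine (totalDegree_pow _ _).trans ?_
      refine Nat.mul_le_mul_left 2 ?_
      refine (totalDegree_sub _ _).trans (max_le ?_ ?_)
      · refine (totalDegree_mul _ _).trans ?_
        rw [totalDegree_X]
        have h2 : (up (∏ j, G j)).totalDegree ≤ m * D := by
          refine (hupd _).trans ?_
          refine (totalDegree_finsetProd _ _).trans ?_
          refine (Finset.sum_le_card_nsmul _ _ D (fun j _ => hGd j)).trans ?_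
          rw [Finset.card_univ, smul_eq_mul]
          exact Nat.mul_le_mul_right _ hβ
        omega
      · rw [totalDegree_one]; exact Nat.zero_le _
  -- magnitudes
  set μ := Mag.int.mv (Fin (k + 1)) with hμ
  have hupl : ∀ p : MvPolynomial (Fin k) ℤ, mvl (up p) ≤ mvl p := by
    intro p
    conv_lhs => rw [MvPolynomial.as_sum p, map_sum]
    refine (Mag.int.mval_sum _ _).trans (Finset.sum_le_sum (fun n _ => ?_))
    rw [hup, rename_monomial]
    exact Mag.int.mval_monomial_le _ _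
  have hΓl : mvl (∏ j, G j) ≤ Λ₀ ^ m := by
    refine ((Mag.int.mv (Fin k)).prod_le _ _).trans ?_
    refine (Finset.prod_le_pow_card _ _ Λ₀ (fun j _ => hGl j)).trans ?_
    exact Nat.pow_le_pow_right hΛ₀ (by rw [Finset.card_univ]; exact hβ)
  have hΦl : mvl Φ ≤ a * Λ₀ ^ 2 + (Λ₀ ^ m + 1) ^ 2 := by
    refine (μ.add _ _).trans (Nat.add_le_add ?_ ?_)
    · refine (μ.sum_le _ _).trans ?_
      refine (Finset.sum_le_card_nsmul _ _ (Λ₀ ^ 2) (fun j _ => ?_)).trans ?_
      · exact (μ.pow_le _ _).trans (Nat.pow_le_pow_left ((hupl _).trans (hFl j)) 2)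
      · rw [Finset.card_univ, smul_eq_mul]
        exact Nat.mul_le_mul_right _ hα
    · refine (μ.pow_le _ _).trans (Nat.pow_le_pow_left ?_ 2)
      refine (μ.sub_le _ _).trans (Nat.add_le_add ?_ μ.one)
      refine (μ.mul _ _).trans ?_
      have h1 : μ.val (X 0 : MvPolynomial (Fin (k + 1)) ℤ) ≤ 1 := Mag.int.mval_monomial_le _ _
      calc μ.val (X 0 : MvPolynomial (Fin (k + 1)) ℤ) * μ.val (up (∏ j, G j))
          ≤ 1 * Λ₀ ^ m := Nat.mul_le_mul h1 ((hupl _).trans hΓl)
        _ = Λ₀ ^ m := one_mul _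
  set Λ := gL a m D Λ₀ with hΛ
  have hΛ1 : 1 ≤ Λ := by
    rw [hΛ]; unfold gL
    have h1 : 1 ≤ (Λ₀ ^ m + 1) ^ 2 := Nat.one_le_pow _ _ (Nat.succ_pos _)
    have h2 : 1 ≤ 2 * gE m D := by omega
    exact Nat.mul_pos h2 (by omega)
  have hΦΛ : mvl Φ ≤ Λ := by
    refine hΦl.trans ?_
    rw [hΛ]; unfold gL
    exact Nat.le_mul_of_pos_left _ (by omega)
  have hdΛ : ∀ i, mvl (pderiv i Φ) ≤ Λ := by
    intro i
    refine (mvl_pderiv_le _ _).trans ?_
    rw [hΛ]; unfold gL
    exact Nat.mul_le_mul (hdeg.trans (Nat.sub_le _ _)) hΦl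
  obtain ⟨ψ, hψ0, hψd, hψl, hψ⟩ := elim hE1 hΛ1 Φ hdeg hΦΛ hdΛ
  set Ω : Set (Fin (k + 1) → ℝ) := {x | ∀ j, 0 ≤ aeval (fun i => x (Fin.succ i)) (G j)} with hΩ
  have hΩc : IsClosed Ω := by
    rw [hΩ, Set.ofPred_forall]
    refine isClosed_iInter (fun j => ?_)
    refine isClosed_le continuous_const ?_
    exact (continuous_aeval (G j)).comp (by fun_prop)
  have hpos : ∀ x ∈ Ω, aeval x Φ < 1 → ∀ j, 0 < aeval (fun i => x (Fin.succ i)) (G j) := by
    intro x hx hlt j
    refine lt_of_le_of_ne (hx j) (fun h0 => ?_)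
    rw [hΦev, Finset.prod_eq_zero (Finset.mem_univ j) h0.symm] at hlt
    have : 0 ≤ ∑ j, aeval (fun i => x (Fin.succ i)) (F j) ^ 2 :=
      Finset.sum_nonneg (fun _ _ => sq_nonneg _)
    norm_num at hlt
    linarith
  have hmp := min_path (K := k + 1) (E := E) (nB := gN k m D) (Ψ := gP k a m D Λ₀) hE1
    (Φ := fun x => aeval x Φ) (continuous_aeval Φ) hΦ0 hΩc hψ0 hψd
    (by
      refine hψl.trans (le_of_eq ?_)
      unfold gP gN
      rfl)
    (by
      intro u x hu hx hmin hlt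
      refine hψ u x hu (fun i => ?_)
      refine crit Φ (fun j => up (G j)) u x (fun j => ?_) (fun y hy => ?_) i
      · rw [hupev]; exact hpos x hx hlt j
      · refine hmin y (fun j => ?_)
        rw [← hupev]; exact hy j)
  obtain ⟨hm1, hm2⟩ := hmp
  have hexact : ∀ x ∈ Ω, aeval x Φ = 0 →
      (∀ j, aeval (fun i => x (Fin.succ i)) (F j) = 0) ∧
      (∀ j, 0 < aeval (fun i => x (Fin.succ i)) (G j)) ∧
      x 0 * ∏ j, aeval (fun i => x (Fin.succ i)) (G j) = 1 := by
    intro x hx h0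
    refine ⟨?_, hpos x hx (by rw [h0]; norm_num), ?_⟩
    · intro j
      rw [hΦev] at h0
      have h1 : ∑ j, aeval (fun i => x (Fin.succ i)) (F j) ^ 2 = 0 := by
        have h2 : 0 ≤ ∑ j, aeval (fun i => x (Fin.succ i)) (F j) ^ 2 :=
          Finset.sum_nonneg (fun _ _ => sq_nonneg _)
        have h3 := sq_nonneg (x 0 * ∏ j, aeval (fun i => x (Fin.succ i)) (G j) - 1)
        linarith
      have h2 := (Finset.sum_eq_zero_iff_of_nonneg (fun _ _ => sq_nonneg _)).mp h1 j
        (Finset.mem_univ j)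
      exact pow_eq_zero_iff (two_ne_zero) |>.mp h2
    · rw [hΦev] at h0
      have h2 : 0 ≤ ∑ j, aeval (fun i => x (Fin.succ i)) (F j) ^ 2 :=
        Finset.sum_nonneg (fun _ _ => sq_nonneg _)
      have h3 := sq_nonneg (x 0 * ∏ j, aeval (fun i => x (Fin.succ i)) (G j) - 1)
      have h4 : (x 0 * ∏ j, aeval (fun i => x (Fin.succ i)) (G j) - 1) ^ 2 = 0 := by linarith
      have h5 := pow_eq_zero_iff (two_ne_zero) |>.mp h4
      linarith
  have hlift : ∀ s : Fin k → ℝ, (∀ j, 0 < aeval s (G j)) →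
      (Fin.cons (∏ j, aeval s (G j))⁻¹ s : Fin (k + 1) → ℝ) ∈ Ω ∧
      aeval (Fin.cons (∏ j, aeval s (G j))⁻¹ s : Fin (k + 1) → ℝ) Φ = ∑ j, aeval s (F j) ^ 2 := by
    intro s hs
    have hp : 0 < ∏ j, aeval s (G j) := Finset.prod_pos (fun j _ => hs j)
    refine ⟨?_, ?_⟩
    · intro j
      simp only [Fin.cons_succ]
      exact (hs j).le
    · rw [hΦev]
      simp only [Fin.cons_succ, Fin.cons_zero]
      rw [inv_mul_cancel₀ hp.ne']
      simp
  refine ⟨?_, ?_⟩
  · rintro ⟨s, hs1, hs2⟩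
    obtain ⟨hc1, hc2⟩ := hlift s hs2
    obtain ⟨x, hx1, hx2, hx3⟩ := hm1 ⟨_, hc1, by rw [hc2]; simp [hs1]⟩
    obtain ⟨he1, he2, he3⟩ := hexact x hx1 hx2
    have hP1 : 1 ≤ gP k a m D Λ₀ := by
      unfold gP
      exact Nat.one_le_pow _ _ (by omega)
    have hxi : ∀ i, |x i| ≤ gP k a m D Λ₀ := by
      intro i
      by_contra hcon
      push Not at hcon
      have h1 : x i ^ (2 * E) ≤ nrm E x := by
        unfold nrm
        exact Finset.single_le_sum (f := fun i => x i ^ (2 * E))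
          (fun j _ => by rw [pow_mul]; positivity) (Finset.mem_univ i)
      have hP1' : (1 : ℝ) ≤ gP k a m D Λ₀ := by exact_mod_cast hP1
      have h2 : |x i| ≤ x i ^ (2 * E) := by
        have : x i ^ (2 * E) = |x i| ^ (2 * E) := by
          rw [pow_mul, pow_mul, sq_abs]
        rw [this]
        exact le_self_pow₀ (hP1'.trans hcon.le) (by omega)
      linarith
    refine ⟨fun i => x (Fin.succ i), he1, he2, fun i => hxi _, ?_⟩
    have hp : 0 < ∏ j, aeval (fun i => x (Fin.succ i)) (G j) :=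
      Finset.prod_pos (fun j _ => he2 j)
    rw [← he3, mul_comm]
    exact mul_le_mul_of_nonneg_left ((le_abs_self _).trans (hxi 0)) hp.le
  · rintro R ⟨q, hq1, hq2, hq3, hq4⟩
    obtain ⟨hc1, hc2⟩ := hlift q hq2
    have hp : 0 < ∏ j, aeval q (G j) := Finset.prod_pos (fun j _ => hq2 j)
    obtain ⟨x, hx1, hx2⟩ := hm2 (gC k m D R) ⟨_, hc1, by
      unfold nrm gC
      rw [Fin.sum_univ_succ]
      simp only [Fin.cons_zero, Fin.cons_succ]
      have h1 : (∏ j, aeval q (G j))⁻¹ ^ (2 * E) ≤ (R : ℝ) ^ (2 * E) := by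
        refine pow_le_pow_left₀ (inv_nonneg.mpr hp.le) ?_ _
        rw [inv_le_iff_one_le_mul₀ hp, mul_comm]
        exact hq3
      have h2 : ∀ i : Fin k, q i ^ (2 * E) ≤ (R : ℝ) ^ (2 * E) := by
        intro i
        have : q i ^ (2 * E) = |q i| ^ (2 * E) := by
          rw [pow_mul, pow_mul, sq_abs]
        rw [this]
        exact pow_le_pow_left₀ (abs_nonneg _) (hq1 i) _
      have h3 := Finset.sum_le_card_nsmul Finset.univ (fun i : Fin k => q i ^ (2 * E)) _
        (fun i _ => h2 i)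
      rw [Finset.card_univ, Fintype.card_fin, nsmul_eq_mul] at h3
      push_cast
      linarith, by
      rw [hc2]
      refine le_trans (le_of_eq ?_) hq4
      congr 1
      unfold gU
      push_cast
      rfl⟩
    obtain ⟨he1, he2, _⟩ := hexact x hx1 hx2
    exact ⟨_, he1, he2⟩

end Pool.Agent.Lib.UPSlopes
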