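import Pool.Agent.Lib.MP_51356b_lc.MinPath

/-!
# Submultiplicative magnitudes (sums of the absolute values of the coefficients)
-/

namespace Pool.Agent.Lib.UPSlopes

open Finset

/-- A submultiplicative and subadditive function with values in `ℕ`. -/
structure Mag (R : Type*) [CommRing R] where
  val : R → ℕ
  zero : val 0 = 0
  one : val 1 ≤ 1
  add : ∀ a b, val (a + b) ≤ val a + val b
  mul : ∀ a b, val (a * b) ≤ val a * val b
  neg : ∀ a, val (-a) = val a

namespace Mag

variable {R : Type*} [CommRing R] (μ : Mag R)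

theorem sum_le {ι : Type*} (s : Finset ι) (f : ι → R) : μ.val (∑ i ∈ s, f i) ≤ ∑ i ∈ s, μ.val (f i) := by
  classical
  induction s using Finset.induction_on with
  | empty => simp [μ.zero]
  | insert a s ha ih =>
    rw [Finset.sum_insert ha, Finset.sum_insert ha]
    exact (μ.add _ _).trans (Nat.add_le_add_left ih _)

theorem prod_le {ι : Type*} (s : Finset ι) (f : ι → R) :
    μ.val (∏ i ∈ s, f i) ≤ ∏ i ∈ s, μ.val (f i) := by
  classical
  induction s using Finset.induction_on with
  | empty => simpa using μ.one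
  | insert a s ha ih =>
    rw [Finset.prod_insert ha, Finset.prod_insert ha]
    exact (μ.mul _ _).trans (Nat.mul_le_mul_left _ ih)

theorem sub_le (a b : R) : μ.val (a - b) ≤ μ.val a + μ.val b := by
  rw [sub_eq_add_neg]
  exact (μ.add _ _).trans (by rw [μ.neg])

theorem pow_le (a : R) (n : ℕ) : μ.val (a ^ n) ≤ μ.val a ^ n := by
  induction n with
  | zero => simpa using μ.one
  | succ n ih =>
    rw [pow_succ, pow_succ]
    exact (μ.mul _ _).trans (Nat.mul_le_mul_right _ ih)

/-- the absolute value on `ℤ` -/
def int : Mag ℤ where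
  val := Int.natAbs
  zero := rfl
  one := le_rfl
  add := Int.natAbs_add_le
  mul := fun a b => (Int.natAbs_mul a b).le
  neg := Int.natAbs_neg

/-- determinants -/
theorem det_le {n : Type*} [Fintype n] [DecidableEq n] (A : Matrix n n R) :
    μ.val A.det ≤ ∏ i, ∑ j, μ.val (A i j) := by
  classical
  rw [← Matrix.det_transpose, Matrix.det_apply]
  refine (μ.sum_le _ _).trans ?_
  have h1 : ∀ σ : Equiv.Perm n, μ.val (Equiv.Perm.sign σ • ∏ i, A.transpose (σ i) i) ≤
      ∏ i, μ.val (A i (σ i)) := by
    intro σ
    have h2 : μ.val (∏ i, A.transpose (σ i) i) ≤ ∏ i, μ.val (A i (σ i)) := μ.prod_le _ _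
    rcases Int.units_eq_one_or (Equiv.Perm.sign σ) with h | h
    · rw [h, one_smul]; exact h2
    · rw [h, Units.neg_smul, one_smul, μ.neg]; exact h2
  refine (Finset.sum_le_sum (fun σ _ => h1 σ)).trans ?_
  rw [Finset.prod_univ_sum]
  rw [Fintype.piFinset_univ]
  have h3 : ∑ σ : Equiv.Perm n, ∏ i, μ.val (A i (σ i)) =
      ∑ p ∈ Finset.image (fun σ : Equiv.Perm n => (⇑σ : n → n)) Finset.univ,
        ∏ i, μ.val (A i (p i)) := by
    rw [Finset.sum_image]
    intro σ _ τ _ h
    exact DFunLike.coe_injective h
  rw [h3]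
  exact Finset.sum_le_sum_of_subset (Finset.subset_univ _)

/-! ### polynomials -/

/-- sum of the magnitudes of the coefficients of a polynomial -/
noncomputable def pval (p : Polynomial R) : ℕ := ∑ i ∈ p.support, μ.val (p.coeff i)

theorem pval_eq {p : Polynomial R} {s : Finset ℕ} (h : p.support ⊆ s) :
    μ.pval p = ∑ i ∈ s, μ.val (p.coeff i) := by
  refine Finset.sum_subset h (fun i _ hi => ?_)
  rw [Polynomial.notMem_support_iff.mp hi, μ.zero]

theorem pval_add (p q : Polynomial R) : μ.pval (p + q) ≤ μ.pval p + μ.pval q := by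
  classical
  rw [μ.pval_eq (s := p.support ∪ q.support) Polynomial.support_add,
    μ.pval_eq (p := p) (s := p.support ∪ q.support) Finset.subset_union_left,
    μ.pval_eq (p := q) (s := p.support ∪ q.support) Finset.subset_union_right,
    ← Finset.sum_add_distrib]
  refine Finset.sum_le_sum (fun i _ => ?_)
  rw [Polynomial.coeff_add]
  exact μ.add _ _

theorem pval_sum {ι : Type*} (s : Finset ι) (f : ι → Polynomial R) :
    μ.pval (∑ i ∈ s, f i) ≤ ∑ i ∈ s, μ.pval (f i) := by
  classical
  induction s using Finset.induction_on with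
  | empty => simp [pval]
  | insert a s ha ih =>
    rw [Finset.sum_insert ha, Finset.sum_insert ha]
    exact (μ.pval_add _ _).trans (Nat.add_le_add_left ih _)

theorem pval_monomial_mul (i : ℕ) (a : R) (q : Polynomial R) :
    μ.pval (Polynomial.monomial i a * q) ≤ μ.val a * μ.pval q := by
  classical
  have hs : (Polynomial.monomial i a * q).support ⊆ q.support.map ⟨fun j => j + i,
      add_left_injective i⟩ := by
    intro m hm
    rw [Polynomial.mem_support_iff] at hm
    rw [Finset.mem_map]
    rw [← Polynomial.C_mul_X_pow_eq_monomial, mul_assoc, Polynomial.coeff_C_mul,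
      Polynomial.coeff_X_pow_mul'] at hm
    split_ifs at hm with h
    · refine ⟨m - i, ?_, by simp only [Function.Embedding.coeFn_mk]; omega⟩
      rw [Polynomial.mem_support_iff]
      intro h0
      rw [h0, mul_zero] at hm
      exact hm rfl
    · simp at hm
  rw [μ.pval_eq hs, Finset.sum_map, pval, Finset.mul_sum]
  refine Finset.sum_le_sum (fun j _ => ?_)
  simp only [Function.Embedding.coeFn_mk]
  rw [← Polynomial.C_mul_X_pow_eq_monomial, mul_assoc, Polynomial.coeff_C_mul,
    Polynomial.coeff_X_pow_mul]
  exact μ.mul _ _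

theorem pval_mul (p q : Polynomial R) : μ.pval (p * q) ≤ μ.pval p * μ.pval q := by
  conv_lhs => rw [Polynomial.as_sum_support p, Finset.sum_mul]
  refine (μ.pval_sum _ _).trans ?_
  conv_rhs => rw [pval, Finset.sum_mul]
  exact Finset.sum_le_sum (fun i _ => μ.pval_monomial_mul _ _ _)

theorem pval_C (a : R) : μ.pval (Polynomial.C a) = μ.val a := by
  rw [μ.pval_eq (s := {0}) (Polynomial.support_C_subset a)]
  simp

theorem pval_X_pow_le (n : ℕ) : μ.pval (Polynomial.X ^ n) ≤ 1 := by
  rw [μ.pval_eq (s := {n}) (by
    intro m hm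
    rw [Polynomial.mem_support_iff, Polynomial.coeff_X_pow] at hm
    rw [Finset.mem_singleton]
    by_contra h
    exact hm (if_neg h))]
  simpa using μ.one

noncomputable def poly : Mag (Polynomial R) where
  val := μ.pval
  zero := by simp [pval]
  one := by
    rw [← Polynomial.C_1, μ.pval_C]; exact μ.one
  add := μ.pval_add
  mul := μ.pval_mul
  neg := by
    intro p
    unfold pval
    rw [Polynomial.support_neg]
    simp [μ.neg]

/-! ### multivariate polynomials -/

variable {σ : Type*}

noncomputable def mval (p : MvPolynomial σ R) : ℕ := ∑ m ∈ p.support, μ.val (p.coeff m)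

theorem mval_eq {p : MvPolynomial σ R} {s : Finset (σ →₀ ℕ)} (h : p.support ⊆ s) :
    μ.mval p = ∑ i ∈ s, μ.val (p.coeff i) := by
  refine Finset.sum_subset h (fun i _ hi => ?_)
  rw [MvPolynomial.notMem_support_iff.mp hi, μ.zero]

theorem mval_add (p q : MvPolynomial σ R) : μ.mval (p + q) ≤ μ.mval p + μ.mval q := by
  classical
  rw [μ.mval_eq (s := p.support ∪ q.support) MvPolynomial.support_add,
    μ.mval_eq (p := p) (s := p.support ∪ q.support) Finset.subset_union_left,
    μ.mval_eq (p := q) (s := p.support ∪ q.support) Finset.subset_union_right,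
    ← Finset.sum_add_distrib]
  refine Finset.sum_le_sum (fun i _ => ?_)
  rw [MvPolynomial.coeff_add]
  exact μ.add _ _

theorem mval_sum {ι : Type*} (s : Finset ι) (f : ι → MvPolynomial σ R) :
    μ.mval (∑ i ∈ s, f i) ≤ ∑ i ∈ s, μ.mval (f i) := by
  classical
  induction s using Finset.induction_on with
  | empty => simp [mval]
  | insert a s ha ih =>
    rw [Finset.sum_insert ha, Finset.sum_insert ha]
    exact (μ.mval_add _ _).trans (Nat.add_le_add_left ih _)

theorem mval_monomial_mul (i : σ →₀ ℕ) (a : R) (q : MvPolynomial σ R) :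
    μ.mval (MvPolynomial.monomial i a * q) ≤ μ.val a * μ.mval q := by
  classical
  have hs : (MvPolynomial.monomial i a * q).support ⊆ q.support.map ⟨fun j => i + j,
      add_right_injective i⟩ := by
    intro m hm
    rw [MvPolynomial.mem_support_iff] at hm
    rw [Finset.mem_map]
    rw [MvPolynomial.coeff_monomial_mul'] at hm
    split_ifs at hm with h
    · refine ⟨m - i, ?_, ?_⟩
      · rw [MvPolynomial.mem_support_iff]
        intro h0
        rw [h0, mul_zero] at hm
        exact hm rfl
      · simp only [Function.Embedding.coeFn_mk]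
        exact add_tsub_cancel_of_le h
    · exact absurd rfl hm
  rw [μ.mval_eq hs, Finset.sum_map, mval, Finset.mul_sum]
  refine Finset.sum_le_sum (fun j _ => ?_)
  simp only [Function.Embedding.coeFn_mk]
  rw [MvPolynomial.coeff_monomial_mul]
  exact μ.mul _ _

theorem mval_mul (p q : MvPolynomial σ R) : μ.mval (p * q) ≤ μ.mval p * μ.mval q := by
  conv_lhs => rw [MvPolynomial.as_sum p, Finset.sum_mul]
  refine (μ.mval_sum _ _).trans ?_
  conv_rhs => rw [mval, Finset.sum_mul]
  exact Finset.sum_le_sum (fun i _ => μ.mval_monomial_mul _ _ _)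

theorem mval_monomial_le (m : σ →₀ ℕ) (a : R) : μ.mval (MvPolynomial.monomial m a) ≤ μ.val a := by
  classical
  rw [μ.mval_eq (s := {m}) (by simpa using MvPolynomial.support_monomial_subset)]
  simp

noncomputable def mv (σ : Type*) : Mag (MvPolynomial σ R) where
  val := μ.mval
  zero := by simp [mval]
  one := by
    rw [← MvPolynomial.C_1, MvPolynomial.C_apply]
    exact (μ.mval_monomial_le _ _).trans μ.one
  add := μ.mval_add
  mul := μ.mval_mul
  neg := by
    intro p
    unfold mval
    rw [MvPolynomial.support_neg]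
    simp [μ.neg]

end Mag

end Pool.Agent.Lib.UPSlopes
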