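import Mathlib

/-!
# Minima of `u Φ + ‖x‖_{2E}^{2E}` as a function of `u`
-/

namespace Pool.Agent.Lib.UPSlopes

/-- The sum of the absolute values of the coefficients. -/
noncomputable def l1 (p : Polynomial ℤ) : ℕ := ∑ i ∈ p.support, (p.coeff i).natAbs

/-- The sum of the absolute values of the coefficients, two variables. -/
noncomputable def l11 (ψ : Polynomial (Polynomial ℤ)) : ℕ := ∑ i ∈ ψ.support, l1 (ψ.coeff i)

/-- The value of `ψ` at `(X, w)`, `X` for the outer variable, `w` for the inner one. -/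
noncomputable def ev (ψ : Polynomial (Polynomial ℤ)) (X w : ℝ) : ℝ :=
  Polynomial.eval₂ (Polynomial.aeval w : Polynomial ℤ →ₐ[ℤ] ℝ).toRingHom X ψ

/-- The sum of the `2E`-th powers. -/
def nrm {K : ℕ} (E : ℕ) (x : Fin K → ℝ) : ℝ := ∑ i, x i ^ (2 * E)

namespace MinP

open Filter Topology

theorem nrm_cont {K E : ℕ} : Continuous (nrm (K := K) E) := by
  unfold nrm
  fun_prop

theorem nrm_nonneg {K E : ℕ} (x : Fin K → ℝ) : 0 ≤ nrm E x :=
  Finset.sum_nonneg fun _ _ => (even_two_mul E).pow_nonneg _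

theorem isCompact_sub {K E : ℕ} (hE : 1 ≤ E) {Ω : Set (Fin K → ℝ)} (hΩ : IsClosed Ω) (R : ℝ) :
    IsCompact (Ω ∩ {x : Fin K → ℝ | nrm E x ≤ R}) := by
  refine Metric.isCompact_of_isClosed_isBounded
    (hΩ.inter (isClosed_le nrm_cont continuous_const)) ?_
  refine (Metric.isBounded_closedBall (x := (0 : Fin K → ℝ)) (r := max 1 R)).subset ?_
  rintro x ⟨-, hx⟩
  rw [mem_closedBall_zero_iff, pi_norm_le_iff_of_nonneg (le_trans zero_le_one (le_max_left _ _))]
  intro i
  by_contra hcon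
  push Not at hcon
  have h1 : 1 < ‖x i‖ := lt_of_le_of_lt (le_max_left _ _) hcon
  have h2 : R < ‖x i‖ := lt_of_le_of_lt (le_max_right _ _) hcon
  have h3 : x i ^ (2 * E) ≤ nrm E x :=
    Finset.single_le_sum (f := fun i => x i ^ (2 * E))
      (fun _ _ => (even_two_mul E).pow_nonneg _) (Finset.mem_univ i)
  have h4 : ‖x i‖ ≤ x i ^ (2 * E) := by
    have h5 : x i ^ (2 * E) = ‖x i‖ ^ (2 * E) := by
      rw [Real.norm_eq_abs, (even_two_mul E).pow_abs]
    rw [h5]
    exact le_self_pow₀ h1.le (by omega)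
  have hx' : nrm E x ≤ R := hx
  linarith

theorem exists_min {K E : ℕ} (hE : 1 ≤ E) {Φ : (Fin K → ℝ) → ℝ} (hc : Continuous Φ)
    (h0 : ∀ x, 0 ≤ Φ x) {Ω : Set (Fin K → ℝ)} (hΩ : IsClosed Ω) (hne : Ω.Nonempty) {u : ℝ}
    (hu : 0 < u) :
    ∃ x ∈ Ω, ∀ y ∈ Ω, u * Φ x + nrm E x ≤ u * Φ y + nrm E y := by
  obtain ⟨x0, hx0⟩ := hne
  have hcomp := isCompact_sub hE hΩ (u * Φ x0 + nrm E x0)
  have hcont : ContinuousOn (fun x => u * Φ x + nrm E x)
      (Ω ∩ {x : Fin K → ℝ | nrm E x ≤ u * Φ x0 + nrm E x0}) :=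
    ((continuous_const.mul hc).add nrm_cont).continuousOn
  have hmem : x0 ∈ Ω ∩ {x : Fin K → ℝ | nrm E x ≤ u * Φ x0 + nrm E x0} := by
    refine ⟨hx0, ?_⟩
    have := mul_nonneg hu.le (h0 x0)
    simp only [Set.mem_ofPred_eq]
    linarith
  obtain ⟨x, hx, hmin⟩ := hcomp.exists_isMinOn ⟨x0, hmem⟩ hcont
  refine ⟨x, hx.1, fun y hy => ?_⟩
  by_cases hy2 : nrm E y ≤ u * Φ x0 + nrm E x0
  · exact hmin ⟨hy, hy2⟩
  · push Not at hy2
    have h1 : u * Φ x + nrm E x ≤ u * Φ x0 + nrm E x0 := hmin hmem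
    have := mul_nonneg hu.le (h0 y)
    linarith

theorem limit_point {K E : ℕ} (hE : 1 ≤ E) {Φ : (Fin K → ℝ) → ℝ} (hc : Continuous Φ)
    (h0 : ∀ x, 0 ≤ Φ x) {Ω : Set (Fin K → ℝ)} (hΩ : IsClosed Ω) {x : ℕ → Fin K → ℝ}
    (hx : ∀ n, x n ∈ Ω) {M u0 : ℝ} (hN : ∀ n, nrm E (x n) ≤ M)
    (hΦ : ∀ n : ℕ, Φ (x n) ≤ M / (u0 + n)) :
    ∃ a ∈ Ω, ∃ φ : ℕ → ℕ, StrictMono φ ∧ Tendsto (x ∘ φ) atTop (𝓝 a) ∧ Φ a = 0 := by
  obtain ⟨a, ha, φ, hφ, hlim⟩ := (isCompact_sub hE hΩ M).tendsto_subseq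
    (x := x) (fun n => ⟨hx n, hN n⟩)
  refine ⟨a, ha.1, φ, hφ, hlim, ?_⟩
  have h1 : Tendsto (fun n : ℕ => Φ (x (φ n))) atTop (𝓝 (Φ a)) :=
    (hc.tendsto a).comp hlim
  have h2 : Tendsto (fun n : ℕ => M / (u0 + (n : ℝ))) atTop (𝓝 0) :=
    Tendsto.div_atTop tendsto_const_nhds
      (tendsto_atTop_add_const_left _ _ tendsto_natCast_atTop_atTop)
  have h3 : Tendsto (fun n : ℕ => M / (u0 + (φ n : ℝ))) atTop (𝓝 0) :=
    h2.comp hφ.tendsto_atTop
  refine le_antisymm (le_of_tendsto_of_tendsto' h1 h3 fun n => hΦ (φ n)) (h0 a)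

/-- Roots of integer polynomials. -/
theorem root_bound {p : Polynomial ℤ} (hp : p ≠ 0) {z : ℝ} (hz : Polynomial.aeval z p = 0) :
    |z| ≤ l1 p := by
  have hl : ∀ i ∈ p.support, 1 ≤ (p.coeff i).natAbs := by
    intro i hi
    rw [Nat.one_le_iff_ne_zero, Int.natAbs_ne_zero]
    exact Polynomial.mem_support_iff.mp hi
  have hlead : p.natDegree ∈ p.support := Polynomial.natDegree_mem_support_of_nonzero hp
  have h1 : 1 ≤ l1 p := by
    unfold l1
    exact le_trans (hl _ hlead)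
      (Finset.single_le_sum (f := fun i => (p.coeff i).natAbs) (fun _ _ => Nat.zero_le _) hlead)
  by_cases hz1 : |z| ≤ 1
  · exact le_trans hz1 (by exact_mod_cast h1)
  push Not at hz1
  have hsum : ∑ i ∈ p.support, (p.coeff i : ℝ) * z ^ i = 0 := by
    rw [Polynomial.aeval_eq_sum_range' (n := p.natDegree + 1) (Nat.lt_succ_self _)] at hz
    rw [← hz]
    simp only [zsmul_eq_mul]
    refine Finset.sum_subset (fun i hi => ?_) (fun i _ hi => ?_)
    · exact Finset.mem_range.mpr (Nat.lt_succ_of_le (Polynomial.le_natDegree_of_mem_supp i hi))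
    · rw [Polynomial.notMem_support_iff.mp hi]
      simp
  rw [← Finset.add_sum_erase _ _ hlead] at hsum
  set d := p.natDegree with hd
  have h2 : |(p.coeff d : ℝ) * z ^ d| ≤ ∑ i ∈ p.support.erase d, |(p.coeff i : ℝ)| * |z| ^ i := by
    have h3 : (p.coeff d : ℝ) * z ^ d = -∑ i ∈ p.support.erase d, (p.coeff i : ℝ) * z ^ i := by
      linarith
    rw [h3, abs_neg]
    refine le_trans (Finset.abs_sum_le_sum_abs _ _) (le_of_eq ?_)
    refine Finset.sum_congr rfl fun i _ => ?_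
    rw [abs_mul, abs_pow]
  have h4 : |z| ^ d ≤ |(p.coeff d : ℝ) * z ^ d| := by
    rw [abs_mul, abs_pow]
    have h5 : (1 : ℝ) ≤ |(p.coeff d : ℝ)| := by
      have := hl d hlead
      rw [← Int.cast_abs, Int.abs_eq_natAbs]
      exact_mod_cast this
    nlinarith [pow_nonneg (abs_nonneg z) d]
  have hzpos : 0 < |z| := lt_trans zero_lt_one hz1
  have h6 : ∑ i ∈ p.support.erase d, |(p.coeff i : ℝ)| * |z| ^ i ≤
      (l1 p : ℝ) * |z| ^ (d - 1) := by
    have h7 : ∑ i ∈ p.support.erase d, |(p.coeff i : ℝ)| * |z| ^ i ≤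
        ∑ i ∈ p.support.erase d, |(p.coeff i : ℝ)| * |z| ^ (d - 1) := by
      refine Finset.sum_le_sum fun i hi => ?_
      refine mul_le_mul_of_nonneg_left ?_ (abs_nonneg _)
      have hi1 := Finset.mem_erase.mp hi
      have hi2 := Polynomial.le_natDegree_of_mem_supp i hi1.2
      exact pow_le_pow_right₀ hz1.le (by omega)
    refine le_trans h7 ?_
    rw [← Finset.sum_mul]
    refine mul_le_mul_of_nonneg_right ?_ (pow_nonneg (abs_nonneg _) _)
    have h8 : (l1 p : ℝ) = ∑ i ∈ p.support, |(p.coeff i : ℝ)| := by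
      unfold l1
      push_cast
      refine Finset.sum_congr rfl fun i _ => ?_
      exact_mod_cast (Nat.cast_natAbs (α := ℝ) (p.coeff i))
    rw [h8]
    exact Finset.sum_le_sum_of_subset_of_nonneg (Finset.erase_subset _ _)
      (fun _ _ _ => abs_nonneg _)
  rcases Nat.eq_zero_or_pos d with hd0 | hdpos
  · exfalso
    have h9 : p.support.erase d = ∅ := by
      ext i
      simp only [Finset.mem_erase, Finset.notMem_empty, iff_false, not_and]
      intro hi hi2
      have := Polynomial.le_natDegree_of_mem_supp i hi2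
      omega
    rw [h9, Finset.sum_empty] at h2
    rw [hd0, pow_zero] at h4
    rw [hd0] at h2
    linarith
  · have h10 : |z| ^ d ≤ (l1 p : ℝ) * |z| ^ (d - 1) := le_trans h4 (le_trans h2 h6)
    have h11 : |z| ^ d = |z| * |z| ^ (d - 1) := by
      rw [← pow_succ']
      congr 1
      omega
    rw [h11] at h10
    exact le_of_mul_le_mul_right h10 (pow_pos hzpos _)

theorem l1_nonneg_le {ψ : Polynomial (Polynomial ℤ)} (i : ℕ) : l1 (ψ.coeff i) ≤ l11 ψ := by
  by_cases hi : i ∈ ψ.support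
  · exact Finset.single_le_sum (f := fun i => l1 (ψ.coeff i)) (fun _ _ => Nat.zero_le _) hi
  · rw [Polynomial.notMem_support_iff.mp hi]
    simp [l1]

theorem one_le_l1 {p : Polynomial ℤ} (hp : p ≠ 0) : 1 ≤ l1 p := by
  have hlead : p.natDegree ∈ p.support := Polynomial.natDegree_mem_support_of_nonzero hp
  unfold l1
  refine le_trans ?_
    (Finset.single_le_sum (f := fun i => (p.coeff i).natAbs) (fun _ _ => Nat.zero_le _) hlead)
  rw [Nat.one_le_iff_ne_zero, Int.natAbs_ne_zero]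
  exact Polynomial.mem_support_iff.mp hlead

theorem ev_sum {ψ : Polynomial (Polynomial ℤ)} (X w : ℝ) :
    ev ψ X w = ∑ i ∈ Finset.range (ψ.natDegree + 1), Polynomial.aeval w (ψ.coeff i) * X ^ i := by
  unfold ev
  rw [Polynomial.eval₂_eq_sum_range]
  rfl

theorem ev_mul_X_pow {ψ : Polynomial (Polynomial ℤ)} (e : ℕ) (X w : ℝ) :
    ev (Polynomial.X ^ e * ψ) X w = X ^ e * ev ψ X w := by
  unfold ev
  rw [Polynomial.eval₂_mul, Polynomial.eval₂_pow, Polynomial.eval₂_X]

theorem ev_zero {ψ : Polynomial (Polynomial ℤ)} (w : ℝ) :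
    ev ψ 0 w = Polynomial.aeval w (ψ.coeff 0) := by
  unfold ev
  rw [Polynomial.eval₂_at_zero]
  rfl

theorem ev_cont {ψ : Polynomial (Polynomial ℤ)} : Continuous (fun q : ℝ × ℝ => ev ψ q.1 q.2) := by
  simp only [ev_sum]
  refine continuous_finsetSum _ fun i _ => ?_
  refine Continuous.mul ?_ (continuous_fst.pow i)
  exact (Polynomial.continuous_aeval _).comp continuous_snd

theorem factor {ψ : Polynomial (Polynomial ℤ)} (hψ : ψ ≠ 0) :
    ∃ (e : ℕ) (ψ' : Polynomial (Polynomial ℤ)), ψ = Polynomial.X ^ e * ψ' ∧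
      ψ'.coeff 0 ≠ 0 ∧ ∀ i, ψ'.coeff i = ψ.coeff (i + e) := by
  have h0 : ψ.coeff ψ.natTrailingDegree ≠ 0 :=
    Polynomial.trailingCoeff_nonzero_iff_nonzero.mpr hψ
  have h1 : (Polynomial.X : Polynomial (Polynomial ℤ)) ^ ψ.natTrailingDegree ∣ ψ := by
    rw [Polynomial.X_pow_dvd_iff]
    intro d hd
    exact Polynomial.coeff_eq_zero_of_lt_natTrailingDegree hd
  generalize ψ.natTrailingDegree = e at h0 h1
  obtain ⟨ψ', hψ'⟩ := h1
  have h2 : ∀ i, ψ'.coeff i = ψ.coeff (i + e) := by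
    intro i
    rw [hψ', Polynomial.coeff_X_pow_mul]
  refine ⟨e, ψ', hψ', ?_, h2⟩
  rw [h2, zero_add]
  exact h0

/-- Bound for the value of an integer polynomial at `w ≥ 1`. -/
theorem aeval_bound {p : Polynomial ℤ} {n : ℕ} (hp : p.natDegree ≤ n) {w : ℝ} (hw : 1 ≤ w) :
    |Polynomial.aeval w p| ≤ l1 p * w ^ n := by
  have hsum : Polynomial.aeval w p = ∑ i ∈ p.support, (p.coeff i : ℝ) * w ^ i := by
    rw [Polynomial.aeval_eq_sum_range' (n := p.natDegree + 1) (Nat.lt_succ_self _)]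
    simp only [zsmul_eq_mul]
    symm
    refine Finset.sum_subset (fun i hi => ?_) (fun i _ hi => ?_)
    · exact Finset.mem_range.mpr (Nat.lt_succ_of_le (Polynomial.le_natDegree_of_mem_supp i hi))
    · rw [Polynomial.notMem_support_iff.mp hi]
      simp
  have h8 : (l1 p : ℝ) = ∑ i ∈ p.support, |(p.coeff i : ℝ)| := by
    unfold l1
    push_cast
    refine Finset.sum_congr rfl fun i _ => ?_
    exact_mod_cast (Nat.cast_natAbs (α := ℝ) (p.coeff i))
  rw [hsum, h8, Finset.sum_mul]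
  refine le_trans (Finset.abs_sum_le_sum_abs _ _) (Finset.sum_le_sum fun i hi => ?_)
  have hw0 : 0 ≤ w := le_trans zero_le_one hw
  rw [abs_mul, abs_of_nonneg (pow_nonneg hw0 i)]
  refine mul_le_mul_of_nonneg_left ?_ (abs_nonneg _)
  exact pow_le_pow_right₀ hw (le_trans (Polynomial.le_natDegree_of_mem_supp i hi) hp)

/-- At a nonroot integer the value has absolute value at least `1`. -/
theorem one_le_aeval {p : Polynomial ℤ} {m : ℤ} (hp : p.eval m ≠ 0) :
    1 ≤ |Polynomial.aeval (m : ℝ) p| := by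
  have h1 : Polynomial.aeval (m : ℝ) p = ((p.eval m : ℤ) : ℝ) := by
    have := Polynomial.aeval_algebraMap_apply ℝ m p
    simpa [Polynomial.coe_aeval_eq_eval] using this
  rw [h1, ← Int.cast_abs]
  exact_mod_cast Int.one_le_abs hp

theorem exists_nonroot {p : Polynomial ℤ} (hp : p ≠ 0) {n : ℕ} (hd : p.natDegree ≤ n) (a : ℕ) :
    ∃ m : ℕ, a ≤ m ∧ m ≤ a + n ∧ p.eval (m : ℤ) ≠ 0 := by
  by_contra hcon
  push Not at hcon
  have h1 : (Finset.Icc a (a + n)).image (fun m : ℕ => (m : ℤ)) ⊆ p.roots.toFinset := by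
    intro z hz
    obtain ⟨m, hm, rfl⟩ := Finset.mem_image.mp hz
    rw [Finset.mem_Icc] at hm
    rw [Multiset.mem_toFinset, Polynomial.mem_roots hp]
    exact hcon m hm.1 hm.2
  have h2 := Finset.card_le_card h1
  rw [Finset.card_image_of_injective _ Nat.cast_injective, Nat.card_Icc] at h2
  have h3 := Multiset.toFinset_card_le p.roots
  have h4 := Polynomial.card_roots' p
  omega

end MinP

open MinP Filter Topology

theorem min_path {K E nB Ψ : ℕ} (hE : 1 ≤ E) {Φ : (Fin K → ℝ) → ℝ} (hc : Continuous Φ)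
    (h0 : ∀ x, 0 ≤ Φ x) {Ω : Set (Fin K → ℝ)} (hΩ : IsClosed Ω)
    {ψ : Polynomial (Polynomial ℤ)} (hψ0 : ψ ≠ 0) (hdeg : ∀ i, (ψ.coeff i).natDegree ≤ nB)
    (hnorm : l11 ψ ≤ Ψ)
    (hcrit : ∀ (u : ℝ) (x : Fin K → ℝ), 0 < u → x ∈ Ω →
      (∀ y ∈ Ω, u * Φ x + nrm E x ≤ u * Φ y + nrm E y) → Φ x < 1 →
      ev ψ (2 * E / u) (u * Φ x + nrm E x) = 0) :
    ((∃ x ∈ Ω, Φ x = 0) → ∃ x ∈ Ω, Φ x = 0 ∧ nrm E x ≤ Ψ) ∧
    ∀ C : ℕ, (∃ x ∈ Ω, nrm E x ≤ C ∧
        Φ x * (2 * E * Ψ * (C + nB + 2) ^ nB + (C + nB + 3)) ≤ 1) →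
      ∃ x ∈ Ω, Φ x = 0 := by
  obtain ⟨e, ψ', hfac, hψ'0, hcoef⟩ := factor hψ0
  have hEpos : (0 : ℝ) < 2 * E := by
    have : (1 : ℝ) ≤ E := by exact_mod_cast hE
    linarith
  -- the equation for `ψ'`
  have hcrit' : ∀ (u : ℝ) (x : Fin K → ℝ), 0 < u → x ∈ Ω →
      (∀ y ∈ Ω, u * Φ x + nrm E x ≤ u * Φ y + nrm E y) → Φ x < 1 →
      ev ψ' (2 * E / u) (u * Φ x + nrm E x) = 0 := by
    intro u x hu hx hmin hlt
    have h1 := hcrit u x hu hx hmin hlt
    rw [hfac, ev_mul_X_pow] at h1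
    rcases mul_eq_zero.mp h1 with h2 | h2
    · exact absurd h2 (pow_ne_zero _ (div_pos hEpos hu).ne')
    · exact h2
  constructor
  · rintro ⟨x0, hx0, hΦ0⟩
    have hex : ∀ n : ℕ, ∃ x ∈ Ω, ∀ y ∈ Ω,
        (nrm E x0 + 1 + n) * Φ x + nrm E x ≤ (nrm E x0 + 1 + n) * Φ y + nrm E y := fun n =>
      exists_min hE hc h0 hΩ ⟨x0, hx0⟩ (by have := nrm_nonneg (E := E) x0; positivity)
    choose x hx hmin using hex
    have hW : ∀ n : ℕ, (nrm E x0 + 1 + n) * Φ (x n) + nrm E (x n) ≤ nrm E x0 := by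
      intro n
      have := hmin n x0 hx0
      rw [hΦ0] at this
      simpa using this
    have hpos : ∀ n : ℕ, 0 < nrm E x0 + 1 + (n : ℝ) := fun n => by
      have := nrm_nonneg (E := E) x0
      positivity
    have hN : ∀ n, nrm E (x n) ≤ nrm E x0 := by
      intro n
      have h1 := hW n
      have h2 := mul_nonneg (hpos n).le (h0 (x n))
      linarith
    have hΦn : ∀ n : ℕ, Φ (x n) ≤ nrm E x0 / (nrm E x0 + 1 + n) := by
      intro n
      rw [le_div_iff₀ (hpos n)]
      have h1 := hW n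
      have h2 := nrm_nonneg (E := E) (x n)
      linarith
    obtain ⟨a, ha, φ, hφ, hlim, hΦa⟩ := limit_point hE hc h0 hΩ hx hN hΦn
    refine ⟨a, ha, hΦa, ?_⟩
    -- the values `W n` tend to `nrm E a`
    have h1 : Tendsto (fun n : ℕ => nrm E (x (φ n))) atTop (𝓝 (nrm E a)) :=
      (nrm_cont.tendsto a).comp hlim
    have h2 : Tendsto (fun n : ℕ =>
        (nrm E x0 + 1 + (φ n : ℝ)) * Φ (x (φ n)) + nrm E (x (φ n))) atTop (𝓝 (nrm E a)) := by
      refine tendsto_of_tendsto_of_tendsto_of_le_of_le h1 tendsto_const_nhds ?_ ?_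
      · intro n
        have := mul_nonneg (hpos (φ n)).le (h0 (x (φ n)))
        simp only
        linarith
      · intro n
        have := hmin (φ n) a ha
        rw [hΦa] at this
        simpa using this
    have h3 : Tendsto (fun n : ℕ => 2 * (E : ℝ) / (nrm E x0 + 1 + (φ n : ℝ))) atTop (𝓝 0) :=
      (Tendsto.div_atTop tendsto_const_nhds
        (tendsto_atTop_add_const_left _ _ tendsto_natCast_atTop_atTop)).comp hφ.tendsto_atTop
    have h4 : Tendsto (fun n : ℕ => ev ψ' (2 * (E : ℝ) / (nrm E x0 + 1 + (φ n : ℝ)))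
        ((nrm E x0 + 1 + (φ n : ℝ)) * Φ (x (φ n)) + nrm E (x (φ n)))) atTop
        (𝓝 (ev ψ' 0 (nrm E a))) :=
      ((ev_cont (ψ := ψ')).tendsto (0, nrm E a)).comp (h3.prodMk_nhds h2)
    have h5 : ∀ n : ℕ, ev ψ' (2 * (E : ℝ) / (nrm E x0 + 1 + (φ n : ℝ)))
        ((nrm E x0 + 1 + (φ n : ℝ)) * Φ (x (φ n)) + nrm E (x (φ n))) = 0 := by
      intro n
      refine hcrit' _ _ (hpos (φ n)) (hx (φ n)) (hmin (φ n)) ?_
      refine lt_of_le_of_lt (hΦn (φ n)) ?_
      rw [div_lt_one (hpos (φ n))]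
      have : (0 : ℝ) ≤ (φ n : ℝ) := Nat.cast_nonneg _
      linarith
    simp only [h5] at h4
    have h6 : ev ψ' 0 (nrm E a) = 0 := tendsto_nhds_unique h4 tendsto_const_nhds
    rw [ev_zero] at h6
    have h7 := root_bound hψ'0 h6
    refine le_trans (le_abs_self _) (le_trans h7 ?_)
    rw [hcoef]
    exact_mod_cast le_trans (l1_nonneg_le _) hnorm
  · rintro C ⟨x0, hx0, hN0, hΦ0⟩
    have hne : Ω.Nonempty := ⟨x0, hx0⟩
    have hΨ1 : (1 : ℝ) ≤ Ψ := by
      have h1 := one_le_l1 hψ'0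
      rw [hcoef] at h1
      exact_mod_cast le_trans h1 (le_trans (l1_nonneg_le _) hnorm)
    set u0 : ℝ := 2 * E * Ψ * (C + nB + 2) ^ nB + (C + nB + 3) with hu0
    have hpow1 : (1 : ℝ) ≤ ((C : ℝ) + nB + 2) ^ nB := by
      refine one_le_pow₀ ?_
      have : (0 : ℝ) ≤ C := Nat.cast_nonneg _
      have : (0 : ℝ) ≤ nB := Nat.cast_nonneg _
      linarith
    have hC0 : (0 : ℝ) ≤ C := Nat.cast_nonneg _
    have hnB0 : (0 : ℝ) ≤ nB := Nat.cast_nonneg _
    have hprod0 : 0 < 2 * (E : ℝ) * Ψ * (C + nB + 2) ^ nB := by positivity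
    have hu0pos : 0 < u0 := by rw [hu0]; linarith
    -- minimisers
    have hex : ∀ u : ℝ, ∃ x : Fin K → ℝ, 0 < u → x ∈ Ω ∧
        ∀ y ∈ Ω, u * Φ x + nrm E x ≤ u * Φ y + nrm E y := by
      intro u
      by_cases hu : 0 < u
      · obtain ⟨x, hx, hm⟩ := exists_min hE hc h0 hΩ hne hu
        exact ⟨x, fun _ => ⟨hx, hm⟩⟩
      · exact ⟨x0, fun h => absurd h hu⟩
    choose x hx' using hex
    have hx : ∀ u, 0 < u → x u ∈ Ω := fun u hu => (hx' u hu).1
    have hmin : ∀ u, 0 < u → ∀ y ∈ Ω, u * Φ (x u) + nrm E (x u) ≤ u * Φ y + nrm E y :=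
      fun u hu => (hx' u hu).2
    set W : ℝ → ℝ := fun u => u * Φ (x u) + nrm E (x u) with hW
    have hWmono : ∀ u v, 0 < u → u ≤ v → W u ≤ W v := by
      intro u v hu huv
      have h1 := hmin u hu (x v) (hx v (lt_of_lt_of_le hu huv))
      have h2 := mul_le_mul_of_nonneg_right huv (h0 (x v))
      simp only [hW]
      linarith
    have hΦle : ∀ u, 0 < u → Φ (x u) ≤ W u / u := by
      intro u hu
      rw [le_div_iff₀ hu]
      have := nrm_nonneg (E := E) (x u)
      simp only [hW]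
      linarith
    have hWstep : ∀ u v, 0 < u → u ≤ v → W v ≤ W u + (v - u) * Φ (x u) := by
      intro u v hu huv
      have h1 := hmin v (lt_of_lt_of_le hu huv) (x u) (hx u hu)
      simp only [hW]
      linarith
    have hWcont : ∀ b, u0 ≤ b → ContinuousOn W (Set.Icc u0 b) := by
      intro b hb
      have hbpos : 0 < b := lt_of_lt_of_le hu0pos hb
      have hWb : 0 ≤ W b := by
        simp only [hW]
        have := nrm_nonneg (E := E) (x b)
        have := mul_nonneg hbpos.le (h0 (x b))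
        linarith
      have hlip : LipschitzOnWith (Real.toNNReal (W b / u0)) W (Set.Icc u0 b) := by
        refine LipschitzOnWith.of_dist_le_mul ?_
        have key : ∀ u v, u ∈ Set.Icc u0 b → v ∈ Set.Icc u0 b → u ≤ v →
            dist (W u) (W v) ≤ W b / u0 * dist u v := by
          intro u v hu hv huv
          have hupos : 0 < u := lt_of_lt_of_le hu0pos hu.1
          have h1 := hWmono u v hupos huv
          have h2 := hWstep u v hupos huv
          have h3 : Φ (x u) ≤ W b / u0 := by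
            refine le_trans (hΦle u hupos) ?_
            have h4 := hWmono u b hupos hu.2
            exact div_le_div₀ hWb h4 hu0pos hu.1
          rw [Real.dist_eq, Real.dist_eq, abs_sub_comm, abs_of_nonneg (by linarith),
            abs_sub_comm, abs_of_nonneg (by linarith)]
          have h5 := mul_le_mul_of_nonneg_left h3 (sub_nonneg.mpr huv)
          linarith
        intro u hu v hv
        rw [Real.coe_toNNReal _ (div_nonneg hWb hu0pos.le)]
        rcases le_total u v with h | h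
        · exact key u v hu hv h
        · rw [dist_comm (W u), dist_comm u]
          exact key v u hv hu h
      exact hlip.continuousOn
    -- the value at `u0`
    have hW0 : W u0 ≤ C + 1 := by
      have h1 := hmin u0 hu0pos x0 hx0
      have h2 : u0 * Φ x0 ≤ 1 := by rw [mul_comm]; exact hΦ0
      simp only [hW]
      linarith
    obtain ⟨m, hm1, hm2, hm3⟩ := exists_nonroot hψ'0
      (n := nB) (by rw [hcoef]; exact hdeg _) (C + 2)
    have hm1' : (C : ℝ) + 2 ≤ m := by exact_mod_cast hm1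
    have hm2' : (m : ℝ) ≤ C + 2 + nB := by exact_mod_cast hm2
    have hWle : ∀ u, u0 ≤ u → W u ≤ m := by
      intro u hu
      by_contra hcon
      push Not at hcon
      have hmem : (m : ℝ) ∈ Set.Icc (W u0) (W u) := ⟨by linarith, hcon.le⟩
      obtain ⟨u1, hu1, hWu1⟩ := intermediate_value_Icc hu (hWcont u hu) hmem
      have hu1pos : 0 < u1 := lt_of_lt_of_le hu0pos hu1.1
      have hΦ1 : Φ (x u1) < 1 := by
        refine lt_of_le_of_lt (hΦle u1 hu1pos) ?_
        rw [hWu1, div_lt_one hu1pos]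
        have := hu1.1
        rw [hu0] at this
        linarith
      have h1 := hcrit' u1 (x u1) hu1pos (hx u1 hu1pos) (hmin u1 hu1pos) hΦ1
      have h2 : u1 * Φ (x u1) + nrm E (x u1) = m := hWu1
      rw [h2, ev_sum, Finset.sum_range_succ', pow_zero, mul_one] at h1
      set X : ℝ := 2 * E / u1 with hX
      have hXpos : 0 < X := div_pos hEpos hu1pos
      have hX1 : X ≤ 1 := by
        rw [hX, div_le_one hu1pos]
        refine le_trans ?_ hu1.1
        rw [hu0]
        have : 2 * (E : ℝ) ≤ 2 * E * Ψ * (C + nB + 2) ^ nB := by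
          calc 2 * (E : ℝ) = 2 * E * 1 * 1 := by ring
            _ ≤ 2 * E * Ψ * (C + nB + 2) ^ nB := by gcongr
        linarith
      have hmw : (1 : ℝ) ≤ m := by linarith
      have h3 : 1 ≤ |Polynomial.aeval ((m : ℤ) : ℝ) (ψ'.coeff 0)| := one_le_aeval hm3
      have hcast : ((m : ℤ) : ℝ) = (m : ℝ) := by push_cast; rfl
      rw [hcast] at h3
      have h4 : |Polynomial.aeval (m : ℝ) (ψ'.coeff 0)| ≤
          ∑ i ∈ Finset.range ψ'.natDegree, X * (l1 (ψ'.coeff (i + 1)) * (m : ℝ) ^ nB) := by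
        have h5 : Polynomial.aeval (m : ℝ) (ψ'.coeff 0) =
            -∑ i ∈ Finset.range ψ'.natDegree,
              Polynomial.aeval (m : ℝ) (ψ'.coeff (i + 1)) * X ^ (i + 1) := by linarith
        rw [h5, abs_neg]
        refine le_trans (Finset.abs_sum_le_sum_abs _ _) (Finset.sum_le_sum fun i _ => ?_)
        rw [abs_mul, abs_of_nonneg (pow_nonneg hXpos.le _)]
        have h6 : X ^ (i + 1) ≤ X := by
          rw [pow_succ]
          have := pow_le_one₀ hXpos.le hX1 (n := i)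
          nlinarith
        have h7 := aeval_bound (p := ψ'.coeff (i + 1)) (n := nB)
          (by rw [hcoef]; exact hdeg _) hmw
        rw [mul_comm X]
        exact mul_le_mul h7 h6 (pow_nonneg hXpos.le _) (by positivity)
      have h8 : ∑ i ∈ Finset.range ψ'.natDegree, X * (l1 (ψ'.coeff (i + 1)) * (m : ℝ) ^ nB) ≤
          X * (Ψ * (C + nB + 2) ^ nB) := by
        rw [← Finset.mul_sum, ← Finset.sum_mul]
        refine mul_le_mul_of_nonneg_left ?_ hXpos.le
        refine mul_le_mul ?_ ?_ (by positivity) (Nat.cast_nonneg _)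
        · have h9 : ∑ i ∈ Finset.range ψ'.natDegree, l1 (ψ'.coeff (i + 1)) ≤ l11 ψ := by
            have h10 : ∑ i ∈ Finset.range ψ'.natDegree, l1 (ψ'.coeff (i + 1)) =
                ∑ j ∈ (Finset.range ψ'.natDegree).image (fun i => i + 1 + e),
                  l1 (ψ.coeff j) := by
              rw [Finset.sum_image (by intro a _ b _ hab; simp only at hab; omega)]
              exact Finset.sum_congr rfl fun i _ => by rw [hcoef]
            rw [h10]
            unfold l11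
            rw [← Finset.sum_filter_add_sum_filter_not
              ((Finset.range ψ'.natDegree).image (fun i => i + 1 + e)) (fun j => j ∈ ψ.support)]
            have h11 : ∑ j ∈ ((Finset.range ψ'.natDegree).image (fun i => i + 1 + e)).filter
                (fun j => ¬ j ∈ ψ.support), l1 (ψ.coeff j) = 0 := by
              refine Finset.sum_eq_zero fun j hj => ?_
              rw [Polynomial.notMem_support_iff.mp (Finset.mem_filter.mp hj).2]
              simp [l1]
            rw [h11, add_zero]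
            exact Finset.sum_le_sum_of_subset fun j hj => (Finset.mem_filter.mp hj).2
          exact_mod_cast le_trans h9 hnorm
        · exact pow_le_pow_left₀ (by positivity) (by linarith) _
      have h12 : X * (Ψ * (C + nB + 2) ^ nB) < 1 := by
        rw [hX, div_mul_eq_mul_div, div_lt_one hu1pos]
        have := hu1.1
        rw [hu0] at this
        nlinarith
      linarith
    -- compactness
    have hposn : ∀ n : ℕ, 0 < u0 + (n : ℝ) := fun n => by positivity
    obtain ⟨a, ha, φ, hφ, hlim, hΦa⟩ := limit_point (Φ := Φ) (x := fun n : ℕ => x (u0 + n))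
      (M := (m : ℝ)) (u0 := u0) hE hc h0 hΩ (fun n => hx _ (hposn n))
      (fun n => by
        have h1 := hWle (u0 + n) (by have : (0 : ℝ) ≤ (n : ℝ) := Nat.cast_nonneg _; linarith)
        have h2 := mul_nonneg (hposn n).le (h0 (x (u0 + n)))
        simp only [hW] at h1
        linarith)
      (fun n => by
        refine le_trans (hΦle _ (hposn n)) ?_
        have h1 := hWle (u0 + n) (by have : (0 : ℝ) ≤ (n : ℝ) := Nat.cast_nonneg _; linarith)
        exact div_le_div_of_nonneg_right h1 (hposn n).le)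
    exact ⟨a, ha, hΦa⟩

end Pool.Agent.Lib.UPSlopes
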