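import Pool.Agent.Lib.MP_17af9c_lc.Trans
import Pool.Agent.Lib.MP_51356b_lc.Defs
import Pool.Agent.Lib.PolyTime.IntBin
import Pool.Agent.Lib.PolyTime.Bridge

/-!
# Polynomial-time verifiers with typed witnesses
-/

set_option linter.unusedSimpArgs false

namespace Pool.Agent.Lib.UPSlopes

open Turing Pool.Agent.Lib.PolyTime

namespace NPT

/-- The list of trees of a tree. -/
def listT : T → List T
  | .nil => []
  | .node a b => a :: listT b

theorem enc_listT (t : T) : enc (listT t) = t := by
  induction t with
  | nil => rfl
  | node a b _ ih => exact congrArg (T.node a) ih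

theorem listT_enc {β : Type*} [TEnc β] (l : List β) : listT (enc l) = l.map enc := by
  induction l with
  | nil => rfl
  | cons a l ih => exact congrArg (List.cons (enc a)) ih

theorem polyF_listT {α : Type*} [TEnc α] {f : α → T} (hf : PolyF f) :
    PolyF (fun x => listT (f x)) :=
  hf.of_enc (fun x => x) (fun _ => rfl) fun _ => enc_listT _

/-- Types with a total polynomial-time decoder from trees. -/
class TDec (α : Type) [TEnc α] : Type where
  /-- the decoder -/
  dec : T → α
  poly : PolyF dec
  dec_enc : ∀ a, dec (enc a) = a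

theorem TDec.polyF {α β : Type} [TEnc α] [TEnc β] [TDec β] {f : α → T} (hf : PolyF f) :
    PolyF (fun x => (TDec.dec (f x) : β)) := TDec.poly.comp hf

instance : TDec Bool where
  dec t := !(listT t).isEmpty
  poly := (polyF_listT PolyF.id).isEmpty.not
  dec_enc b := by cases b <;> rfl

instance : TDec ℕ where
  dec t := (listT t).length
  poly := (polyF_listT PolyF.id).length
  dec_enc n := by
    show (listT (T.unary n)).length = n
    induction n with
    | zero => rfl
    | succ n ih => exact congrArg (· + 1) ih

instance {α β : Type} [TEnc α] [TEnc β] [TDec α] [TDec β] : TDec (α × β) where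
  dec t := (TDec.dec t.left, TDec.dec t.right)
  poly := (TDec.polyF PolyF.left).pair (TDec.polyF PolyF.right)
  dec_enc a := by
    show (TDec.dec (enc a.1), TDec.dec (enc a.2)) = a
    rw [TDec.dec_enc, TDec.dec_enc]

instance {α : Type} [TEnc α] [TDec α] : TDec (List α) where
  dec t := (listT t).map TDec.dec
  poly := (polyF_listT PolyF.id).map (h := fun _ e => TDec.dec e) (TDec.polyF PolyF.snd')
  dec_enc l := by
    rw [listT_enc, List.map_map]
    conv_rhs => rw [← List.map_id l]
    exact List.map_congr_left fun a _ => TDec.dec_enc a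

instance : TDec Bin where
  dec t := ⟨bval (TDec.dec t)⟩
  poly := PolyF.ofBits TDec.poly
  dec_enc n := by
    show (⟨bval (TDec.dec (enc (Nat.bits n.val)))⟩ : Bin) = n
    rw [TDec.dec_enc, bval_bits]

instance : TDec NBin where
  dec t := (TDec.dec t : Bin).val
  poly := PolyF.ofBin (TDec.polyF PolyF.id)
  dec_enc n := by
    show (TDec.dec (enc (⟨n⟩ : Bin)) : Bin).val = n
    rw [TDec.dec_enc]

instance : TDec ℤ where
  dec t := if (TDec.dec t : Bool × Bin).1 = true then -((TDec.dec t : Bool × Bin).2.val : ℤ)
    else ((TDec.dec t : Bool × Bin).2.val : ℤ)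
  poly := by
    have h : PolyF (fun t : T => (TDec.dec t : Bool × Bin)) := TDec.poly
    exact PolyF.iteBool h.fst h.snd.intOfBin.intNeg h.snd.intOfBin
  dec_enc z := by
    show (if (TDec.dec (enc (decide (z < 0), (⟨z.natAbs⟩ : Bin))) : Bool × Bin).1 = true then
      -((TDec.dec (enc (decide (z < 0), (⟨z.natAbs⟩ : Bin))) : Bool × Bin).2.val : ℤ)
      else ((TDec.dec (enc (decide (z < 0), (⟨z.natAbs⟩ : Bin))) : Bool × Bin).2.val : ℤ)) = z
    rw [TDec.dec_enc]
    simp only [decide_eq_true_eq]
    split_ifs with h
    · omega
    · omega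

theorem splitW_pairWord (a : List Bool × List Bool) :
    SubForests.splitW (CookLevin.pairWord a ++ [none]) = [a.1, a.2] := by
  have : CookLevin.pairWord a ++ [none] = SubForests.tupleWord [a.1, a.2] := by
    simp [CookLevin.pairWord, SubForests.tupleWord]
  rw [this, SubForests.splitW_tupleWord]

/-- Sets with short typed witnesses which can be verified in polynomial time are in NP. -/
theorem np_of_polyF {γ : Type} [TEnc γ] [TDec γ] {A : Set (List Bool)}
    {R : List Bool × γ → Bool} (hR : PolyF R) (B : Polynomial ℕ)
    (h1 : ∀ x ∈ A, ∃ g, R (x, g) = true ∧ sz g ≤ B.eval x.length)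
    (h2 : ∀ x g, R (x, g) = true → x ∈ A) : NP A := by
  have hV : PolyF (fun u : List Bool × List Bool => R (u.1, TDec.dec (SubForests.parseT u.2))) :=
    hR.comp (PolyF.fst'.pair (TDec.polyF (SubForests.polyF_parseT PolyF.snd')))
  refine ⟨2 * B + 1, fun u => R (u.1, TDec.dec (SubForests.parseT u.2)), ?_, fun x => ?_⟩
  · have hs : PolyF (fun u : List (Option Bool) => SubForests.splitW (u ++ [none])) :=
      SubForests.polyF_splitW (PolyF.id.append (PolyF.const _))
    have h1 : PolyF (fun u : List (Option Bool) =>
        ((SubForests.splitW (u ++ [none])).headD [],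
          (SubForests.splitW (u ++ [none])).tail.headD [])) :=
      (hs.headD (PolyF.const _)).pair (hs.tail.headD (PolyF.const _))
    refine PolyF.tm2_bool (hV.comp h1) fun a => ?_
    rw [splitW_pairWord]
    rfl
  · constructor
    · intro hx
      obtain ⟨g, hg, hsz⟩ := h1 x hx
      refine ⟨wd false true g, ?_, ?_⟩
      · rw [length_wd, Polynomial.eval_add, Polynomial.eval_mul, Polynomial.eval_one,
          Polynomial.eval_ofNat]
        omega
      · show R (x, TDec.dec (SubForests.parseT (wd false true g))) = true
        rw [SubForests.parseT_wd, TDec.dec_enc]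
        exact hg
    · rintro ⟨w, -, hw⟩
      exact h2 _ _ hw

end NPT

end Pool.Agent.Lib.UPSlopes
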