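import Pool.Agent.Lib.MP_51356b_lc.Bounds

/-!
# The polynomials of a parametric system
-/

namespace Pool.Agent.Lib.UPSlopes

open Finset MvPolynomial

section

variable {ι κ : Type} {k : ℕ} [Fintype κ] [DecidableEq κ]

/-- the entry of the row as a polynomial in the parameters -/
noncomputable def pA (a0 : ι → κ → ℤ) (a : Fin k → ι → κ → ℤ) (r : ι) (c : κ) :
    MvPolynomial (Fin k) ℤ := C (a0 r c) + ∑ i, X i * C (a i r c)

/-- the matrix of the basis `ρ` -/
noncomputable def pM (a0 : ι → κ → ℤ) (a : Fin k → ι → κ → ℤ) (ρ : κ → ι) :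
    Matrix κ κ (MvPolynomial (Fin k) ℤ) := Matrix.of fun t c => pA a0 a (ρ t) c

/-- the numerators of the solution -/
noncomputable def pv (a0 : ι → κ → ℤ) (a : Fin k → ι → κ → ℤ) (τ : ι → ℤ) (ρ : κ → ι) (c : κ) :
    MvPolynomial (Fin k) ℤ := ∑ t, (pM a0 a ρ).adjugate c t * C (τ (ρ t))

/-- the numerators of the values of the rows -/
noncomputable def pH (a0 : ι → κ → ℤ) (a : Fin k → ι → κ → ℤ) (τ : ι → ℤ) (ρ : κ → ι) (r : ι) :
    MvPolynomial (Fin k) ℤ := ∑ c, pA a0 a r c * pv a0 a τ ρ c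

variable (a0 : ι → κ → ℤ) (a : Fin k → ι → κ → ℤ) (τ : ι → ℤ)

omit [Fintype κ] [DecidableEq κ] in
theorem aeval_pA (s : Fin k → ℝ) (r : ι) (c : κ) :
    aeval s (pA a0 a r c) = (a0 r c : ℝ) + ∑ i, s i * a i r c := by
  unfold pA
  simp

omit [Fintype κ] [DecidableEq κ] in
theorem pA_deg (r : ι) (c : κ) : (pA a0 a r c).totalDegree ≤ 1 := by
  unfold pA
  refine (totalDegree_add _ _).trans (max_le ?_ ?_)
  · rw [totalDegree_C]; exact Nat.zero_le _
  · refine totalDegree_finsetSum_le (fun i _ => ?_)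
    refine (totalDegree_mul _ _).trans ?_
    rw [totalDegree_X, totalDegree_C]

omit [Fintype κ] [DecidableEq κ] in
theorem pA_l (r : ι) (c : κ) : mvl (pA a0 a r c) ≤ (a0 r c).natAbs + ∑ i, (a i r c).natAbs := by
  unfold pA
  refine (Mag.int.mval_add _ _).trans (Nat.add_le_add ?_ ?_)
  · rw [C_apply]
    exact Mag.int.mval_monomial_le _ _
  · refine (Mag.int.mval_sum _ _).trans (Finset.sum_le_sum (fun i _ => ?_))
    refine (Mag.int.mval_mul _ _).trans ?_
    have h1 : Mag.int.mval (X i : MvPolynomial (Fin k) ℤ) ≤ 1 := Mag.int.mval_monomial_le _ _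
    have h2 : Mag.int.mval (C (a i r c) : MvPolynomial (Fin k) ℤ) ≤ (a i r c).natAbs := by
      rw [C_apply]
      exact Mag.int.mval_monomial_le _ _
    calc _ ≤ 1 * (a i r c).natAbs := Nat.mul_le_mul h1 h2
      _ = _ := one_mul _

theorem det_deg {n : Type*} [Fintype n] [DecidableEq n]
    (A : Matrix n n (MvPolynomial (Fin k) ℤ)) (h : ∀ i j, (A i j).totalDegree ≤ 1) :
    A.det.totalDegree ≤ Fintype.card n := by
  rw [Matrix.det_apply]
  refine totalDegree_finsetSum_le (fun σ _ => ?_)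
  have h1 : (∏ i, A (σ i) i).totalDegree ≤ Fintype.card n := by
    refine (totalDegree_finsetProd _ _).trans ?_
    refine (Finset.sum_le_card_nsmul _ _ 1 (fun j _ => h _ _)).trans ?_
    rw [Finset.card_univ, smul_eq_mul, mul_one]
  rcases Int.units_eq_one_or (Equiv.Perm.sign σ) with h2 | h2
  · rw [h2, one_smul]; exact h1
  · rw [h2, Units.neg_smul, one_smul, totalDegree_neg]; exact h1

variable {a0 a τ}

variable {L : ℕ} (hn : Fintype.card κ ≤ L)
  (hl : ∀ r, ∑ c, ((a0 r c).natAbs + ∑ i, (a i r c).natAbs) ≤ L)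
  (hτ : ∀ r, τ r = 0 ∨ τ r = 1 ∨ τ r = -1)

include hn

theorem pΔ_deg (ρ : κ → ι) : (pM a0 a ρ).det.totalDegree ≤ L :=
  (det_deg _ (fun _ _ => pA_deg _ _ _ _)).trans hn

theorem padj_deg (ρ : κ → ι) (c t : κ) : ((pM a0 a ρ).adjugate c t).totalDegree ≤ L := by
  rw [Matrix.adjugate_apply]
  refine (det_deg _ (fun i j => ?_)).trans hn
  rw [Matrix.updateRow_apply]
  split_ifs with h1
  · rw [Pi.single_apply]
    split_ifs <;> simp
  · exact pA_deg _ _ _ _

theorem pv_deg (ρ : κ → ι) (c : κ) : (pv a0 a τ ρ c).totalDegree ≤ L := by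
  unfold pv
  refine totalDegree_finsetSum_le (fun t _ => ?_)
  refine (totalDegree_mul _ _).trans ?_
  rw [totalDegree_C, add_zero]
  exact padj_deg hn ρ c t

theorem pH_deg (ρ : κ → ι) (r : ι) : (pH a0 a τ ρ r).totalDegree ≤ L + 1 := by
  unfold pH
  refine totalDegree_finsetSum_le (fun t _ => ?_)
  refine (totalDegree_mul _ _).trans ?_
  have h1 := pA_deg a0 a r t
  have h2 := pv_deg (a0 := a0) (a := a) (τ := τ) hn ρ t
  omega

include hl

theorem pΔ_l (ρ : κ → ι) : mvl (pM a0 a ρ).det ≤ (L + 1) ^ L := by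
  refine ((Mag.int.mv (Fin k)).det_le _).trans ?_
  refine (Finset.prod_le_pow_card _ _ (L + 1) (fun t _ => ?_)).trans ?_
  · refine (Finset.sum_le_sum (fun c _ => pA_l a0 a (ρ t) c)).trans ?_
    exact (hl _).trans (Nat.le_succ L)
  · rw [Finset.card_univ]
    exact Nat.pow_le_pow_right (Nat.succ_pos L) hn

theorem padj_l (ρ : κ → ι) (c t : κ) : mvl ((pM a0 a ρ).adjugate c t) ≤ (L + 1) ^ L := by
  rw [Matrix.adjugate_apply]
  refine ((Mag.int.mv (Fin k)).det_le _).trans ?_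
  refine (Finset.prod_le_pow_card _ _ (L + 1) (fun i _ => ?_)).trans ?_
  · by_cases hi : i = t
    · subst hi
      have h1 : ∀ j, (Mag.int.mv (Fin k)).val
          (((pM a0 a ρ).updateRow i (Pi.single c 1)) i j) ≤ if j = c then 1 else 0 := by
        intro j
        rw [Matrix.updateRow_self, Pi.single_apply]
        split_ifs
        · exact (Mag.int.mv (Fin k)).one
        · exact (Mag.int.mv (Fin k)).zero.le
      refine (Finset.sum_le_sum (fun j _ => h1 j)).trans ?_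
      rw [Finset.sum_ite_eq' Finset.univ c (fun _ => 1), if_pos (Finset.mem_univ _)]
      omega
    · have h1 : ∀ j, (Mag.int.mv (Fin k)).val
          (((pM a0 a ρ).updateRow t (Pi.single c 1)) i j) ≤
          ((a0 (ρ i) j).natAbs + ∑ i', (a i' (ρ i) j).natAbs) := by
        intro j
        rw [Matrix.updateRow_ne hi]
        exact pA_l a0 a (ρ i) j
      refine (Finset.sum_le_sum (fun j _ => h1 j)).trans ?_
      exact (hl _).trans (Nat.le_succ L)
  · rw [Finset.card_univ]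
    exact Nat.pow_le_pow_right (Nat.succ_pos L) hn

include hτ

theorem pv_l (ρ : κ → ι) (c : κ) : mvl (pv a0 a τ ρ c) ≤ (L + 1) ^ (L + 1) := by
  unfold pv
  refine (Mag.int.mval_sum _ _).trans ?_
  refine (Finset.sum_le_card_nsmul _ _ ((L + 1) ^ L) (fun t _ => ?_)).trans ?_
  · refine (Mag.int.mval_mul _ _).trans ?_
    have h1 : Mag.int.mval (C (τ (ρ t)) : MvPolynomial (Fin k) ℤ) ≤ 1 := by
      rw [C_apply]
      refine (Mag.int.mval_monomial_le _ _).trans ?_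
      show (τ (ρ t)).natAbs ≤ 1
      rcases hτ (ρ t) with h | h | h <;> rw [h] <;> decide
    calc _ ≤ (L + 1) ^ L * 1 := Nat.mul_le_mul (padj_l hn hl ρ c t) h1
      _ = _ := mul_one _
  · rw [Finset.card_univ, smul_eq_mul, pow_succ, mul_comm]
    exact Nat.mul_le_mul_left _ (hn.trans (Nat.le_succ L))

theorem pH_l (ρ : κ → ι) (r : ι) : mvl (pH a0 a τ ρ r) ≤ (L + 1) ^ (L + 2) := by
  unfold pH
  refine (Mag.int.mval_sum _ _).trans ?_
  have h1 : ∀ c, Mag.int.mval (pA a0 a r c * pv a0 a τ ρ c) ≤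
      ((a0 r c).natAbs + ∑ i, (a i r c).natAbs) * (L + 1) ^ (L + 1) := fun c =>
    (Mag.int.mval_mul _ _).trans (Nat.mul_le_mul (pA_l a0 a r c) (pv_l hn hl hτ ρ c))
  refine (Finset.sum_le_sum (fun c _ => h1 c)).trans ?_
  rw [← Finset.sum_mul, pow_succ (L + 1) (L + 1), mul_comm]
  exact Nat.mul_le_mul_left _ ((hl r).trans (Nat.le_succ L))

end

/-! ### values -/

section

variable {ι κ : Type} {k : ℕ} [Fintype κ] [DecidableEq κ]
variable (a0 : ι → κ → ℤ) (a : Fin k → ι → κ → ℤ) (τ : ι → ℤ)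

/-- the matrix of the basis at the parameters `s` -/
noncomputable def rM (s : Fin k → ℝ) (ρ : κ → ι) : Matrix κ κ ℝ :=
  Matrix.of fun t c => (a0 (ρ t) c : ℝ) + ∑ i, s i * a i (ρ t) c

theorem map_pM (s : Fin k → ℝ) (ρ : κ → ι) :
    (aeval s : MvPolynomial (Fin k) ℤ →ₐ[ℤ] ℝ).mapMatrix (pM a0 a ρ) = rM a0 a s ρ := by
  ext t c
  simp only [AlgHom.mapMatrix_apply, Matrix.map_apply, pM, rM, Matrix.of_apply]
  exact aeval_pA a0 a s (ρ t) c

theorem aeval_pΔ (s : Fin k → ℝ) (ρ : κ → ι) :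
    aeval s (pM a0 a ρ).det = (rM a0 a s ρ).det := by
  rw [AlgHom.map_det, map_pM]

theorem aeval_padj (s : Fin k → ℝ) (ρ : κ → ι) (c t : κ) :
    aeval s ((pM a0 a ρ).adjugate c t) = (rM a0 a s ρ).adjugate c t := by
  rw [← map_pM, ← AlgHom.map_adjugate]
  rfl

theorem aeval_pv (s : Fin k → ℝ) (ρ : κ → ι) (c : κ) :
    aeval s (pv a0 a τ ρ c) = ((rM a0 a s ρ).adjugate.mulVec (fun t => (τ (ρ t) : ℝ))) c := by
  unfold pv
  simp only [map_sum, map_mul, Matrix.mulVec, dotProduct, aeval_padj, aeval_C]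
  simp

theorem aeval_pH (s : Fin k → ℝ) (ρ : κ → ι) (r : ι) :
    aeval s (pH a0 a τ ρ r) = ∑ c, ((a0 r c : ℝ) + ∑ i, s i * a i r c) *
      ((rM a0 a s ρ).adjugate.mulVec (fun t => (τ (ρ t) : ℝ))) c := by
  unfold pH
  simp only [map_sum, map_mul, aeval_pA, aeval_pv]

/-- values of the rows at a basic solution -/
theorem row_basic (s : Fin k → ℝ) (ρ : κ → ι) (z : κ → ℝ)
    (hz : ∀ t, ∑ c, ((a0 (ρ t) c : ℝ) + ∑ i, s i * a i (ρ t) c) * z c = τ (ρ t)) (r : ι) :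
    (rM a0 a s ρ).det * ∑ c, ((a0 r c : ℝ) + ∑ i, s i * a i r c) * z c =
      aeval s (pH a0 a τ ρ r) := by
  have h1 : (rM a0 a s ρ).mulVec z = fun t => (τ (ρ t) : ℝ) := by
    funext t
    simp only [Matrix.mulVec, dotProduct, rM, Matrix.of_apply]
    exact hz t
  rw [aeval_pH, ← h1, Matrix.mulVec_mulVec, Matrix.adjugate_mul, Finset.mul_sum]
  refine Finset.sum_congr rfl (fun c _ => ?_)
  rw [Matrix.smul_mulVec, Matrix.one_mulVec]
  simp only [Pi.smul_apply, smul_eq_mul]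
  ring

/-- the basic solution -/
theorem basic_sol (s : Fin k → ℝ) (ρ : κ → ι) (hΔ : (rM a0 a s ρ).det ≠ 0) :
    ∃ z : κ → ℝ, ∀ t, ∑ c, ((a0 (ρ t) c : ℝ) + ∑ i, s i * a i (ρ t) c) * z c = τ (ρ t) := by
  refine ⟨fun c => (rM a0 a s ρ).det⁻¹ *
    ((rM a0 a s ρ).adjugate.mulVec (fun t => (τ (ρ t) : ℝ))) c, fun t => ?_⟩
  have h1 : (rM a0 a s ρ).mulVec ((rM a0 a s ρ).adjugate.mulVec (fun t => (τ (ρ t) : ℝ))) =
      (rM a0 a s ρ).det • (fun t => (τ (ρ t) : ℝ)) := by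
    rw [Matrix.mulVec_mulVec, Matrix.mul_adjugate, Matrix.smul_mulVec, Matrix.one_mulVec]
  have h2 := congrFun h1 t
  simp only [Pi.smul_apply, smul_eq_mul] at h2
  have h3 : ∑ c, ((a0 (ρ t) c : ℝ) + ∑ i, s i * a i (ρ t) c) *
      ((rM a0 a s ρ).adjugate.mulVec (fun t => (τ (ρ t) : ℝ))) c =
      (rM a0 a s ρ).det * τ (ρ t) := by
    rw [← h2]
    conv_rhs => rw [Matrix.mulVec, dotProduct]
    rfl
  calc _ = (rM a0 a s ρ).det⁻¹ * ∑ c, ((a0 (ρ t) c : ℝ) + ∑ i, s i * a i (ρ t) c) *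
      ((rM a0 a s ρ).adjugate.mulVec (fun t => (τ (ρ t) : ℝ))) c := by
        rw [Finset.mul_sum]
        refine Finset.sum_congr rfl (fun c _ => ?_)
        ring
    _ = _ := by rw [h3]; field_simp

end

end Pool.Agent.Lib.UPSlopes
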