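import Pool.Agent.Lib.MP_51356b_lc.BasicSol
import Pool.Agent.Lib.MP_51356b_lc.ParamPoly

/-!
# Parametric systems of linear sign conditions with a fixed number of parameters
-/

namespace Pool.Agent.Lib.UPSlopes

/-- A homogeneous system of linear sign conditions with rows `ι`, unknowns `κ` and `k`
parameters: the row `r` at the parameters `s` is `a0 r + ∑ s_i a i r`, and (if `r` is not free)
the sign of its value has to be `τ r`. -/
structure PSys (ι κ : Type) (k : ℕ) where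
  a0 : ι → κ → ℤ
  a : Fin k → ι → κ → ℤ
  τ : ι → ℤ
  free : Set ι

namespace PSys

variable {ι κ : Type} {k : ℕ} [Fintype ι] [Fintype κ] [DecidableEq κ]

/-- The value of the row `r` at the parameters `s` and the unknowns `z`. -/
noncomputable def row (I : PSys ι κ k) (s : Fin k → ℝ) (r : ι) (z : κ → ℝ) : ℝ :=
  ∑ c, ((I.a0 r c : ℝ) + ∑ i, s i * I.a i r c) * z c

def Solvable (I : PSys ι κ k) : Prop :=
  ∃ (s : Fin k → ℝ) (z : κ → ℝ), ∀ r, r ∉ I.free → sg (I.row s r z) = I.τ r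

/-- Well-formed systems of size at most `L`. -/
structure Ok (I : PSys ι κ k) (L : ℕ) : Prop where
  sign : ∀ r, I.τ r = 0 ∨ I.τ r = 1 ∨ I.τ r = -1
  free_zero : ∀ r ∈ I.free, I.τ r = 0
  unit : ∀ c, ∃ r ∈ I.free, I.a0 r = Pi.single c 1 ∧ ∀ i, I.a i r = 0
  card_rows : Fintype.card ι ≤ L
  card_cols : Fintype.card κ ≤ L
  norm : ∀ r, ∑ c, ((I.a0 r c).natAbs + ∑ i, (I.a i r c).natAbs) ≤ L

/-- The value of the row `r` at the parameters `Q / b` and the unknowns `z`, multiplied by `b`. -/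
def irow (I : PSys ι κ k) (b : ℤ) (Q : Fin k → ℤ) (r : ι) (z : κ → ℤ) : ℤ :=
  ∑ c, (b * I.a0 r c + ∑ i, Q i * I.a i r c) * z c

/-- The solution (up to a factor) of the equations `A (ρ t) ⬝ z = τ (ρ t)`. -/
def sol (I : PSys ι κ k) (ρ : κ → ι) (W : κ → κ → ℤ) (c : κ) : ℤ := ∑ t, I.τ (ρ t) * W t c

/-- Certificates: approximate parameters `Q / 2^B`, a basis `ρ` of rows with the (scaled) inverse
matrix `W`, and the approximate solution. -/
structure Cert (I : PSys ι κ k) (R P B : ℕ) (Q : Fin k → ℤ) (ρ : κ → ι) (W : κ → κ → ℤ)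
    (δ : ℤ) : Prop where
  pos : 0 < δ
  basis : ∀ t t', I.irow (2 ^ B) Q (ρ t) (W t') = if t = t' then δ else 0
  eq : ∀ r, r ∉ I.free → I.τ r = 0 → |I.irow (2 ^ B) Q r (I.sol ρ W)| * 2 ^ P ≤ δ
  ge : ∀ r, r ∉ I.free → I.τ r ≠ 0 → δ ≤ 2 ^ R * (I.τ r * I.irow (2 ^ B) Q r (I.sol ρ W))
  bdW : ∀ t c, |W t c| * 2 ^ B ≤ 2 ^ R * δ
  bdQ : ∀ i, |Q i| ≤ 2 ^ (B + R)

end PSys

/-! ### the relations between certificates and values of polynomials -/

section

open Finset MvPolynomial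

variable {ι κ : Type} {k : ℕ} [Fintype ι] [Fintype κ] [DecidableEq κ]

omit [Fintype ι] [DecidableEq κ] in
theorem irow_cast (I : PSys ι κ k) (B : ℕ) (Q : Fin k → ℤ) (r : ι) (z : κ → ℤ) :
    ((I.irow (2 ^ B) Q r z : ℤ) : ℝ) =
      2 ^ B * ∑ c, ((I.a0 r c : ℝ) + ∑ i, (Q i / 2 ^ B : ℝ) * I.a i r c) * (z c : ℝ) := by
  unfold PSys.irow
  push_cast
  rw [Finset.mul_sum]
  refine Finset.sum_congr rfl (fun c _ => ?_)
  rw [← mul_assoc, mul_add, Finset.mul_sum]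
  congr 2
  refine Finset.sum_congr rfl (fun i _ => ?_)
  field_simp

omit [Fintype ι] in
theorem precert (I : PSys ι κ k) (B : ℕ) (Q : Fin k → ℤ) (ρ : κ → ι) (W : κ → κ → ℤ) (δ : ℤ)
    (hδ : 0 < δ) (hb : ∀ t t', I.irow (2 ^ B) Q (ρ t) (W t') = if t = t' then δ else 0) :
    (rM I.a0 I.a (fun i => (Q i / 2 ^ B : ℝ)) ρ).det *
      (Matrix.det (Matrix.of fun c t => (2 : ℝ) ^ B * W t c / δ)) = 1 ∧
    (∀ r, (rM I.a0 I.a (fun i => (Q i / 2 ^ B : ℝ)) ρ).det * (I.irow (2 ^ B) Q r (I.sol ρ W)) =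
      δ * aeval (fun i => (Q i / 2 ^ B : ℝ)) (pH I.a0 I.a I.τ ρ r)) ∧
    (∀ t c, (rM I.a0 I.a (fun i => (Q i / 2 ^ B : ℝ)) ρ).det * (W t c * 2 ^ B) =
      δ * aeval (fun i => (Q i / 2 ^ B : ℝ)) ((pM I.a0 I.a ρ).adjugate c t)) := by
  set q : Fin k → ℝ := fun i => (Q i / 2 ^ B : ℝ) with hq
  set M := rM I.a0 I.a q ρ with hM
  set w : Matrix κ κ ℝ := Matrix.of fun c t => (2 : ℝ) ^ B * W t c / δ with hw
  have hδ' : (δ : ℝ) ≠ 0 := by exact_mod_cast hδ.ne'
  have hMw : M * w = 1 := by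
    ext t t'
    rw [Matrix.mul_apply]
    have h1 := congrArg (fun z : ℤ => (z : ℝ)) (hb t t')
    simp only [irow_cast] at h1
    have h2 : ∑ c, M t c * w c t' =
        (2 ^ B * ∑ c, ((I.a0 (ρ t) c : ℝ) + ∑ i, (Q i / 2 ^ B : ℝ) * I.a i (ρ t) c) *
          (W t' c : ℝ)) / δ := by
      rw [Finset.mul_sum, Finset.sum_div]
      refine Finset.sum_congr rfl (fun c _ => ?_)
      simp only [hM, hw, rM, Matrix.of_apply, hq]
      ring
    rw [h2, h1, Matrix.one_apply]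
    split_ifs
    · exact div_self hδ'
    · simp
  have hdet : M.det * w.det = 1 := by rw [← Matrix.det_mul, hMw, Matrix.det_one]
  have hadj : M.adjugate = M.det • w := by
    calc M.adjugate = M.adjugate * (M * w) := by rw [hMw, mul_one]
      _ = (M.adjugate * M) * w := by rw [Matrix.mul_assoc]
      _ = M.det • w := by rw [Matrix.adjugate_mul, Matrix.smul_mul, Matrix.one_mul]
  refine ⟨hdet, fun r => ?_, fun t c => ?_⟩
  · rw [aeval_pH, ← hM, hadj, Matrix.smul_mulVec, irow_cast, Finset.mul_sum, Finset.mul_sum,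
      Finset.mul_sum]
    refine Finset.sum_congr rfl (fun c _ => ?_)
    have h3 : w.mulVec (fun t => (I.τ (ρ t) : ℝ)) c = 2 ^ B * (I.sol ρ W c : ℝ) / δ := by
      rw [Matrix.mulVec, dotProduct]
      unfold PSys.sol
      push_cast
      rw [Finset.mul_sum, Finset.sum_div]
      refine Finset.sum_congr rfl (fun t _ => ?_)
      simp only [hw, Matrix.of_apply]
      ring
    rw [Pi.smul_apply, h3, smul_eq_mul]
    have h4 : ∀ x y : ℝ, M.det * (2 ^ B * (x * y)) = δ * (x * (M.det * (2 ^ B * y / δ))) := by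
      intro x y
      field_simp
    exact h4 _ _
  · rw [aeval_padj, ← hM, hadj, Matrix.smul_apply, hw, Matrix.of_apply, smul_eq_mul]
    field_simp

/-- the equations -/
noncomputable def fF (I : PSys ι κ k) (ρ : κ → ι) (j : {r : ι // r ∉ I.free ∧ I.τ r = 0}) :
    MvPolynomial (Fin k) ℤ := pH I.a0 I.a I.τ ρ j.1

/-- the inequalities -/
noncomputable def fG (I : PSys ι κ k) (ρ : κ → ι) :
    Option {r : ι // r ∉ I.free ∧ I.τ r ≠ 0} → MvPolynomial (Fin k) ℤ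
  | none => (pM I.a0 I.a ρ).det ^ 2
  | some j => C (I.τ j.1) * pH I.a0 I.a I.τ ρ j.1 * (pM I.a0 I.a ρ).det

omit [Fintype ι] in
theorem fG_none (I : PSys ι κ k) (ρ : κ → ι) (s : Fin k → ℝ) :
    aeval s (fG I ρ none) = (rM I.a0 I.a s ρ).det ^ 2 := by
  unfold fG
  rw [map_pow, aeval_pΔ]

omit [Fintype ι] in
theorem fG_some (I : PSys ι κ k) (ρ : κ → ι) (s : Fin k → ℝ)
    (j : {r : ι // r ∉ I.free ∧ I.τ r ≠ 0}) :
    aeval s (fG I ρ (some j)) = I.τ j.1 * aeval s (pH I.a0 I.a I.τ ρ j.1) *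
      (rM I.a0 I.a s ρ).det := by
  unfold fG
  rw [map_mul, map_mul, aeval_pΔ, aeval_C]
  simp

theorem fG_deg (I : PSys ι κ k) {L : ℕ} (hI : I.Ok L) (ρ : κ → ι) (j) :
    (fG I ρ j).totalDegree ≤ 2 * L + 1 := by
  have h1 := pΔ_deg (a0 := I.a0) (a := I.a) hI.card_cols ρ
  cases j with
  | none =>
    unfold fG
    refine (totalDegree_pow _ _).trans ?_
    omega
  | some j =>
    unfold fG
    have h2 := pH_deg (a0 := I.a0) (a := I.a) (τ := I.τ) hI.card_cols ρ j.1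
    refine (totalDegree_mul _ _).trans ?_
    have h3 : (C (I.τ j.1) * pH I.a0 I.a I.τ ρ j.1).totalDegree ≤ L + 1 := by
      refine (totalDegree_mul _ _).trans ?_
      rw [totalDegree_C, zero_add]
      exact h2
    omega

theorem fF_deg (I : PSys ι κ k) {L : ℕ} (hI : I.Ok L) (ρ : κ → ι) (j) :
    (fF I ρ j).totalDegree ≤ 2 * L + 1 := by
  unfold fF
  have h2 := pH_deg (a0 := I.a0) (a := I.a) (τ := I.τ) hI.card_cols ρ j.1
  omega

theorem fF_l (I : PSys ι κ k) {L : ℕ} (hI : I.Ok L) (ρ : κ → ι) (j) :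
    mvl (fF I ρ j) ≤ (L + 1) ^ (2 * L + 2) := by
  unfold fF
  refine (pH_l hI.card_cols hI.norm hI.sign ρ j.1).trans ?_
  exact Nat.pow_le_pow_right (Nat.succ_pos L) (by omega)

theorem fG_l (I : PSys ι κ k) {L : ℕ} (hI : I.Ok L) (ρ : κ → ι) (j) :
    mvl (fG I ρ j) ≤ (L + 1) ^ (2 * L + 2) := by
  have h1 := pΔ_l (a0 := I.a0) (a := I.a) hI.card_cols hI.norm ρ
  cases j with
  | none =>
    unfold fG
    refine ((Mag.int.mv (Fin k)).pow_le _ _).trans ?_
    refine (Nat.pow_le_pow_left h1 2).trans ?_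
    rw [← pow_mul]
    exact Nat.pow_le_pow_right (Nat.succ_pos L) (by omega)
  | some j =>
    unfold fG
    have h2 := pH_l (a0 := I.a0) (a := I.a) (τ := I.τ) hI.card_cols hI.norm hI.sign ρ j.1
    refine ((Mag.int.mv (Fin k)).mul _ _).trans ?_
    have h3 : (Mag.int.mv (Fin k)).val (C (I.τ j.1) * pH I.a0 I.a I.τ ρ j.1) ≤
        (L + 1) ^ (L + 2) := by
      refine ((Mag.int.mv (Fin k)).mul _ _).trans ?_
      have h4 : (Mag.int.mv (Fin k)).val (C (I.τ j.1) : MvPolynomial (Fin k) ℤ) ≤ 1 := by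
        rw [C_apply]
        refine (Mag.int.mval_monomial_le _ _).trans ?_
        show (I.τ j.1).natAbs ≤ 1
        rcases hI.sign j.1 with h | h | h <;> rw [h] <;> decide
      calc _ ≤ 1 * (L + 1) ^ (L + 2) := Nat.mul_le_mul h4 h2
        _ = _ := one_mul _
    calc _ ≤ (L + 1) ^ (L + 2) * (L + 1) ^ L := Nat.mul_le_mul h3 h1
      _ = (L + 1) ^ (2 * L + 2) := by rw [← pow_add]; congr 1; omega

end

section

open Finset MvPolynomial

variable {ι κ : Type} {k : ℕ} [Fintype ι] [Fintype κ] [DecidableEq κ]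

/-- from a solution at the parameters `s` to a solution of the system -/
theorem solvable_of_poly (I : PSys ι κ k) {L : ℕ} (hI : I.Ok L) (ρ : κ → ι)
    (h : ∃ s : Fin k → ℝ, (∀ j, aeval s (fF I ρ j) = 0) ∧ ∀ j, 0 < aeval s (fG I ρ j)) :
    I.Solvable := by
  obtain ⟨s, hF, hG⟩ := h
  have h0 := hG none
  rw [fG_none] at h0
  have hΔ : (rM I.a0 I.a s ρ).det ≠ 0 := by
    intro h
    rw [h] at h0
    norm_num at h0
  obtain ⟨z, hz⟩ := basic_sol I.a0 I.a I.τ s ρ hΔ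
  refine ⟨s, z, fun r hr => ?_⟩
  have h1 := row_basic I.a0 I.a I.τ s ρ z hz r
  by_cases hτ : I.τ r = 0
  · have h2 : aeval s (pH I.a0 I.a I.τ ρ r) = 0 := hF ⟨r, hr, hτ⟩
    rw [h2] at h1
    rw [hτ, sg_eq_zero]
    exact (mul_eq_zero.mp h1).resolve_left hΔ
  · have h2 := hG (some ⟨r, hr, hτ⟩)
    rw [fG_some] at h2
    simp only [← h1] at h2
    have h3 : 0 < (I.τ r : ℝ) * I.row s r z := by
      have h4 : (I.τ r : ℝ) * ((rM I.a0 I.a s ρ).det *
          ∑ c, ((I.a0 r c : ℝ) + ∑ i, s i * I.a i r c) * z c) * (rM I.a0 I.a s ρ).det =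
          (rM I.a0 I.a s ρ).det ^ 2 * ((I.τ r : ℝ) * I.row s r z) := by
        unfold PSys.row
        ring
      rw [h4] at h2
      exact (pos_iff_pos_of_mul_pos h2).mp h0
    rcases hI.sign r with h | h | h
    · exact absurd h hτ
    · rw [h] at h3 ⊢
      rw [sg_eq_one]
      simpa using h3
    · rw [h] at h3 ⊢
      rw [sg_eq_neg_one]
      push_cast at h3
      linarith

/-- from a solution to a basis with a polynomial solution -/
theorem poly_of_solvable (I : PSys ι κ k) {L : ℕ} (hI : I.Ok L) (h : I.Solvable) :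
    ∃ ρ : κ → ι, ∃ s : Fin k → ℝ, (∀ j, aeval s (fF I ρ j) = 0) ∧
      ∀ j, 0 < aeval s (fG I ρ j) := by
  obtain ⟨s, z, hz⟩ := h
  obtain ⟨ρ, z', hdet, hb, hrow⟩ := exists_basic
    (fun r c => (I.a0 r c : ℝ) + ∑ i, s i * I.a i r c) I.τ I.free hI.sign hI.free_zero
    (by
      intro c
      obtain ⟨r, hr, h0, h1⟩ := hI.unit c
      refine ⟨r, hr, ?_⟩
      funext c'
      simp only [h0, h1, Pi.zero_apply, Int.cast_zero, mul_zero, Finset.sum_const_zero, add_zero]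
      rw [Pi.single_apply, Pi.single_apply]
      split_ifs <;> simp)
    z (fun r hr => hz r hr)
  have hΔ : (rM I.a0 I.a s ρ).det ≠ 0 := hdet
  have hΔ2 : 0 < (rM I.a0 I.a s ρ).det ^ 2 := by positivity
  refine ⟨ρ, s, ?_, ?_⟩
  · rintro ⟨r, hr, hτ⟩
    have h1 := row_basic I.a0 I.a I.τ s ρ z' hb r
    unfold fF
    simp only
    rw [← h1, (hrow r hr).1 hτ, mul_zero]
  · rintro (_ | ⟨r, hr, hτ⟩)
    · rw [fG_none]; exact hΔ2
    · rw [fG_some]
      simp only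
      rw [← row_basic I.a0 I.a I.τ s ρ z' hb r]
      have h2 := (hrow r hr).2 hτ
      have h4 : (I.τ r : ℝ) * ((rM I.a0 I.a s ρ).det *
          ∑ c, ((I.a0 r c : ℝ) + ∑ i, s i * I.a i r c) * z' c) * (rM I.a0 I.a s ρ).det =
          (rM I.a0 I.a s ρ).det ^ 2 * ((I.τ r : ℝ) *
            ∑ c, ((I.a0 r c : ℝ) + ∑ i, s i * I.a i r c) * z' c) := by
        ring
      rw [h4]
      exact mul_pos hΔ2 (lt_of_lt_of_le one_pos h2)

/-- **from certificates to solutions** -/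
theorem solvable_of_cert (I : PSys ι κ k) {L R P B V Y R' : ℕ} (hI : I.Ok L)
    (hV : V = L.factorial * (2 ^ R) ^ L) (hY : Y = (L + 1) ^ (2 * L + 2) * (2 ^ R) ^ (2 * L + 1))
    (hR' : R' = (2 ^ R * V ^ 2) ^ (L + 1))
    (hP : L * Y ^ 2 * gU k L (L + 1) (2 * L + 1) ((L + 1) ^ (2 * L + 2)) R' ≤ 2 ^ P)
    {Q : Fin k → ℤ} {ρ : κ → ι} {W : κ → κ → ℤ} {δ : ℤ} (hc : I.Cert R P B Q ρ W δ) :
    I.Solvable := by
  classical
  obtain ⟨hd, hadjH, hadjW⟩ := precert I B Q ρ W δ hc.pos hc.basis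
  set q : Fin k → ℝ := fun i => (Q i / 2 ^ B : ℝ) with hq
  set M := rM I.a0 I.a q ρ with hM
  set w : Matrix κ κ ℝ := Matrix.of fun c t => (2 : ℝ) ^ B * W t c / δ with hw
  have hδ' : (0 : ℝ) < δ := by exact_mod_cast hc.pos
  have h2R : (1 : ℝ) ≤ 2 ^ R := one_le_pow₀ (by norm_num)
  have h2B : (0 : ℝ) < 2 ^ B := by positivity
  have hw1 : ∀ c t, |w c t| ≤ 2 ^ R := by
    intro c t
    have h1 := hc.bdW t c
    have h2 : |(W t c : ℝ)| * 2 ^ B ≤ 2 ^ R * δ := by exact_mod_cast h1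
    rw [hw, Matrix.of_apply, abs_div, abs_mul, abs_of_pos hδ', abs_of_pos h2B, div_le_iff₀ hδ']
    linarith
  have hVpos : 1 ≤ V := by
    rw [hV]
    exact Nat.mul_pos (Nat.factorial_pos _) (by positivity)
  have hw2 : |w.det| ≤ V := by
    have h1 := Matrix.det_le (A := w) (abv := AbsoluteValue.abs) (x := (2 : ℝ) ^ R)
      (fun i j => hw1 i j)
    refine h1.trans ?_
    rw [hV, nsmul_eq_mul]
    push_cast
    refine mul_le_mul ?_ ?_ (by positivity) (by positivity)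
    · exact_mod_cast Nat.factorial_le hI.card_cols
    · exact pow_le_pow_right₀ h2R hI.card_cols
  have hΔV : 1 ≤ |M.det| * V := by
    calc (1 : ℝ) = |M.det * w.det| := by rw [hd, abs_one]
      _ = |M.det| * |w.det| := abs_mul _ _
      _ ≤ |M.det| * V := mul_le_mul_of_nonneg_left hw2 (abs_nonneg _)
  have hΔ0 : M.det ≠ 0 := by
    intro h
    rw [h] at hd
    simp at hd
  have hΔpos : 0 < |M.det| := abs_pos.mpr hΔ0
  have hΔ2 : 1 ≤ M.det ^ 2 * V ^ 2 := by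
    have : M.det ^ 2 * V ^ 2 = (|M.det| * V) ^ 2 := by rw [mul_pow, sq_abs]
    rw [this]
    exact one_le_pow₀ hΔV
  -- the values of the inequalities
  have hG : ∀ j, 1 ≤ aeval q (fG I ρ j) * (2 ^ R * V ^ 2) := by
    rintro (_ | ⟨r, hr, hτ⟩)
    · rw [fG_none, ← hM]
      calc (1 : ℝ) ≤ M.det ^ 2 * V ^ 2 := hΔ2
        _ ≤ M.det ^ 2 * (2 ^ R * V ^ 2) := by
          refine mul_le_mul_of_nonneg_left ?_ (sq_nonneg _)
          exact le_mul_of_one_le_left (by positivity) h2R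
    · rw [fG_some, ← hM]
      simp only
      have h1 := hc.ge r hr hτ
      have h2 : (δ : ℝ) ≤ 2 ^ R * (I.τ r * (I.irow (2 ^ B) Q r (I.sol ρ W))) := by
        exact_mod_cast h1
      have h3 := hadjH r
      have h4 : M.det ^ 2 ≤ 2 ^ R * (I.τ r * aeval q (pH I.a0 I.a I.τ ρ r) * M.det) := by
        have h5 : (δ : ℝ) * M.det ^ 2 ≤
            δ * (2 ^ R * (I.τ r * aeval q (pH I.a0 I.a I.τ ρ r) * M.det)) := by
          calc (δ : ℝ) * M.det ^ 2
              ≤ 2 ^ R * (I.τ r * (I.irow (2 ^ B) Q r (I.sol ρ W))) * M.det ^ 2 :=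
                mul_le_mul_of_nonneg_right h2 (sq_nonneg _)
            _ = 2 ^ R * I.τ r * (M.det * (I.irow (2 ^ B) Q r (I.sol ρ W))) * M.det := by ring
            _ = 2 ^ R * I.τ r * (δ * aeval q (pH I.a0 I.a I.τ ρ r)) * M.det := by rw [h3]
            _ = _ := by ring
        exact le_of_mul_le_mul_left h5 hδ'
      calc (1 : ℝ) ≤ M.det ^ 2 * V ^ 2 := hΔ2
        _ ≤ 2 ^ R * (I.τ r * aeval q (pH I.a0 I.a I.τ ρ r) * M.det) * V ^ 2 :=
          mul_le_mul_of_nonneg_right h4 (sq_nonneg _)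
        _ = _ := by ring
  have hGpos : ∀ j, 0 < aeval q (fG I ρ j) := by
    intro j
    have h1 := hG j
    have h2 : (0 : ℝ) < 2 ^ R * V ^ 2 := by
      have : (0 : ℝ) < V := by exact_mod_cast hVpos
      positivity
    by_contra hcon
    push Not at hcon
    have := mul_nonpos_of_nonpos_of_nonneg hcon h2.le
    linarith
  have hq1 : ∀ i, |q i| ≤ 2 ^ R := by
    intro i
    have h1 := hc.bdQ i
    have h2 : |(Q i : ℝ)| ≤ 2 ^ (B + R) := by exact_mod_cast h1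
    rw [hq]
    simp only
    rw [abs_div, abs_of_pos h2B, div_le_iff₀ h2B]
    rw [pow_add] at h2
    linarith
  have hYle : |M.det| ≤ Y := by
    have h1 := abs_aeval_le (pM I.a0 I.a ρ).det
      (pΔ_deg (a0 := I.a0) (a := I.a) hI.card_cols ρ) q h2R hq1
    rw [aeval_pΔ, ← hM] at h1
    refine h1.trans ?_
    rw [hY]
    push_cast
    refine mul_le_mul ?_ ?_ (by positivity) (by positivity)
    · have h2 := pΔ_l (a0 := I.a0) (a := I.a) hI.card_cols hI.norm ρ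
      have h3 : mvl (pM I.a0 I.a ρ).det ≤ (L + 1) ^ (2 * L + 2) :=
        h2.trans (Nat.pow_le_pow_right (Nat.succ_pos L) (by omega))
      exact_mod_cast h3
    · exact pow_le_pow_right₀ h2R (by omega)
  have hF : ∀ j, |aeval q (fF I ρ j)| * 2 ^ P ≤ Y := by
    rintro ⟨r, hr, hτ⟩
    unfold fF
    simp only
    have h1 := hc.eq r hr hτ
    have h2 : |((I.irow (2 ^ B) Q r (I.sol ρ W) : ℤ) : ℝ)| * 2 ^ P ≤ δ := by exact_mod_cast h1
    have h3 := congrArg abs (hadjH r)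
    rw [abs_mul, abs_mul, abs_of_pos hδ'] at h3
    have h5 : (δ : ℝ) * (|aeval q (pH I.a0 I.a I.τ ρ r)| * 2 ^ P) ≤ δ * |M.det| := by
      calc (δ : ℝ) * (|aeval q (pH I.a0 I.a I.τ ρ r)| * 2 ^ P)
          = (δ * |aeval q (pH I.a0 I.a I.τ ρ r)|) * 2 ^ P := by ring
        _ = |M.det| * (|((I.irow (2 ^ B) Q r (I.sol ρ W) : ℤ) : ℝ)| * 2 ^ P) := by
          rw [← h3]; ring
        _ ≤ |M.det| * δ := mul_le_mul_of_nonneg_left h2 (abs_nonneg _)
        _ = _ := mul_comm _ _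
    exact (le_of_mul_le_mul_left h5 hδ').trans hYle
  have hcardF : Fintype.card {r : ι // r ∉ I.free ∧ I.τ r = 0} ≤ L :=
    (Fintype.card_subtype_le _).trans hI.card_rows
  have hcardG : Fintype.card (Option {r : ι // r ∉ I.free ∧ I.τ r ≠ 0}) ≤ L + 1 := by
    rw [Fintype.card_option]
    exact Nat.succ_le_succ ((Fintype.card_subtype_le _).trans hI.card_rows)
  have hgap := gap (Λ₀ := (L + 1) ^ (2 * L + 2)) (D := 2 * L + 1) hcardF hcardG
    (Nat.one_le_pow _ _ (Nat.succ_pos L)) (fF I ρ) (fG I ρ) (fF_deg I hI ρ) (fG_deg I hI ρ)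
    (fF_l I hI ρ) (fG_l I hI ρ)
  refine solvable_of_poly I hI ρ (hgap.2 R' ⟨q, ?_, hGpos, ?_, ?_⟩)
  · intro i
    refine (hq1 i).trans ?_
    have h1 : 2 ^ R ≤ R' := by
      rw [hR']
      calc 2 ^ R ≤ 2 ^ R * V ^ 2 := Nat.le_mul_of_pos_right _ (by positivity)
        _ ≤ (2 ^ R * V ^ 2) ^ (L + 1) := Nat.le_self_pow (by omega) _
    exact_mod_cast h1
  · have h1 : (1 : ℝ) ≤ ∏ j, (aeval q (fG I ρ j) * (2 ^ R * V ^ 2)) := by
      calc (1 : ℝ) = ∏ _j : Option {r : ι // r ∉ I.free ∧ I.τ r ≠ 0}, (1 : ℝ) := by simp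
        _ ≤ _ := Finset.prod_le_prod (fun _ _ => zero_le_one) (fun j _ => hG j)
    rw [Finset.prod_mul_distrib, Finset.prod_const, Finset.card_univ] at h1
    refine h1.trans ?_
    refine mul_le_mul_of_nonneg_left ?_ (Finset.prod_nonneg (fun j _ => (hGpos j).le))
    rw [hR']
    push_cast
    refine pow_le_pow_right₀ ?_ hcardG
    have : (1 : ℝ) ≤ V := by exact_mod_cast hVpos
    have h2 : (1 : ℝ) ≤ (V : ℝ) ^ 2 := one_le_pow₀ this
    nlinarith
  · have h2P : (0 : ℝ) < 2 ^ P := by positivity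
    have h1 : ∀ j, aeval q (fF I ρ j) ^ 2 ≤ (Y : ℝ) ^ 2 / (2 ^ P) ^ 2 := by
      intro j
      rw [le_div_iff₀ (by positivity), ← sq_abs, ← mul_pow]
      exact pow_le_pow_left₀ (by positivity) (hF j) 2
    have h2 : ∑ j, aeval q (fF I ρ j) ^ 2 ≤ L * ((Y : ℝ) ^ 2 / (2 ^ P) ^ 2) := by
      refine (Finset.sum_le_card_nsmul _ _ _ (fun j _ => h1 j)).trans ?_
      rw [Finset.card_univ, nsmul_eq_mul]
      refine mul_le_mul_of_nonneg_right ?_ (by positivity)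
      exact_mod_cast hcardF
    have h3 : (L : ℝ) * Y ^ 2 * gU k L (L + 1) (2 * L + 1) ((L + 1) ^ (2 * L + 2)) R' ≤ 2 ^ P := by
      exact_mod_cast hP
    calc (∑ j, aeval q (fF I ρ j) ^ 2) *
          gU k L (L + 1) (2 * L + 1) ((L + 1) ^ (2 * L + 2)) R'
        ≤ L * ((Y : ℝ) ^ 2 / (2 ^ P) ^ 2) *
          gU k L (L + 1) (2 * L + 1) ((L + 1) ^ (2 * L + 2)) R' :=
          mul_le_mul_of_nonneg_right h2 (by positivity)
      _ = (L * Y ^ 2 * gU k L (L + 1) (2 * L + 1) ((L + 1) ^ (2 * L + 2)) R') / (2 ^ P) ^ 2 := by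
          ring
      _ ≤ 2 ^ P / (2 ^ P) ^ 2 := div_le_div_of_nonneg_right h3 (by positivity)
      _ = 1 / 2 ^ P := by field_simp
      _ ≤ 1 := by
          rw [div_le_one h2P]
          exact one_le_pow₀ (by norm_num)

/-- **from solutions to certificates** -/
theorem cert_of_solvable (I : PSys ι κ k) {L R P B T Ψ Y Z : ℕ} (hI : I.Ok L)
    (hΨ : Ψ = gP k L (L + 1) (2 * L + 1) ((L + 1) ^ (2 * L + 2)))
    (hY : Y = (L + 1) ^ (2 * L + 2) * (Ψ + 1) ^ (2 * L + 1)) (hZ : Z = Y ^ (L + 1) * Ψ)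
    (hR : 4 * Z * Y ≤ 2 ^ R) (hB : 2 ^ P * (4 * Z * (2 * L + 1) * Y) ≤ 2 ^ B)
    (hT : (2 ^ (B + R) * (L + 1)) ^ (L + 1) < 2 ^ T) (h : I.Solvable) :
    ∃ (Q : Fin k → ℤ) (ρ : κ → ι) (W : κ → κ → ℤ) (δ : ℤ), I.Cert R P B Q ρ W δ ∧
      (∀ i, |Q i| < 2 ^ T) ∧ (∀ u c, |W u c| < 2 ^ T) ∧ δ < 2 ^ T := by
  classical
  have hcardF : Fintype.card {r : ι // r ∉ I.free ∧ I.τ r = 0} ≤ L :=
    (Fintype.card_subtype_le _).trans hI.card_rows
  have hcardG : Fintype.card (Option {r : ι // r ∉ I.free ∧ I.τ r ≠ 0}) ≤ L + 1 := by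
    rw [Fintype.card_option]
    exact Nat.succ_le_succ ((Fintype.card_subtype_le _).trans hI.card_rows)
  obtain ⟨ρ, s₀, hs₀⟩ := poly_of_solvable I hI h
  have hgap := gap (Λ₀ := (L + 1) ^ (2 * L + 2)) (D := 2 * L + 1) hcardF hcardG
    (Nat.one_le_pow _ _ (Nat.succ_pos L)) (fF I ρ) (fG I ρ) (fF_deg I hI ρ) (fG_deg I hI ρ)
    (fF_l I hI ρ) (fG_l I hI ρ)
  obtain ⟨s, hF, hG, hs, hΓ⟩ := hgap.1 ⟨s₀, hs₀⟩
  rw [← hΨ] at hs hΓ
  -- the approximation
  have h2B : (0 : ℝ) < 2 ^ B := by positivity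
  set Q : Fin k → ℤ := fun i => ⌊2 ^ B * s i⌋ with hQ
  set q : Fin k → ℝ := fun i => (Q i / 2 ^ B : ℝ) with hq
  have hsq : ∀ i, |s i - q i| ≤ 1 / 2 ^ B := by
    intro i
    have h1 := Int.floor_le (2 ^ B * s i)
    have h2 := (Int.lt_floor_add_one (2 ^ B * s i)).le
    have h3 : s i - q i = (2 ^ B * s i - Q i) / 2 ^ B := by
      rw [hq]; field_simp
    rw [h3, abs_div, abs_of_pos h2B]
    refine div_le_div_of_nonneg_right ?_ h2B.le
    rw [abs_le]
    constructor <;> linarith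
  have hH1 : (1 : ℝ) ≤ (Ψ : ℝ) + 1 := by
    have : (0 : ℝ) ≤ Ψ := Nat.cast_nonneg _
    linarith
  have h2B1 : (1 : ℝ) ≤ 2 ^ B := one_le_pow₀ (by norm_num)
  have hs' : ∀ i, |s i| ≤ (Ψ : ℝ) + 1 := fun i => (hs i).trans (by linarith)
  have hq' : ∀ i, |q i| ≤ (Ψ : ℝ) + 1 := by
    intro i
    have h1 : |q i| ≤ |s i| + |s i - q i| := by
      have h2 : q i = s i - (s i - q i) := by ring
      calc |q i| = |s i - (s i - q i)| := by rw [← h2]
        _ ≤ _ := abs_sub _ _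
    have h3 : 1 / (2 : ℝ) ^ B ≤ 1 := by
      rw [div_le_one h2B]; exact h2B1
    linarith [hs i, hsq i]
  have hPsi1 : 1 ≤ Ψ := by
    rw [hΨ]; unfold gP
    exact Nat.one_le_pow _ _ (by omega)
  have hY1 : 1 ≤ Y := by
    rw [hY]
    exact Nat.mul_pos (by positivity) (by positivity)
  have hZ1 : 1 ≤ Z := by
    rw [hZ]
    exact Nat.mul_pos (by positivity) hPsi1
  have hYR : (1 : ℝ) ≤ Y := by exact_mod_cast hY1
  have hZR : (1 : ℝ) ≤ Z := by exact_mod_cast hZ1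
  have hΨR : (1 : ℝ) ≤ Ψ := by exact_mod_cast hPsi1
  have hRR : 4 * (Z : ℝ) * Y ≤ 2 ^ R := by exact_mod_cast hR
  have hBR : 2 ^ P * (4 * (Z : ℝ) * (2 * L + 1) * Y) ≤ 2 ^ B := by exact_mod_cast hB
  -- bounds for values
  have hval : ∀ (p : MvPolynomial (Fin k) ℤ), p.totalDegree ≤ 2 * L + 1 →
      mvl p ≤ (L + 1) ^ (2 * L + 2) → ∀ x : Fin k → ℝ, (∀ i, |x i| ≤ (Ψ : ℝ) + 1) →
      |aeval x p| ≤ Y := by
    intro p hp1 hp2 x hx
    refine (abs_aeval_le p hp1 x hH1 hx).trans ?_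
    rw [hY]
    push_cast
    refine mul_le_mul_of_nonneg_right ?_ (by positivity)
    exact_mod_cast hp2
  have hlip : ∀ (p : MvPolynomial (Fin k) ℤ), p.totalDegree ≤ 2 * L + 1 →
      mvl p ≤ (L + 1) ^ (2 * L + 2) → |aeval s p - aeval q p| ≤ (2 * L + 1) * Y / 2 ^ B := by
    intro p hp1 hp2
    refine (abs_aeval_sub_le p hp1 s q hH1 hs' hq' hsq (by positivity)).trans ?_
    rw [hY]
    push_cast
    have h3 : (mvl p : ℝ) ≤ ((L : ℝ) + 1) ^ (2 * L + 2) := by exact_mod_cast hp2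
    calc (mvl p : ℝ) * ((2 * L + 1) * ((Ψ : ℝ) + 1) ^ (2 * L + 1) * (1 / 2 ^ B))
        ≤ ((L : ℝ) + 1) ^ (2 * L + 2) *
          ((2 * L + 1) * ((Ψ : ℝ) + 1) ^ (2 * L + 1) * (1 / 2 ^ B)) :=
          mul_le_mul_of_nonneg_right h3 (by positivity)
      _ = _ := by ring
  -- lower bounds for the inequalities
  have hGY : ∀ j, ∀ x : Fin k → ℝ, (∀ i, |x i| ≤ (Ψ : ℝ) + 1) → |aeval x (fG I ρ j)| ≤ Y :=
    fun j x hx => hval _ (fG_deg I hI ρ j) (fG_l I hI ρ j) x hx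
  have hGs : ∀ j, 1 ≤ aeval s (fG I ρ j) * Z := by
    intro j
    have h1 : ∏ j, aeval s (fG I ρ j) ≤ aeval s (fG I ρ j) * (Y : ℝ) ^ (L + 1) := by
      rw [← Finset.mul_prod_erase Finset.univ _ (Finset.mem_univ j)]
      refine mul_le_mul_of_nonneg_left ?_ (hG j).le
      calc ∏ i ∈ Finset.univ.erase j, aeval s (fG I ρ i)
          ≤ ∏ _i ∈ Finset.univ.erase j, (Y : ℝ) :=
            Finset.prod_le_prod (fun i _ => (hG i).le)
              (fun i _ => (le_abs_self _).trans (hGY i s hs'))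
        _ = (Y : ℝ) ^ (Finset.univ.erase j).card := Finset.prod_const _
        _ ≤ (Y : ℝ) ^ (L + 1) := by
            refine pow_le_pow_right₀ hYR ?_
            refine (Finset.card_le_card (Finset.erase_subset _ _)).trans ?_
            rw [Finset.card_univ]
            exact hcardG
    calc (1 : ℝ) ≤ (∏ j, aeval s (fG I ρ j)) * Ψ := hΓ
      _ ≤ (aeval s (fG I ρ j) * (Y : ℝ) ^ (L + 1)) * Ψ :=
        mul_le_mul_of_nonneg_right h1 (by positivity)
      _ = _ := by rw [hZ]; push_cast; ring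
  have h2P1 : (1 : ℝ) ≤ 2 ^ P := one_le_pow₀ (by norm_num)
  have hDYB : (2 * (L : ℝ) + 1) * Y / 2 ^ B * (4 * Z * 2 ^ P) ≤ 1 := by
    rw [div_mul_eq_mul_div, div_le_one h2B]
    calc _ = 2 ^ P * (4 * (Z : ℝ) * (2 * L + 1) * Y) := by ring
      _ ≤ _ := hBR
  have hDYB1 : (2 * (L : ℝ) + 1) * Y / 2 ^ B * (4 * Z) ≤ 1 := by
    refine le_trans ?_ hDYB
    refine mul_le_mul_of_nonneg_left ?_ (by positivity)
    exact le_mul_of_one_le_right (by positivity) h2P1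
  have hGq : ∀ j, 1 ≤ aeval q (fG I ρ j) * (2 * Z) := by
    intro j
    have h1 := hGs j
    have h2 := hlip _ (fG_deg I hI ρ j) (fG_l I hI ρ j)
    have h3 := (le_abs_self _).trans h2
    have h4 : (aeval s (fG I ρ j) - aeval q (fG I ρ j)) * (4 * Z) ≤ 1 :=
      (mul_le_mul_of_nonneg_right h3 (by positivity)).trans hDYB1
    nlinarith
  have hΔ2 := hGq none
  rw [fG_none] at hΔ2
  set M := rM I.a0 I.a q ρ with hM
  have hΔ1 : 1 ≤ |M.det| * (2 * Z) := by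
    rcases le_total 1 |M.det| with h1 | h1
    · nlinarith
    · refine hΔ2.trans (mul_le_mul_of_nonneg_right ?_ (by positivity))
      rw [← sq_abs]
      nlinarith [abs_nonneg M.det]
  have hΔ0 : M.det ≠ 0 := by
    intro h
    rw [h] at hΔ1
    norm_num at hΔ1
  -- the integer matrix
  set A : Matrix κ κ ℤ := Matrix.of fun t c =>
    2 ^ B * I.a0 (ρ t) c + ∑ i, Q i * I.a i (ρ t) c with hA
  have hAM : A.map (fun x : ℤ => (x : ℝ)) = (2 : ℝ) ^ B • M := by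
    ext t c
    simp only [hA, hM, rM, Matrix.map_apply, Matrix.of_apply, Matrix.smul_apply, smul_eq_mul]
    push_cast
    rw [mul_add, Finset.mul_sum]
    congr 1
    refine Finset.sum_congr rfl (fun i _ => ?_)
    rw [hq]
    field_simp
  have hAdet : A.det ≠ 0 := by
    intro h0
    have h1 : ((A.det : ℤ) : ℝ) = (A.map (fun x : ℤ => (x : ℝ))).det :=
      RingHom.map_det (Int.castRingHom ℝ) A
    rw [h0, hAM, Matrix.det_smul] at h1
    have h2 : (2 : ℝ) ^ B ≠ 0 := h2B.ne'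
    have h3 := mul_ne_zero (pow_ne_zero (Fintype.card κ) h2) hΔ0
    apply h3
    rw [← h1]
    simp
  obtain ⟨σ, hσ1, hσ2⟩ : ∃ σ : ℤ, |σ| = 1 ∧ σ * A.det = |A.det| := by
    rcases lt_or_gt_of_ne hAdet with h1 | h1
    · exact ⟨-1, by simp, by rw [abs_of_neg h1]; ring⟩
    · exact ⟨1, by simp, by rw [abs_of_pos h1]; ring⟩
  set W : κ → κ → ℤ := fun t c => σ * A.adjugate c t with hW
  set δ : ℤ := |A.det| with hδdef
  have hδ : 0 < δ := abs_pos.mpr hAdet
  have hbasis : ∀ t t', I.irow (2 ^ B) Q (ρ t) (W t') = if t = t' then δ else 0 := by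
    intro t t'
    have h1 : I.irow (2 ^ B) Q (ρ t) (W t') = σ * (A * A.adjugate) t t' := by
      rw [Matrix.mul_apply, Finset.mul_sum]
      unfold PSys.irow
      refine Finset.sum_congr rfl (fun c _ => ?_)
      simp only [hW, hA, Matrix.of_apply]
      ring
    rw [h1, Matrix.mul_adjugate, Matrix.smul_apply, Matrix.one_apply]
    split_ifs
    · rw [smul_eq_mul, mul_one, hσ2]
    · rw [smul_zero, mul_zero]
  obtain ⟨_, hadjH, hadjW⟩ := precert I B Q ρ W δ hδ hbasis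
  rw [← hq, ← hM] at hadjH hadjW
  have hδR : (0 : ℝ) < δ := by exact_mod_cast hδ
  have hΔpos : 0 < |M.det| := abs_pos.mpr hΔ0
  have hQb : ∀ i, |Q i| ≤ 2 ^ (B + R) := by
    intro i
    have h1 : (Ψ : ℝ) + 1 ≤ 2 ^ R := by
      have h2 : (Ψ : ℝ) + 1 ≤ Y := by
        rw [hY]
        push_cast
        have h3 : (1 : ℝ) ≤ ((L : ℝ) + 1) ^ (2 * L + 2) := one_le_pow₀ (by
          have : (0 : ℝ) ≤ L := Nat.cast_nonneg _
          linarith)
        have h4 : (Ψ : ℝ) + 1 ≤ ((Ψ : ℝ) + 1) ^ (2 * L + 1) := le_self_pow₀ hH1 (by omega)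
        nlinarith
      nlinarith
    have h2 : |(Q i : ℝ)| ≤ 2 ^ (B + R) := by
      have h3 : (Q i : ℝ) = q i * 2 ^ B := by rw [hq]; field_simp
      rw [h3, abs_mul, abs_of_pos h2B, pow_add, mul_comm]
      exact mul_le_mul_of_nonneg_left ((hq' i).trans h1) h2B.le
    exact_mod_cast h2
  -- sizes
  have hrowA : ∀ t, ∑ c, (A t c).natAbs ≤ 2 ^ (B + R) * (L + 1) := by
    intro t
    have h1 : ∀ c, (A t c).natAbs ≤
        2 ^ (B + R) * ((I.a0 (ρ t) c).natAbs + ∑ i, (I.a i (ρ t) c).natAbs) := by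
      intro c
      rw [hA, Matrix.of_apply]
      refine (Int.natAbs_add_le _ _).trans ?_
      rw [mul_add]
      refine Nat.add_le_add ?_ ?_
      · rw [Int.natAbs_mul]
        refine Nat.mul_le_mul_right _ ?_
        have h2 : ((2 : ℤ) ^ B).natAbs = 2 ^ B := by rw [Int.natAbs_pow]; rfl
        rw [h2]
        exact Nat.pow_le_pow_right (by norm_num) (Nat.le_add_right _ _)
      · refine (Mag.int.sum_le _ _).trans ?_
        rw [Finset.mul_sum]
        refine Finset.sum_le_sum (fun i _ => ?_)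
        show (Q i * I.a i (ρ t) c).natAbs ≤ _
        rw [Int.natAbs_mul]
        refine Nat.mul_le_mul_right _ ?_
        have h3 := hQb i
        have h4 : ((Q i).natAbs : ℤ) ≤ ((2 ^ (B + R) : ℕ) : ℤ) := by
          rw [Int.natCast_natAbs]
          push_cast
          exact h3
        exact_mod_cast h4
    refine (Finset.sum_le_sum (fun c _ => h1 c)).trans ?_
    rw [← Finset.mul_sum]
    exact Nat.mul_le_mul_left _ ((hI.norm _).trans (Nat.le_succ L))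
  have h2BR : 1 ≤ 2 ^ (B + R) := Nat.one_le_two_pow
  have hbase : 1 ≤ 2 ^ (B + R) * (L + 1) := Nat.mul_pos h2BR (Nat.succ_pos L)
  have hpowT : (2 ^ (B + R) * (L + 1)) ^ Fintype.card κ < 2 ^ T :=
    lt_of_le_of_lt (Nat.pow_le_pow_right hbase (hI.card_cols.trans (Nat.le_succ L))) hT
  have hδT : A.det.natAbs < 2 ^ T := by
    refine lt_of_le_of_lt ?_ hpowT
    refine (Mag.int.det_le A).trans ?_
    rw [← Finset.card_univ]
    exact Finset.prod_le_pow_card _ _ _ (fun t _ => hrowA t)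
  have hWT : ∀ t c, (W t c).natAbs < 2 ^ T := by
    intro t c
    have h1 : (W t c).natAbs = (A.adjugate c t).natAbs := by
      rw [hW]
      simp only
      rw [Int.natAbs_mul]
      have h2 : σ.natAbs = 1 := by
        rw [Int.abs_eq_natAbs] at hσ1
        exact_mod_cast hσ1
      rw [h2, one_mul]
    rw [h1]
    refine lt_of_le_of_lt ?_ hpowT
    rw [Matrix.adjugate_apply]
    refine (Mag.int.det_le _).trans ?_
    rw [← Finset.card_univ]
    refine Finset.prod_le_pow_card _ _ _ (fun i _ => ?_)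
    by_cases hi : i = t
    · subst hi
      have h3 : ∀ j, Mag.int.val ((A.updateRow i (Pi.single c 1)) i j) ≤ if j = c then 1 else 0 := by
        intro j
        rw [Matrix.updateRow_self, Pi.single_apply]
        split_ifs
        · exact Mag.int.one
        · exact Mag.int.zero.le
      refine (Finset.sum_le_sum (fun j _ => h3 j)).trans ?_
      rw [Finset.sum_ite_eq' Finset.univ c (fun _ => 1), if_pos (Finset.mem_univ _)]
      exact hbase
    · have h3 : ∀ j, Mag.int.val ((A.updateRow t (Pi.single c 1)) i j) ≤ (A i j).natAbs := by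
        intro j
        rw [Matrix.updateRow_ne hi]
        exact le_rfl
      exact (Finset.sum_le_sum (fun j _ => h3 j)).trans (hrowA i)
  refine ⟨Q, ρ, W, δ, ⟨hδ, hbasis, ?_, ?_, ?_, hQb⟩, ?_, ?_, ?_⟩
  · -- equations
    intro r hr hτ
    have h1 := hadjH r
    have h2 : |aeval q (pH I.a0 I.a I.τ ρ r)| * (4 * Z * 2 ^ P) ≤ 1 := by
      have h3 := hlip _ (fF_deg I hI ρ ⟨r, hr, hτ⟩) (fF_l I hI ρ ⟨r, hr, hτ⟩)
      rw [hF ⟨r, hr, hτ⟩, zero_sub, abs_neg] at h3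
      exact (mul_le_mul_of_nonneg_right h3 (by positivity)).trans hDYB
    have h4 : |aeval q (pH I.a0 I.a I.τ ρ r)| * 2 ^ P ≤ |M.det| := by
      have h5 : (2 * (Z : ℝ)) * (|aeval q (pH I.a0 I.a I.τ ρ r)| * 2 ^ P) ≤
          (2 * (Z : ℝ)) * |M.det| := by
        have h6 : 0 ≤ |aeval q (pH I.a0 I.a I.τ ρ r)| * 2 ^ P := by positivity
        nlinarith
      exact le_of_mul_le_mul_left h5 (by positivity)
    have h7 := congrArg abs h1
    rw [abs_mul, abs_mul, abs_of_pos hδR] at h7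
    have h8 : |((I.irow (2 ^ B) Q r (I.sol ρ W) : ℤ) : ℝ)| * 2 ^ P ≤ δ := by
      have h9 : |M.det| * (|((I.irow (2 ^ B) Q r (I.sol ρ W) : ℤ) : ℝ)| * 2 ^ P) ≤
          |M.det| * δ := by
        calc _ = (|M.det| * |((I.irow (2 ^ B) Q r (I.sol ρ W) : ℤ) : ℝ)|) * 2 ^ P := by ring
          _ = δ * (|aeval q (pH I.a0 I.a I.τ ρ r)| * 2 ^ P) := by rw [h7]; ring
          _ ≤ δ * |M.det| := mul_le_mul_of_nonneg_left h4 hδR.le
          _ = _ := mul_comm _ _
      exact le_of_mul_le_mul_left h9 hΔpos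
    exact_mod_cast h8
  · -- inequalities
    intro r hr hτ
    have h1 := hadjH r
    have h2 := hGq (some ⟨r, hr, hτ⟩)
    rw [fG_some, ← hM] at h2
    simp only at h2
    have h3 := hGY none q hq'
    rw [fG_none, ← hM, abs_of_nonneg (sq_nonneg _)] at h3
    set g := (I.τ r : ℝ) * aeval q (pH I.a0 I.a I.τ ρ r) * M.det with hg
    have hg0 : 0 < g := by
      by_contra hcon
      push Not at hcon
      nlinarith
    have h4 : M.det ^ 2 ≤ 2 ^ R * g := by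
      calc M.det ^ 2 ≤ Y * 1 := by rw [mul_one]; exact h3
        _ ≤ Y * (g * (2 * Z)) := mul_le_mul_of_nonneg_left h2 (by positivity)
        _ = (2 * Z * Y) * g := by ring
        _ ≤ 2 ^ R * g := by
          refine mul_le_mul_of_nonneg_right ?_ hg0.le
          have : 0 ≤ (Z : ℝ) * Y := by positivity
          linarith
    have h8 : (δ : ℝ) ≤ 2 ^ R * (I.τ r * ((I.irow (2 ^ B) Q r (I.sol ρ W) : ℤ) : ℝ)) := by
      have h9 : M.det ^ 2 * (δ : ℝ) ≤
          M.det ^ 2 * (2 ^ R * (I.τ r * ((I.irow (2 ^ B) Q r (I.sol ρ W) : ℤ) : ℝ))) := by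
        calc M.det ^ 2 * (δ : ℝ) ≤ (2 ^ R * g) * δ := mul_le_mul_of_nonneg_right h4 hδR.le
          _ = 2 ^ R * I.τ r * (δ * aeval q (pH I.a0 I.a I.τ ρ r)) * M.det := by rw [hg]; ring
          _ = 2 ^ R * I.τ r * (M.det * ((I.irow (2 ^ B) Q r (I.sol ρ W) : ℤ) : ℝ)) * M.det := by
            rw [← h1]
          _ = _ := by ring
      exact le_of_mul_le_mul_left h9 (by positivity)
    exact_mod_cast h8
  · -- the inverse matrix
    intro t c
    have h1 := hadjW t c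
    have h2 : |aeval q ((pM I.a0 I.a ρ).adjugate c t)| ≤ Y := by
      refine hval _ ?_ ?_ q hq'
      · exact (padj_deg hI.card_cols ρ c t).trans (by omega)
      · exact (padj_l hI.card_cols hI.norm ρ c t).trans
          (Nat.pow_le_pow_right (Nat.succ_pos L) (by omega))
    have h3 : |aeval q ((pM I.a0 I.a ρ).adjugate c t)| ≤ 2 ^ R * |M.det| := by
      calc _ ≤ (Y : ℝ) * 1 := by rw [mul_one]; exact h2
        _ ≤ Y * (|M.det| * (2 * Z)) := mul_le_mul_of_nonneg_left hΔ1 (by positivity)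
        _ = (2 * Z * Y) * |M.det| := by ring
        _ ≤ 2 ^ R * |M.det| := by
          refine mul_le_mul_of_nonneg_right ?_ hΔpos.le
          have : 0 ≤ (Z : ℝ) * Y := by positivity
          linarith
    have h7 := congrArg abs h1
    rw [abs_mul, abs_mul, abs_mul, abs_of_pos hδR, abs_of_pos h2B] at h7
    have h8 : |(W t c : ℝ)| * 2 ^ B ≤ 2 ^ R * δ := by
      have h9 : |M.det| * (|(W t c : ℝ)| * 2 ^ B) ≤ |M.det| * (2 ^ R * δ) := by
        rw [h7]
        calc _ ≤ (δ : ℝ) * (2 ^ R * |M.det|) := mul_le_mul_of_nonneg_left h3 hδR.le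
          _ = _ := by ring
      exact le_of_mul_le_mul_left h9 hΔpos
    exact_mod_cast h8
  · intro i
    have h1 : (2 : ℤ) ^ (B + R) < 2 ^ T := by
      have h2 : 2 ^ (B + R) < 2 ^ T := by
        refine lt_of_le_of_lt ?_ hT
        calc 2 ^ (B + R) ≤ 2 ^ (B + R) * (L + 1) := Nat.le_mul_of_pos_right _ (Nat.succ_pos L)
          _ ≤ _ := Nat.le_self_pow (by omega) _
      exact_mod_cast h2
    exact lt_of_le_of_lt (hQb i) h1
  · intro t c
    have h1 := hWT t c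
    have h2 : (((W t c).natAbs : ℕ) : ℤ) < ((2 ^ T : ℕ) : ℤ) := by exact_mod_cast h1
    rw [Int.natCast_natAbs] at h2
    exact_mod_cast h2
  · have h2 : ((A.det.natAbs : ℕ) : ℤ) < ((2 ^ T : ℕ) : ℤ) := by exact_mod_cast hδT
    rw [Int.natCast_natAbs] at h2
    exact_mod_cast h2

end

/-- **Solvability of parametric systems has short certificates**, for every fixed number `k` of
parameters. -/
theorem solvable_iff (k : ℕ) : ∃ r p b t : ℕ, ∀ (L : ℕ) (ι κ : Type) [Fintype ι] [Fintype κ]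
    [DecidableEq κ] (I : PSys ι κ k), I.Ok L →
    (I.Solvable ↔ ∃ (Q : Fin k → ℤ) (ρ : κ → ι) (W : κ → κ → ℤ) (δ : ℤ),
      I.Cert ((L + 2) ^ r) ((L + 2) ^ p) ((L + 2) ^ b) Q ρ W δ ∧
      (∀ i, |Q i| < 2 ^ ((L + 2) ^ t)) ∧ (∀ u c, |W u c| < 2 ^ ((L + 2) ^ t)) ∧
      δ < 2 ^ ((L + 2) ^ t)) := by
  -- the constants depending on `L` only
  have pbL : PB (fun L => L) := PB.id
  have pbm : PB (fun L => L + 1) := PB.id.add (PB.const 1)
  have pbD : PB (fun L => 2 * L + 1) := ((PB.const 2).mul PB.id).add (PB.const 1)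
  have lbΛ : LB (fun L => (L + 1) ^ (2 * L + 2)) :=
    (LB.of_pb pbm).pow (((PB.const 2).mul PB.id).add (PB.const 2))
  set Ψ : ℕ → ℕ := fun L => gP k L (L + 1) (2 * L + 1) ((L + 1) ^ (2 * L + 2)) with hΨ
  have lbΨ : LB Ψ := gP_lb k pbL pbm pbD lbΛ
  set Y : ℕ → ℕ := fun L => (L + 1) ^ (2 * L + 2) * (Ψ L + 1) ^ (2 * L + 1) with hY
  have lbY : LB Y := lbΛ.mul ((lbΨ.add (LB.const 1)).pow pbD)
  set Z : ℕ → ℕ := fun L => Y L ^ (L + 1) * Ψ L with hZ
  have lbZ : LB Z := (lbY.pow pbm).mul lbΨ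
  obtain ⟨r, hr⟩ : LB (fun L => 4 * Z L * Y L) := ((LB.const 4).mul lbZ).mul lbY
  have pbr : PB (fun L => (L + 2) ^ r) := ⟨r, fun L => le_rfl⟩
  set V : ℕ → ℕ := fun L => L.factorial * (2 ^ ((L + 2) ^ r)) ^ L with hV
  have lbf : LB (fun L => L.factorial) :=
    LB.mono ((LB.of_pb pbL).pow pbL) (fun L => Nat.factorial_le_pow L)
  have lbV : LB V := lbf.mul ((LB.two_pow pbr).pow pbL)
  set Y' : ℕ → ℕ := fun L => (L + 1) ^ (2 * L + 2) * (2 ^ ((L + 2) ^ r)) ^ (2 * L + 1) with hY'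
  have lbY' : LB Y' := lbΛ.mul ((LB.two_pow pbr).pow pbD)
  set R' : ℕ → ℕ := fun L => (2 ^ ((L + 2) ^ r) * V L ^ 2) ^ (L + 1) with hR'
  have lbR' : LB R' := ((LB.two_pow pbr).mul (lbV.pow (PB.const 2))).pow pbm
  obtain ⟨p, hp⟩ : LB (fun L => L * Y' L ^ 2 *
      gU k L (L + 1) (2 * L + 1) ((L + 1) ^ (2 * L + 2)) (R' L)) :=
    ((LB.of_pb pbL).mul (lbY'.pow (PB.const 2))).mul (gU_lb k pbL pbm pbD lbΛ lbR')
  have pbp : PB (fun L => (L + 2) ^ p) := ⟨p, fun L => le_rfl⟩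
  obtain ⟨b, hb⟩ : LB (fun L => 2 ^ ((L + 2) ^ p) * (4 * Z L * (2 * L + 1) * Y L)) :=
    (LB.two_pow pbp).mul ((((LB.const 4).mul lbZ).mul (LB.of_pb pbD)).mul lbY)
  have pbb : PB (fun L => (L + 2) ^ b) := ⟨b, fun L => le_rfl⟩
  obtain ⟨t, ht⟩ : LB (fun L => (2 ^ ((L + 2) ^ b + (L + 2) ^ r) * (L + 1)) ^ (L + 1) + 1) :=
    (((LB.two_pow (pbb.add pbr)).mul (LB.of_pb pbm)).pow pbm).add (LB.const 1)
  refine ⟨r, p, b, t, fun L ι κ _ _ _ I hI => ⟨fun h => ?_, ?_⟩⟩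
  · exact cert_of_solvable I hI (Ψ := Ψ L) (Y := Y L) (Z := Z L) rfl rfl rfl (hr L) (hb L)
      (lt_of_lt_of_le (Nat.lt_succ_self _) (ht L)) h
  · rintro ⟨Q, ρ, W, δ, hc, _⟩
    exact solvable_of_cert I hI (V := V L) (Y := Y' L) (R' := R' L) rfl rfl rfl (hp L) hc

end Pool.Agent.Lib.UPSlopes
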