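import Pool.Agent.Lib.MP_51356b_lc.SysOk

/-!
# The parametric system of a digraph
-/

namespace Pool.Agent.Lib.UPSlopes

open Turing Pool.Agent.Lib.PolyTime

namespace Vf

theorem sys_mem_colL {V : List NBin} {u : NBin} (hu : u ∈ V) (b : Bool) :
    (u, b) ∈ (colL V).toFinset := by
  rw [List.mem_toFinset, colL, List.mem_product]
  exact ⟨hu, by cases b <;> simp⟩

theorem sys_mem_rowL {k : ℕ} {V : List NBin} {m : ℕ} (hm : m < k + 4) {u v : NBin} (hu : u ∈ V)
    (hv : v ∈ V) : (m, u, v) ∈ (rowL k V).toFinset := by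
  rw [List.mem_toFinset, rowL, List.mem_product]
  refine ⟨List.mem_range.mpr hm, ?_⟩
  rw [List.mem_product]
  exact ⟨hu, hv⟩

theorem sys_of_mem_rowL {k : ℕ} {V : List NBin} {r : Row} (hr : r ∈ (rowL k V).toFinset) :
    r.1 < k + 4 ∧ r.2.1 ∈ V ∧ r.2.2 ∈ V := by
  rw [List.mem_toFinset, rowL, List.mem_product] at hr
  obtain ⟨h1, h2⟩ := hr
  rw [List.mem_product] at h2
  exact ⟨List.mem_range.mp h1, h2.1, h2.2⟩

/-- The value of the unknown `(u, b)`. -/
theorem sys_sum_eC {V : List NBin} {u : NBin} (hu : u ∈ V) (b : Bool)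
    (z : ↥(colL V).toFinset → ℝ) :
    ∑ c : ↥(colL V).toFinset, ((eC u b c.1 : ℤ) : ℝ) * z c = z ⟨(u, b), sys_mem_colL hu b⟩ := by
  rw [Finset.sum_eq_single (⟨(u, b), sys_mem_colL hu b⟩ : ↥(colL V).toFinset)]
  · simp [eC]
  · intro c _ hne
    have : c.1 ≠ (u, b) := fun h => hne (Subtype.ext h)
    simp [eC, this]
  · intro h
    exact absurd (Finset.mem_univ _) h

section Rows

variable {k : ℕ} {V : List NBin} (τ : Row → ℤ) (s : Fin k → ℝ) (z : ↥(colL V).toFinset → ℝ)
  {u v : NBin} (hu : u ∈ V) (hv : v ∈ V)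

theorem sys_row_X : (sysOf k V τ).row s ⟨(0, u, v), sys_mem_rowL (by omega) hu hv⟩ z =
    z ⟨(u, false), sys_mem_colL hu false⟩ - z ⟨(v, false), sys_mem_colL hv false⟩ := by
  have h1 := sys_sum_eC hu false z
  have h2 := sys_sum_eC hv false z
  rw [← h1, ← h2, ← Finset.sum_sub_distrib, PSys.row]
  refine Finset.sum_congr rfl fun c _ => ?_
  simp [sysOf, A0, A1]
  ring

theorem sys_row_Y : (sysOf k V τ).row s ⟨(1, u, v), sys_mem_rowL (by omega) hu hv⟩ z =
    z ⟨(u, true), sys_mem_colL hu true⟩ - z ⟨(v, true), sys_mem_colL hv true⟩ := by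
  have h1 := sys_sum_eC hu true z
  have h2 := sys_sum_eC hv true z
  rw [← h1, ← h2, ← Finset.sum_sub_distrib, PSys.row]
  refine Finset.sum_congr rfl fun c _ => ?_
  simp [sysOf, A0, A1]
  ring

theorem sys_row_D (i : Fin k) :
    (sysOf k V τ).row s ⟨((i : ℕ) + 2, u, v), sys_mem_rowL (by omega) hu hv⟩ z =
    (z ⟨(u, false), sys_mem_colL hu false⟩ - z ⟨(v, false), sys_mem_colL hv false⟩) -
      s i * (z ⟨(u, true), sys_mem_colL hu true⟩ - z ⟨(v, true), sys_mem_colL hv true⟩) := by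
  have h1 := sys_sum_eC hu true z
  have h2 := sys_sum_eC hv true z
  have h3 := sys_sum_eC hu false z
  have h4 := sys_sum_eC hv false z
  rw [← h1, ← h2, ← h3, ← h4, ← Finset.sum_sub_distrib, ← Finset.sum_sub_distrib, Finset.mul_sum,
    ← Finset.sum_sub_distrib, PSys.row]
  refine Finset.sum_congr rfl fun c _ => ?_
  have hsum : ∑ j : Fin k, s j * (((sysOf k V τ).a j
      ⟨((i : ℕ) + 2, u, v), sys_mem_rowL (by omega) hu hv⟩ c : ℤ) : ℝ) =
      s i * (((eC v true c.1 - eC u true c.1 : ℤ)) : ℝ) := by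
    rw [Finset.sum_eq_single i]
    · simp [sysOf, A1]
    · intro j _ hne
      have : (i : ℕ) ≠ (j : ℕ) := fun h => hne (Fin.ext h.symm)
      simp [sysOf, A1, this]
    · intro h
      exact absurd (Finset.mem_univ _) h
  rw [hsum]
  have h0 : (sysOf k V τ).a0 ⟨((i : ℕ) + 2, u, v), sys_mem_rowL (by omega) hu hv⟩ c =
      eC u false c.1 - eC v false c.1 := by
    simp [sysOf, A0]
  rw [h0]
  push_cast
  ring

end Rows

/-- Drawings in terms of parametric systems. -/
theorem hasDrawing_iff_sys {k : ℕ} {c : Code} (hc : c.IsDigraph) :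
    HasDrawing k c ↔ ∃ τ : Row → ℤ, (∀ r, τ r = 0 ∨ τ r = 1 ∨ τ r = -1) ∧
      Good k c (fun u v => τ (0, u, v)) (fun u v => τ (1, u, v)) (fun i u v => τ (i + 2, u, v)) ∧
      (sysOf k c.1 τ).Solvable := by
  rw [hasDrawing_iff hc]
  constructor
  · rintro ⟨s, P, h⟩
    refine ⟨fun r => if r.1 = 0 then sX P r.2.1 r.2.2 else if r.1 = 1 then sY P r.2.1 r.2.2
      else sD s P (r.1 - 2) r.2.1 r.2.2, ?_, ?_, ?_⟩
    · intro r
      dsimp only
      split_ifs
      · exact sg_cases _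
      · exact sg_cases _
      · exact sg_cases _
    · refine good_congr hc ?_ ?_ ?_ h
      · intro u _ v _; simp
      · intro u _ v _; simp
      · intro i _ u _ v _; simp
    · refine ⟨fun i => s i, fun c => if c.1.2 then (P c.1.1).2 else (P c.1.1).1, ?_⟩
      rintro ⟨⟨m, u, v⟩, hr⟩ hfree
      obtain ⟨-, hu, hv⟩ := sys_of_mem_rowL hr
      have hm : m < k + 2 := by
        by_contra hcon
        exact hfree (show k + 2 ≤ m by omega)
      rcases m with _ | _ | i
      · rw [sys_row_X _ _ _ hu hv]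
        simp [sysOf, sX]
      · rw [sys_row_Y _ _ _ hu hv]
        simp [sysOf, sY]
      · have hi : i < k := by omega
        rw [sys_row_D _ _ _ hu hv ⟨i, hi⟩]
        simp [sysOf, sD, hm]
  · rintro ⟨τ, -, hG, s, z, hz⟩
    let P : NBin → ℝ × ℝ := fun u => if h : u ∈ c.1 then
      (z ⟨(u, false), sys_mem_colL h false⟩, z ⟨(u, true), sys_mem_colL h true⟩) else (0, 0)
    refine ⟨fun i => if h : i < k then s ⟨i, h⟩ else 0, P, good_congr hc ?_ ?_ ?_ hG⟩
    · intro u hu v hv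
      have := hz ⟨(0, u, v), sys_mem_rowL (by omega) hu hv⟩ (by simp [sysOf])
      rw [sys_row_X _ _ _ hu hv] at this
      simp [sysOf] at this
      simp [sX, P, hu, hv, this]
    · intro u hu v hv
      have := hz ⟨(1, u, v), sys_mem_rowL (by omega) hu hv⟩ (by simp [sysOf])
      rw [sys_row_Y _ _ _ hu hv] at this
      simp [sysOf] at this
      simp [sY, P, hu, hv, this]
    · intro i hi u hu v hv
      have := hz ⟨(i + 2, u, v), sys_mem_rowL (by omega) hu hv⟩ (by simp [sysOf, hi])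
      rw [sys_row_D _ _ _ hu hv ⟨i, hi⟩] at this
      simp [sysOf, hi] at this
      simp [sD, P, hu, hv, hi, this]

end Vf

end Pool.Agent.Lib.UPSlopes
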