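import Pool.Agent.Lib.MP_51356b_lc.Defs
import Pool.Agent.Lib.MP_51356b_lc.Param

/-!
# The parametric system of a digraph: definitions
-/

namespace Pool.Agent.Lib.UPSlopes

open Turing Pool.Agent.Lib.PolyTime

namespace Vf

/-- Names of the unknowns: `(v, false)` is the abscissa, `(v, true)` the ordinate of `v`. -/
abbrev Col := NBin × Bool

/-- Names of the rows. -/
abbrev Row := ℕ × NBin × NBin

def colL (V : List NBin) : List Col := V ×ˢ [false, true]

def rowL (k : ℕ) (V : List NBin) : List Row := List.range (k + 4) ×ˢ (V ×ˢ V)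

def eC (u : NBin) (b : Bool) (c : Col) : ℤ := if c = (u, b) then 1 else 0

def A0 (k : ℕ) (r : Row) (c : Col) : ℤ :=
  if r.1 = 1 then eC r.2.1 true c - eC r.2.2 true c
  else if r.1 < k + 2 then eC r.2.1 false c - eC r.2.2 false c
  else if r.1 = k + 2 then eC r.2.1 false c else eC r.2.1 true c

def A1 (i : ℕ) (r : Row) (c : Col) : ℤ :=
  if r.1 = i + 2 then eC r.2.2 true c - eC r.2.1 true c else 0

/-- The bound for the size of the system. -/
def LF (k n : ℕ) : ℕ := (k + 4) * (n + 1) ^ 2

/-- The parametric system of a table of signs: the row `(0, u, v)` is `x_u - x_v`, the row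
`(1, u, v)` is `y_u - y_v`, the row `(i + 2, u, v)`, `i < k`, is `(x_u - x_v) - s_i (y_u - y_v)`,
and `(k + 2, u, v)`, `(k + 3, u, v)` are the free rows `x_u` and `y_u`. -/
def sysOf (k : ℕ) (V : List NBin) (τ : Row → ℤ) :
    PSys ↥(rowL k V).toFinset ↥(colL V).toFinset k where
  a0 r c := A0 k r.1 c.1
  a i r c := A1 i r.1 c.1
  τ r := if r.1.1 < k + 2 then τ r.1 else 0
  free := {r | k + 2 ≤ r.1.1}

end Vf

end Pool.Agent.Lib.UPSlopes
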