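import Pool.Agent.Lib.MP_51356b_lc.Draw
import Pool.Agent.Lib.MP_51356b_lc.VDefs

/-!
# The parametric system of a digraph is well formed
-/

namespace Pool.Agent.Lib.UPSlopes

open Turing Pool.Agent.Lib.PolyTime

namespace Vf

/-- `Good` only depends on the values of the tables on the vertices. -/
theorem good_congr {k : ℕ} {c : Code} (hc : c.IsDigraph) {X X' Y Y' : NBin → NBin → ℤ}
    {D D' : ℕ → NBin → NBin → ℤ} (hX : ∀ u ∈ c.1, ∀ v ∈ c.1, X u v = X' u v)
    (hY : ∀ u ∈ c.1, ∀ v ∈ c.1, Y u v = Y' u v)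
    (hD : ∀ i < k, ∀ u ∈ c.1, ∀ v ∈ c.1, D i u v = D' i u v) (h : Good k c X Y D) :
    Good k c X' Y' D' := by
  refine ⟨?_, ?_, ?_, ?_⟩
  · intro u hu v hv h1 h2
    exact h.inj u hu v hv (by rw [hX u hu v hv, h1]) (by rw [hY u hu v hv, h2])
  · intro e he
    obtain ⟨h1, i, hi, h2⟩ := h.edge e he
    obtain ⟨e1, e2⟩ := hc.ends e he
    exact ⟨by rw [← hY _ e2 _ e1, h1], i, hi, by rw [← hD i hi _ e2 _ e1, h2]⟩
  · intro e he i hi h0 w hw hw1 hw2
    obtain ⟨e1, e2⟩ := hc.ends e he
    rw [← hD i hi _ e2 _ e1] at h0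
    have := h.vertex e he i hi h0 w hw hw1 hw2
    rwa [hD i hi _ hw _ e1, hY _ hw _ e1, hY _ e2 _ hw] at this
  · intro e he f hf hef i hi j hj h0 h0'
    obtain ⟨e1, e2⟩ := hc.ends e he
    obtain ⟨f1, f2⟩ := hc.ends f hf
    rw [← hD i hi _ e2 _ e1] at h0
    rw [← hD j hj _ f2 _ f1] at h0'
    have := h.cross e he f hf hef i hi j hj h0 h0'
    rwa [hD i hi _ f2 _ e1, hD i hi _ f1 _ e2, hD i hi _ f1 _ e1, hD j hj _ e1 _ f1,
      hD j hj _ e2 _ f1, hY _ f1 _ e2, hY _ e1 _ f2] at this

theorem sysOk_eC_natAbs (u : NBin) (b : Bool) (c : Col) :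
    (eC u b c).natAbs = if c = (u, b) then 1 else 0 := by
  unfold eC
  split_ifs <;> simp

theorem sysOk_sum_eC (S : Finset Col) (u : NBin) (b : Bool) :
    ∑ c : ↥S, (eC u b c.1).natAbs ≤ 1 := by
  have h : ∑ c : ↥S, (eC u b c.1).natAbs = ∑ c ∈ S, (eC u b c).natAbs :=
    Finset.sum_coe_sort S (fun c => (eC u b c).natAbs)
  rw [h]
  simp only [sysOk_eC_natAbs]
  rw [Finset.sum_ite_eq']
  split_ifs <;> simp

theorem sysOk_sum_sub (S : Finset Col) (u v : NBin) (b : Bool) :
    ∑ c : ↥S, (eC u b c.1 - eC v b c.1).natAbs ≤ 2 := by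
  calc ∑ c : ↥S, (eC u b c.1 - eC v b c.1).natAbs
      ≤ ∑ c : ↥S, ((eC u b c.1).natAbs + (eC v b c.1).natAbs) :=
        Finset.sum_le_sum fun c _ => Int.natAbs_sub_le _ _
    _ ≤ 1 + 1 := by
        rw [Finset.sum_add_distrib]
        exact Nat.add_le_add (sysOk_sum_eC S u b) (sysOk_sum_eC S v b)

theorem sysOk_sum_A0 (k : ℕ) (S : Finset Col) (r : Row) :
    ∑ c : ↥S, (A0 k r c.1).natAbs ≤ 2 := by
  unfold A0
  split_ifs with h1 h2 h3
  · exact sysOk_sum_sub S _ _ _
  · exact sysOk_sum_sub S _ _ _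
  · exact (sysOk_sum_eC S _ _).trans (by norm_num)
  · exact (sysOk_sum_eC S _ _).trans (by norm_num)

theorem sysOk_sum_A1 (i : ℕ) (S : Finset Col) (r : Row) :
    ∑ c : ↥S, (A1 i r c.1).natAbs ≤ if r.1 = i + 2 then 2 else 0 := by
  unfold A1
  split_ifs with h1
  · exact sysOk_sum_sub S _ _ _
  · simp

theorem sysOk_mem_colL {V : List NBin} {c : Col} : c ∈ colL V ↔ c.1 ∈ V := by
  unfold colL
  rw [List.mem_product]
  constructor
  · exact fun h => h.1
  · intro h
    refine ⟨h, ?_⟩
    cases c.2 <;> simp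

theorem sysOk_mem_rowL {k : ℕ} {V : List NBin} {r : Row} :
    r ∈ rowL k V ↔ r.1 < k + 4 ∧ r.2.1 ∈ V ∧ r.2.2 ∈ V := by
  unfold rowL
  rw [List.mem_product, List.mem_product, List.mem_range]

theorem sysOk_card_rows (k : ℕ) (V : List NBin) :
    Fintype.card ↥(rowL k V).toFinset ≤ LF k V.length := by
  rw [Fintype.card_coe]
  refine (List.toFinset_card_le _).trans ?_
  unfold rowL LF
  rw [List.length_product, List.length_product, List.length_range]
  apply Nat.mul_le_mul_left
  nlinarith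

theorem sysOk_card_cols (k : ℕ) (V : List NBin) :
    Fintype.card ↥(colL V).toFinset ≤ LF k V.length := by
  rw [Fintype.card_coe]
  refine (List.toFinset_card_le _).trans ?_
  unfold colL LF
  rw [List.length_product]
  simp only [List.length_cons, List.length_nil]
  nlinarith [Nat.zero_le (k * (V.length + 1) ^ 2)]

/-- The system is well formed. -/
theorem sysOf_ok (k : ℕ) (V : List NBin) (τ : Row → ℤ)
    (hτ : ∀ r ∈ rowL k V, r.1 < k + 2 → τ r = 0 ∨ τ r = 1 ∨ τ r = -1) :
    (sysOf k V τ).Ok (LF k V.length) := by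
  refine ⟨?_, ?_, ?_, sysOk_card_rows k V, sysOk_card_cols k V, ?_⟩
  · intro r
    simp only [sysOf]
    split_ifs with h
    · exact hτ r.1 (List.mem_toFinset.mp r.2) h
    · exact Or.inl rfl
  · intro r hr
    have hr' : k + 2 ≤ r.1.1 := hr
    simp only [sysOf]
    rw [if_neg (by omega)]
  · rintro ⟨⟨u, b⟩, hc⟩
    have hu : u ∈ V := sysOk_mem_colL.mp (List.mem_toFinset.mp hc)
    refine ⟨⟨(k + 2 + b.toNat, u, u), ?_⟩, ?_, ?_, ?_⟩
    · rw [List.mem_toFinset, sysOk_mem_rowL]
      refine ⟨?_, hu, hu⟩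
      have : b.toNat ≤ 1 := Bool.toNat_le b
      simp only
      omega
    · show k + 2 ≤ k + 2 + b.toNat
      omega
    · funext c
      simp only [sysOf, A0, eC, Pi.single_apply]
      have hiff : (c = (⟨(u, b), hc⟩ : ↥(colL V).toFinset)) ↔ c.1 = (u, b) := by
        rw [Subtype.ext_iff]
      simp only [hiff]
      cases b
      · have h1 : false.toNat = 0 := rfl
        rw [if_neg (by omega), if_neg (by omega), if_pos (by omega)]
      · have h1 : true.toNat = 1 := rfl
        rw [if_neg (by omega), if_neg (by omega), if_neg (by omega)]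
    · intro i
      funext c
      have hi := i.2
      simp only [sysOf, A1, Pi.zero_apply]
      rw [if_neg (by omega)]
  · intro r
    simp only [sysOf]
    rw [Finset.sum_add_distrib, Finset.sum_comm]
    have h1 := sysOk_sum_A0 k (colL V).toFinset r.1
    have h2 : ∑ i : Fin k, ∑ c : ↥(colL V).toFinset, (A1 i r.1 c.1).natAbs ≤ 2 := by
      calc ∑ i : Fin k, ∑ c : ↥(colL V).toFinset, (A1 i r.1 c.1).natAbs
          ≤ ∑ i : Fin k, if r.1.1 = (i : ℕ) + 2 then 2 else 0 :=
            Finset.sum_le_sum fun i _ => sysOk_sum_A1 i _ r.1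
        _ ≤ 2 := by
            by_cases hex : ∃ i : Fin k, r.1.1 = (i : ℕ) + 2
            · obtain ⟨i0, hi0⟩ := hex
              have : ∀ i : Fin k, (if r.1.1 = (i : ℕ) + 2 then 2 else 0) =
                  if i = i0 then 2 else 0 := by
                intro i
                have : r.1.1 = (i : ℕ) + 2 ↔ i = i0 := by
                  rw [Fin.ext_iff]
                  omega
                simp only [this]
              simp only [this]
              rw [Finset.sum_ite_eq']
              simp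
            · push Not at hex
              rw [Finset.sum_eq_zero]
              · omega
              · intro i _
                rw [if_neg (hex i)]
    have h3 : 4 ≤ LF k V.length := by
      unfold LF
      nlinarith [Nat.zero_le (k * (V.length + 1) ^ 2), Nat.zero_le (V.length)]
    omega

end Vf

end Pool.Agent.Lib.UPSlopes
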