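import Pool.Agent.Lib.MP_51356b_lc.VerifyPoly

/-!
# The size of the certificates
-/

namespace Pool.Agent.Lib.UPSlopes

open Turing Pool.Agent.Lib.PolyTime

namespace Vf

/-- The certificate with given data. -/
def mkCer (k : ℕ) (c : Code) (τ : Row → ℤ) (Q : Fin k → ℤ) (ρ : Col → Row) (W : Col → Col → ℤ)
    (δ : ℤ) : Cer :=
  (c, (rowL k c.1).map (fun r => (r, τ r)), List.ofFn Q, (colL c.1).map (fun t => (t, ρ t)),
    (colL c.1 ×ˢ colL c.1).map (fun p => (p, W p.1 p.2)), δ)

theorem sz_name_le (v : NBin) : sz v + 1 ≤ (nameWord v).length := by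
  have h1 : sz v ≤ 2 * (Nat.bits v).length := sz_bits_le (Nat.bits v)
  have h2 : (nameWord v).length = 2 * (Nat.bits v).length + 1 := by
    unfold nameWord
    rw [List.length_append, List.length_flatMap]
    simp
    ring
  omega

theorem sz_names_le (l : List NBin) :
    sz l ≤ (l.flatMap (fun v => true :: nameWord v)).length := by
  induction l with
  | nil => simp
  | cons v l ih =>
    have := sz_name_le v
    rw [List.flatMap_cons, List.length_append, List.length_cons, sz_cons]
    omega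

theorem sz_edges_le (l : List (NBin × NBin)) :
    sz l ≤ (l.flatMap (fun e => true :: (nameWord e.1 ++ nameWord e.2))).length := by
  induction l with
  | nil => simp
  | cons e l ih =>
    have h1 := sz_name_le e.1
    have h2 := sz_name_le e.2
    rw [List.flatMap_cons, List.length_append, List.length_cons, List.length_append, sz_cons,
      sz_prod]
    omega

theorem sz_code_le (c : Code) : sz c ≤ c.word.length := by
  have h1 := sz_names_le c.1
  have h2 := sz_edges_le c.2
  unfold Code.word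
  rw [List.length_append, List.length_cons, List.length_append, List.length_singleton, sz_prod]
  omega

theorem sz_of_lt {z : ℤ} {n : ℕ} (h : |z| < 2 ^ n) : sz z ≤ 2 * n + 2 := sz_int_le_of_abs_lt h

/-- The bound for the size. -/
def szB (k t N : ℕ) : ℕ :=
  1 + N + (1 + (1 + (2 * N + k + 6) + 4 + 1) * ((k + 4) * (N * N)) +
    (1 + (2 * (LF k N + 2) ^ t + 3) * k +
      (1 + (1 + (N + 2) + (2 * N + k + 6) + 1) * (N * 2) +
        (1 + (1 + (1 + (N + 2) + (N + 2)) + (2 * (LF k N + 2) ^ t + 2) + 1) *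
          ((N * 2) * (N * 2)) + (2 * (LF k N + 2) ^ t + 2)))))

theorem pbd_szB (k t : ℕ) : ∃ B : Polynomial ℕ, ∀ N, szB k t N ≤ B.eval N := by
  have hN : PBd (fun N : ℕ => N) := PBd.size.of_le fun x => by simp
  have hc : ∀ m : ℕ, PBd (fun _ : ℕ => m) := fun m => PBd.const m
  have hLF : PBd (fun N : ℕ => (LF k N + 2) ^ t) := by
    unfold LF
    exact (((hc (k + 4)).mul ((hN.add (hc 1)).pow 2)).add (hc 2)).pow t
  have hR : PBd (fun N : ℕ => 2 * N + k + 6) := (((hc 2).mul hN).add (hc k)).add (hc 6)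
  have hN2 : PBd (fun N : ℕ => N + 2) := hN.add (hc 2)
  have h : PBd (szB k t) := by
    unfold szB
    exact ((hc 1).add hN).add (((hc 1).add (((((hc 1).add hR).add (hc 4)).add (hc 1)).mul
      ((hc (k + 4)).mul (hN.mul hN)))).add
      (((hc 1).add ((((hc 2).mul hLF).add (hc 3)).mul (hc k))).add
      (((hc 1).add (((((hc 1).add hN2).add hR).add (hc 1)).mul (hN.mul (hc 2)))).add
      (((hc 1).add (((((hc 1).add (((hc 1).add hN2).add hN2)).add
        (((hc 2).mul hLF).add (hc 2))).add (hc 1)).mul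
        ((hN.mul (hc 2)).mul (hN.mul (hc 2))))).add (((hc 2).mul hLF).add (hc 2))))))
  obtain ⟨B, hB⟩ := h
  refine ⟨B, fun N => ?_⟩
  have := hB N
  rwa [sz_nat] at this

/-- The certificates are short. -/
theorem size_mkCer (k t : ℕ) : ∃ B : Polynomial ℕ, ∀ (c : Code) (τ : Row → ℤ) (Q : Fin k → ℤ)
    (ρ : Col → Row) (W : Col → Col → ℤ) (δ : ℤ), (∀ r, |τ r| < 2) →
    (∀ i, |Q i| < 2 ^ ((LF k c.1.length + 2) ^ t)) → (∀ a ∈ colL c.1, ρ a ∈ rowL k c.1) →
    (∀ a ∈ colL c.1, ∀ b ∈ colL c.1, |W a b| < 2 ^ ((LF k c.1.length + 2) ^ t)) →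
    |δ| < 2 ^ ((LF k c.1.length + 2) ^ t) →
    sz (mkCer k c τ Q ρ W δ) ≤ B.eval c.word.length := by
  obtain ⟨B, hB⟩ := pbd_szB k t
  refine ⟨B, fun c τ Q ρ W δ hτ hQ hρ hW hδ => le_trans ?_ (hB c.word.length)⟩
  set N := c.word.length with hN
  have hc : sz c ≤ N := sz_code_le c
  have hc1 : sz c.1 ≤ N := by
    have : sz c = 1 + sz c.1 + sz c.2 := sz_prod c
    omega
  have hn : c.1.length ≤ N := (length_le_sz c.1).trans hc1
  have hv : ∀ v ∈ c.1, sz v ≤ N := fun v hv => by
    have := sz_mem hv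
    omega
  have hLF : (LF k c.1.length + 2) ^ t ≤ (LF k N + 2) ^ t := by
    unfold LF
    gcongr
  set T := (LF k N + 2) ^ t with hT
  have hrow : ∀ r ∈ rowL k c.1, sz r ≤ 2 * N + k + 6 := by
    rintro ⟨i, u, v⟩ hr
    unfold rowL at hr
    rw [List.mem_product, List.mem_product, List.mem_range] at hr
    have h1 := hv u hr.2.1
    have h2 := hv v hr.2.2
    have h3 := hr.1
    rw [sz_prod, sz_prod, sz_nat]
    dsimp only
    omega
  have hcol : ∀ a ∈ colL c.1, sz a ≤ N + 2 := by
    rintro ⟨u, b⟩ ha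
    unfold colL at ha
    rw [List.mem_product] at ha
    have h1 := hv u ha.1
    have h2 := sz_bool_le b
    rw [sz_prod]
    dsimp only
    omega
  have e1 : sz ((rowL k c.1).map (fun r => (r, τ r))) ≤
      (1 + (2 * N + k + 6) + 4 + 1) * ((k + 4) * (N * N)) := by
    refine (sz_le_of_forall (M := 1 + (2 * N + k + 6) + 4) ?_).trans ?_
    · intro a ha
      obtain ⟨r, hr, rfl⟩ := List.mem_map.mp ha
      have h1 := hrow r hr
      have h2 : sz (τ r) ≤ 2 * 1 + 2 := sz_of_lt (by simpa using hτ r)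
      rw [sz_prod]
      dsimp only
      omega
    · rw [List.length_map]
      unfold rowL
      rw [List.length_product, List.length_product, List.length_range]
      gcongr
  have e2 : sz (List.ofFn Q) ≤ (2 * T + 3) * k := by
    refine (sz_le_of_forall (M := 2 * T + 2) ?_).trans ?_
    · intro a ha
      obtain ⟨i, rfl⟩ := (List.mem_ofFn' Q a).mp ha
      have := sz_of_lt (hQ i)
      omega
    · rw [List.length_ofFn]
  have e3 : sz ((colL c.1).map (fun t => (t, ρ t))) ≤
      (1 + (N + 2) + (2 * N + k + 6) + 1) * (N * 2) := by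
    refine (sz_le_of_forall (M := 1 + (N + 2) + (2 * N + k + 6)) ?_).trans ?_
    · intro a ha
      obtain ⟨s, hs, rfl⟩ := List.mem_map.mp ha
      have h1 := hrow _ (hρ s hs)
      have h2 := hcol s hs
      rw [sz_prod]
      dsimp only
      omega
    · rw [List.length_map]
      unfold colL
      rw [List.length_product]
      gcongr
      simp
  have e4 : sz ((colL c.1 ×ˢ colL c.1).map (fun p => (p, W p.1 p.2))) ≤
      (1 + (1 + (N + 2) + (N + 2)) + (2 * T + 2) + 1) * ((N * 2) * (N * 2)) := by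
    refine (sz_le_of_forall (M := 1 + (1 + (N + 2) + (N + 2)) + (2 * T + 2)) ?_).trans ?_
    · intro a ha
      obtain ⟨⟨s, s'⟩, hs, rfl⟩ := List.mem_map.mp ha
      rw [List.mem_product] at hs
      have h1 := hcol s hs.1
      have h2 := hcol s' hs.2
      have h3 := sz_of_lt (hW s hs.1 s' hs.2)
      rw [sz_prod, sz_prod]
      dsimp only
      omega
    · rw [List.length_map, List.length_product]
      have : (colL c.1).length ≤ N * 2 := by
        unfold colL
        rw [List.length_product]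
        gcongr
        simp
      gcongr
  have e5 : sz δ ≤ 2 * T + 2 := by
    have := sz_of_lt hδ
    omega
  have e6 : sz (mkCer k c τ Q ρ W δ) = 1 + sz c + (1 + sz ((rowL k c.1).map (fun r => (r, τ r))) +
      (1 + sz (List.ofFn Q) + (1 + sz ((colL c.1).map (fun t => (t, ρ t))) +
      (1 + sz ((colL c.1 ×ˢ colL c.1).map (fun p => (p, W p.1 p.2))) + sz δ)))) := rfl
  rw [e6]
  unfold szB
  rw [← hT]
  omega

end Vf

end Pool.Agent.Lib.UPSlopes
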