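import Pool.Agent.Lib.MP_51356b_lc.Sys
import Pool.Agent.Lib.MP_51356b_lc.VSize

/-!
# The polynomial-time verifier

The witness of a digraph is the word of a certificate `g : Cer`: the digraph, a table of signs and
a certificate of the solvability of its parametric system (`PSys.Cert`). The verifier `verF` works
with lists and integers (`VerifyPoly`); here we prove that it accepts some certificate of
polynomial size if and only if the digraph has an upward drawing with few slopes.
-/

set_option linter.unusedSimpArgs false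

namespace Pool.Agent.Lib.UPSlopes

open Turing Pool.Agent.Lib.PolyTime

namespace Vf

theorem lookup_map_of_mem {α β : Type*} [BEq α] [LawfulBEq α] (l : List α) (f : α → β) {a : α}
    (h : a ∈ l) : (l.map (fun r => (r, f r))).lookup a = some (f a) := by
  induction l with
  | nil => simp at h
  | cons b l ih =>
    rw [List.map_cons, List.lookup_cons]
    cases hb : a == b with
    | true =>
      have : a = b := by simpa using hb
      rw [this]
    | false =>
      have hne : a ≠ b := by simpa using hb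
      rcases List.mem_cons.mp h with h1 | h1
      · exact absurd h1 hne
      · exact ih h1

theorem nodup_colL {V : List NBin} (hV : V.Nodup) : (colL V).Nodup :=
  List.Nodup.product hV (by decide)

theorem mem_rowL {k : ℕ} {V : List NBin} {r : Row} :
    r ∈ rowL k V ↔ r.1 < k + 4 ∧ r.2.1 ∈ V ∧ r.2.2 ∈ V := by
  obtain ⟨i, u, v⟩ := r
  unfold rowL
  rw [List.mem_product, List.mem_product, List.mem_range]

theorem irow_eq {k : ℕ} {V : List NBin} (hV : V.Nodup) (τ : Row → ℤ) (b : ℤ) (q : ℕ → ℤ)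
    (r : ↥(rowL k V).toFinset) (z : Col → ℤ) :
    (sysOf k V τ).irow b (fun i => q i) r (fun c => z c.1) =
      ((colL V).map fun c => (b * A0 k r.1 c +
        ((List.range k).map fun i => q i * A1 i r.1 c).sum) * z c).sum := by
  have h0 : ∀ c : Col, ∑ i : Fin k, q i * A1 i r.1 c =
      ((List.range k).map fun i => q i * A1 i r.1 c).sum := by
    intro c
    rw [← List.sum_toFinset _ List.nodup_range, List.toFinset_range, Finset.sum_range]
  have h1 := Finset.sum_coe_sort (colL V).toFinset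
    (fun c => (b * A0 k r.1 c + ∑ i : Fin k, q i * A1 i r.1 c) * z c)
  unfold PSys.irow
  refine h1.trans ?_
  rw [List.sum_toFinset _ (nodup_colL hV)]
  simp only [h0]

theorem tauF_ite (k : ℕ) (g : Cer) (r : Row) :
    (if r.1 < k + 2 then tauF k g r else 0) = tauF k g r := by
  unfold tauF
  split_ifs <;> rfl

theorem irowF_eq {k : ℕ} {g : Cer} (hV : g.1.1.Nodup) (b : ℤ)
    (r : ↥(rowL k g.1.1).toFinset) (z : Col → ℤ) :
    (sysOf k g.1.1 (tauF k g)).irow b (fun i => qF g i) r (fun c => z c.1) =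
      irowF k b g r.1 z := by
  rw [irow_eq hV]
  unfold irowF
  rfl

theorem sol_eq {k : ℕ} {g : Cer} (hV : g.1.1.Nodup)
    (hρ : ∀ t : ↥(colL g.1.1).toFinset, rhoF g t.1 ∈ (rowL k g.1.1).toFinset) :
    (sysOf k g.1.1 (tauF k g)).sol (fun t => ⟨rhoF g t.1, hρ t⟩) (fun t c => wF g (t.1, c.1)) =
      fun c => solF k g c.1 := by
  funext c
  have h1 := Finset.sum_coe_sort (colL g.1.1).toFinset
    (fun t => tauF k g (rhoF g t) * wF g (t, c.1))
  unfold PSys.sol
  unfold solF
  rw [← List.sum_toFinset _ (nodup_colL hV), ← h1]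
  refine Finset.sum_congr rfl fun t _ => ?_
  show (if (rhoF g t.1).1 < k + 2 then tauF k g (rhoF g t.1) else 0) * _ = _
  rw [tauF_ite]

theorem cert_iff {k : ℕ} {R p b : ℕ → ℕ} {g : Cer} (hV : g.1.1.Nodup)
    (hρ : ∀ t : ↥(colL g.1.1).toFinset, rhoF g t.1 ∈ (rowL k g.1.1).toFinset) :
    (sysOf k g.1.1 (tauF k g)).Cert (R g.1.1.length) (p g.1.1.length) (b g.1.1.length)
      (fun i => qF g i) (fun t => ⟨rhoF g t.1, hρ t⟩) (fun t c => wF g (t.1, c.1)) (dF g) ↔
    (bBasis k b g = true ∧ bEq k p b g = true ∧ bGe k R b g = true ∧ bBd k R b g = true) := by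
  have e1 : ∀ t t' : ↥(colL g.1.1).toFinset,
      (sysOf k g.1.1 (tauF k g)).irow (2 ^ b g.1.1.length) (fun i => qF g i)
        ⟨rhoF g t.1, hρ t⟩ (fun c => wF g (t'.1, c.1)) =
      irowF k (2 ^ b g.1.1.length) g (rhoF g t.1) (fun c => wF g (t'.1, c)) := fun t t' =>
    irowF_eq hV _ ⟨rhoF g t.1, hρ t⟩ (fun c => wF g (t'.1, c))
  have e2 : ∀ r : ↥(rowL k g.1.1).toFinset,
      (sysOf k g.1.1 (tauF k g)).irow (2 ^ b g.1.1.length) (fun i => qF g i) r
        ((sysOf k g.1.1 (tauF k g)).sol (fun t => ⟨rhoF g t.1, hρ t⟩)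
          (fun t c => wF g (t.1, c.1))) =
      irowF k (2 ^ b g.1.1.length) g r.1 (solF k g) := fun r => by
    rw [sol_eq hV]
    exact irowF_eq hV _ r (solF k g)
  have e3 : ∀ r : ↥(rowL k g.1.1).toFinset, (sysOf k g.1.1 (tauF k g)).τ r = tauF k g r.1 :=
    fun r => tauF_ite k g r.1
  have e4 : ∀ r : ↥(rowL k g.1.1).toFinset, r ∉ (sysOf k g.1.1 (tauF k g)).free ↔
      r.1.1 < k + 2 := fun r => by
    show ¬ (k + 2 ≤ r.1.1) ↔ _
    omega
  constructor
  · intro h
    refine ⟨?_, ?_, ?_, ?_⟩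
    · unfold bBasis
      rw [List.all_eq_true]
      intro t ht
      rw [List.all_eq_true]
      intro t' ht'
      rw [decide_eq_true_eq]
      have h1 := h.basis ⟨t, List.mem_toFinset.mpr ht⟩ ⟨t', List.mem_toFinset.mpr ht'⟩
      rw [e1] at h1
      rw [h1]
      simp only [Subtype.mk.injEq]
    · unfold bEq
      rw [List.all_eq_true]
      intro r hr
      have h1 := h.eq ⟨r, List.mem_toFinset.mpr hr⟩
      rw [e2, e3, e4] at h1
      simp only [Bool.or_eq_true, Bool.not_eq_true', decide_eq_false_iff_not, decide_eq_true_eq]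
      by_cases h2 : r.1 < k + 2
      · by_cases h3 : tauF k g r = 0
        · exact Or.inr (h1 h2 h3)
        · exact Or.inl (Or.inr h3)
      · exact Or.inl (Or.inl h2)
    · unfold bGe
      rw [List.all_eq_true]
      intro r hr
      have h1 := h.ge ⟨r, List.mem_toFinset.mpr hr⟩
      rw [e2, e3, e4] at h1
      simp only [Bool.or_eq_true, Bool.not_eq_true', decide_eq_false_iff_not, decide_eq_true_eq]
      by_cases h2 : r.1 < k + 2
      · by_cases h3 : tauF k g r = 0
        · exact Or.inl (Or.inr h3)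
        · exact Or.inr (h1 h2 h3)
      · exact Or.inl (Or.inl h2)
    · unfold bBd
      simp only [Bool.and_eq_true, decide_eq_true_eq, List.all_eq_true, List.mem_range]
      refine ⟨⟨h.pos, fun t ht c hc => ?_⟩, fun i hi => ?_⟩
      · exact h.bdW ⟨t, List.mem_toFinset.mpr ht⟩ ⟨c, List.mem_toFinset.mpr hc⟩
      · exact h.bdQ ⟨i, hi⟩
  · rintro ⟨h1, h2, h3, h4⟩
    unfold bBasis at h1
    unfold bEq at h2
    unfold bGe at h3
    unfold bBd at h4
    simp only [Bool.and_eq_true, Bool.or_eq_true, Bool.not_eq_true', decide_eq_false_iff_not,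
      decide_eq_true_eq, List.all_eq_true, List.mem_range] at h1 h2 h3 h4
    refine ⟨h4.1.1, fun t t' => ?_, fun r hr hr0 => ?_, fun r hr hr0 => ?_, fun t c => ?_,
      fun i => h4.2 i i.2⟩
    · rw [e1, h1 t.1 (List.mem_toFinset.mp t.2) t'.1 (List.mem_toFinset.mp t'.2)]
      simp only [Subtype.ext_iff]
    · rw [e4] at hr
      rw [e3] at hr0
      rw [e2]
      rcases h2 r.1 (List.mem_toFinset.mp r.2) with (h | h) | h
      · exact absurd hr h
      · exact absurd hr0 h
      · exact h
    · rw [e4] at hr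
      rw [e3] at hr0
      rw [e2, e3]
      rcases h3 r.1 (List.mem_toFinset.mp r.2) with (h | h) | h
      · exact absurd hr h
      · exact absurd h hr0
      · exact h
    · exact h4.1.2 t.1 (List.mem_toFinset.mp t.2) c.1 (List.mem_toFinset.mp c.2)

/-- The conditions on the digraph. -/
theorem bDig_iff (c : Code) : bDig c = true ↔ c.IsDigraph := by
  unfold bDig
  simp only [Bool.and_eq_true, decide_eq_true_eq, List.all_eq_true, Bool.not_eq_true',
    decide_eq_false_iff_not]
  constructor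
  · rintro ⟨⟨⟨h1, h2⟩, h3⟩, h4⟩
    exact ⟨h1, h2, h3, h4⟩
  · rintro ⟨h1, h2, h3, h4⟩
    exact ⟨⟨⟨h1, h2⟩, h3⟩, h4⟩

/-- The combinatorial conditions. -/
theorem good_iff (k : ℕ) (g : Cer) :
    (bInj k g = true ∧ bEdge k g = true ∧ bVertex k g = true ∧ bCross k g = true) ↔
    Good k g.1 (fun u v => tauF k g (0, u, v)) (fun u v => tauF k g (1, u, v))
      (fun i u v => tauF k g (i + 2, u, v)) := by
  unfold bInj bEdge bVertex bCross
  simp only [Bool.and_eq_true, decide_eq_true_eq, List.all_eq_true, List.any_eq_true,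
    Bool.not_eq_true', decide_eq_false_iff_not, Bool.or_eq_true, List.mem_range, Bool.not_and,
    Bool.and_eq_false_iff]
  constructor
  · rintro ⟨h1, h2, h3, h4⟩
    refine ⟨fun u hu v hv hX hY => ?_, fun e he => ?_, fun e he i hi hD w hw h5 h6 h7 => ?_,
      fun e he f hf hef i hi j hj hDi hDj => ?_⟩
    · rcases h1 u hu v hv with (h | h) | h
      · exact absurd hX h
      · exact absurd hY h
      · exact h
    · exact h2 e he
    · rcases h3 e he i hi with h | h
      · exact absurd hD h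
      · have := h w hw
        tauto
    · rcases h4 e he f hf with h | h
      · exact absurd h hef
      · have := h i hi j hj
        tauto
  · rintro ⟨h1, h2, h3, h4⟩
    refine ⟨fun u hu v hv => ?_, fun e he => h2 e he, fun e he i hi => ?_, fun e he f hf => ?_⟩
    · have := h1 u hu v hv
      tauto
    · by_cases hD : tauF k g (i + 2, e.2, e.1) = 0
      · refine Or.inr fun w hw => ?_
        have := h3 e he i hi hD w hw
        tauto
      · exact Or.inl hD
    · by_cases hef : e = f
      · exact Or.inl hef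
      · refine Or.inr fun i hi j hj => ?_
        have := h4 e he f hf hef i hi j hj
        tauto

theorem polyF_LF (k : ℕ) (m : ℕ) : PolyF (fun n : ℕ => (LF k n + 2) ^ m) := by
  have h : PolyF (fun n : ℕ => LF k n + 2) := by
    unfold LF
    exact ((PolyF.const (k + 4)).natMul ((PolyF.id.natAdd (PolyF.const 1)).natPow 2)).natAdd
      (PolyF.const 2)
  exact h.natPow m

theorem sysOf_congr {k : ℕ} {V : List NBin} {τ τ' : Row → ℤ}
    (h : ∀ r ∈ rowL k V, r.1 < k + 2 → τ r = τ' r) : sysOf k V τ = sysOf k V τ' := by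
  have : (sysOf k V τ).τ = (sysOf k V τ').τ := by
    funext r
    show (if r.1.1 < k + 2 then τ r.1 else 0) = (if r.1.1 < k + 2 then τ' r.1 else 0)
    split_ifs with h1
    · exact h r.1 (List.mem_toFinset.mp r.2) h1
    · rfl
  unfold sysOf at *
  simp only [PSys.mk.injEq, true_and, and_true]
  exact this

end Vf

open Vf

/-- **`UPSN_k` is in NP.** -/
theorem upsn_np (k : ℕ) : NP (UPSN k) := by
  obtain ⟨r, p, b, t, hs⟩ := solvable_iff k
  obtain ⟨B, hB⟩ := size_mkCer k t
  refine NPT.np_of_polyF (R := verF k (fun n => (LF k n + 2) ^ r) (fun n => (LF k n + 2) ^ p)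
    (fun n => (LF k n + 2) ^ b) (fun n => (LF k n + 2) ^ t))
    (pf_ver k (polyF_LF k r) (polyF_LF k p) (polyF_LF k b) (polyF_LF k t)) B ?_ ?_
  · rintro x ⟨c, hc, hD, rfl⟩
    obtain ⟨τ, hτ, hgood, hsolv⟩ := (hasDrawing_iff_sys hc).mp hD
    obtain ⟨Q, ρ, W, δ, hcert, hQ, hW, hδ⟩ :=
      (hs _ _ _ _ (sysOf_ok k c.1 τ (fun r _ _ => hτ r))).mp hsolv
    -- the certificate
    let ρ' : Col → Row := fun t => if h : t ∈ (colL c.1).toFinset then (ρ ⟨t, h⟩).1 else zrow
    let W' : Col → Col → ℤ := fun t u =>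
      if h : t ∈ (colL c.1).toFinset ∧ u ∈ (colL c.1).toFinset then W ⟨t, h.1⟩ ⟨u, h.2⟩ else 0
    have hρ' : ∀ (t : Col) (h : t ∈ (colL c.1).toFinset), ρ' t = (ρ ⟨t, h⟩).1 := fun t h =>
      dif_pos h
    have hW' : ∀ (t u : Col) (h : t ∈ (colL c.1).toFinset) (h' : u ∈ (colL c.1).toFinset),
        W' t u = W ⟨t, h⟩ ⟨u, h'⟩ := fun t u h h' => dif_pos ⟨h, h'⟩
    set g : Cer := mkCer k c τ Q ρ' W' δ with hg
    have hg1 : g.1 = c := rfl
    have eτ : ∀ r ∈ rowL k c.1, r.1 < k + 2 → tauF k g r = τ r := by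
      intro r hr hk
      unfold tauF
      rw [if_pos hk]
      show (List.lookup r ((rowL k c.1).map (fun r => (r, τ r)))).getD 0 = τ r
      rw [lookup_map_of_mem _ _ hr]
      rfl
    have eq : ∀ i : Fin k, qF g i = Q i := by
      intro i
      unfold qF
      show ((List.ofFn Q)[(i : ℕ)]?).getD 0 = Q i
      rw [List.getElem?_ofFn, dif_pos i.2]
      rfl
    have eρ : ∀ t ∈ colL c.1, rhoF g t = ρ' t := by
      intro t ht
      unfold rhoF
      show (List.lookup t ((colL c.1).map (fun t => (t, ρ' t)))).getD zrow = ρ' t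
      rw [lookup_map_of_mem _ _ ht]
      rfl
    have eW : ∀ t ∈ colL c.1, ∀ u ∈ colL c.1, wF g (t, u) = W' t u := by
      intro t ht u hu
      unfold wF
      show (List.lookup (t, u) ((colL c.1 ×ˢ colL c.1).map (fun p => (p, W' p.1 p.2)))).getD 0 =
        W' t u
      rw [lookup_map_of_mem (colL c.1 ×ˢ colL c.1) (fun p => W' p.1 p.2)
        (List.mem_product.mpr ⟨ht, hu⟩)]
      rfl
    have ed : dF g = δ := by
      unfold dF
      rfl
    have hρmem : ∀ t ∈ colL c.1, ρ' t ∈ rowL k c.1 := by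
      intro t ht
      rw [hρ' t (List.mem_toFinset.mpr ht)]
      exact List.mem_toFinset.mp (ρ _).2
    have hρg : ∀ t : ↥(colL g.1.1).toFinset, rhoF g t.1 ∈ (rowL k g.1.1).toFinset := by
      intro t
      have ht := List.mem_toFinset.mp t.2
      rw [List.mem_toFinset, eρ t.1 ht]
      exact hρmem t.1 ht
    have hsys : sysOf k g.1.1 (tauF k g) = sysOf k c.1 τ := sysOf_congr eτ
    have hcert' : (sysOf k g.1.1 (tauF k g)).Cert ((LF k g.1.1.length + 2) ^ r)
        ((LF k g.1.1.length + 2) ^ p) ((LF k g.1.1.length + 2) ^ b) (fun i => qF g i)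
        (fun t => ⟨rhoF g t.1, hρg t⟩) (fun t c => wF g (t.1, c.1)) (dF g) := by
      have e1 : (fun i : Fin k => qF g i) = Q := funext eq
      have e2 : (fun t : ↥(colL g.1.1).toFinset =>
          (⟨rhoF g t.1, hρg t⟩ : ↥(rowL k g.1.1).toFinset)) = ρ := by
        funext t
        apply Subtype.ext
        show rhoF g t.1 = (ρ t).1
        rw [eρ t.1 (List.mem_toFinset.mp t.2), hρ' t.1 t.2]
        rfl
      have e3 : (fun t c : ↥(colL g.1.1).toFinset => wF g (t.1, c.1)) = W := by
        funext t u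
        rw [eW t.1 (List.mem_toFinset.mp t.2) u.1 (List.mem_toFinset.mp u.2),
          hW' t.1 u.1 t.2 u.2]
        rfl
      rw [e1, e2, e3, ed, hsys]
      exact hcert
    have hbool := (cert_iff (R := fun n => (LF k n + 2) ^ r) (p := fun n => (LF k n + 2) ^ p)
      (b := fun n => (LF k n + 2) ^ b) (g := g) hc.vertices hρg).mp hcert'
    have hgood' : Good k g.1 (fun u v => tauF k g (0, u, v)) (fun u v => tauF k g (1, u, v))
        (fun i u v => tauF k g (i + 2, u, v)) := by
      refine good_congr hc (fun u hu v hv => ?_) (fun u hu v hv => ?_)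
        (fun i hi u hu v hv => ?_) hgood
      · exact (eτ (0, u, v) (mem_rowL.mpr ⟨by simp, hu, hv⟩) (by simp)).symm
      · exact (eτ (1, u, v) (mem_rowL.mpr ⟨by show 1 < k + 4; omega, hu, hv⟩)
          (by show 1 < k + 2; omega)).symm
      · exact (eτ (i + 2, u, v) (mem_rowL.mpr ⟨by show i + 2 < k + 4; omega, hu, hv⟩)
          (by show i + 2 < k + 2; omega)).symm
    obtain ⟨hb1, hb2, hb3, hb4⟩ := (good_iff k g).mpr hgood'
    have hsign : bSign k g = true := by
      unfold bSign
      simp only [Bool.or_eq_true, decide_eq_true_eq, List.all_eq_true]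
      intro r hr
      by_cases hk : r.1 < k + 2
      · rw [eτ r hr hk]
        have := hτ r
        tauto
      · left; left
        unfold tauF
        rw [if_neg hk]
    have hrho : bRho k g = true := by
      unfold bRho
      simp only [decide_eq_true_eq, List.all_eq_true]
      intro t ht
      rw [eρ t ht]
      exact hρmem t ht
    have hsz : bSz k (fun n => (LF k n + 2) ^ t) g = true := by
      unfold bSz
      simp only [Bool.and_eq_true, decide_eq_true_eq, List.all_eq_true, List.mem_range]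
      refine ⟨⟨by rw [ed]; exact hδ, fun a ha u hu => ?_⟩, fun i hi => ?_⟩
      · rw [eW a ha u hu, hW' a u (List.mem_toFinset.mpr ha) (List.mem_toFinset.mpr hu)]
        exact hW _ _
      · have := eq ⟨i, hi⟩
        simp only at this
        rw [this]
        exact hQ _
    refine ⟨g, ?_, ?_⟩
    · unfold verF
      simp only [Bool.and_eq_true, decide_eq_true_eq]
      exact ⟨⟨⟨⟨⟨⟨⟨⟨⟨⟨⟨⟨rfl, (bDig_iff c).mpr hc⟩, hb1⟩, hb2⟩, hb3⟩, hb4⟩, hsign⟩, hrho⟩,
        hbool.1⟩, hbool.2.1⟩, hbool.2.2.1⟩, hbool.2.2.2⟩, hsz⟩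
    · refine hB c τ Q ρ' W' δ (fun r => ?_) hQ hρmem (fun a ha u hu => ?_) ?_
      · rcases hτ r with h | h | h <;> rw [h] <;> decide
      · rw [hW' a u (List.mem_toFinset.mpr ha) (List.mem_toFinset.mpr hu)]
        exact hW _ _
      · rw [abs_of_pos hcert.pos]
        exact hδ
  · rintro x g hx
    unfold verF at hx
    simp only [Bool.and_eq_true, decide_eq_true_eq] at hx
    obtain ⟨⟨⟨⟨⟨⟨⟨⟨⟨⟨⟨⟨hw, hdig⟩, hb1⟩, hb2⟩, hb3⟩, hb4⟩, hsign⟩, hrho⟩, h1⟩, h2⟩, h3⟩, h4⟩,
      hsz⟩ := hx
    have hc := (bDig_iff g.1).mp hdig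
    refine ⟨g.1, hc, ?_, hw⟩
    have hgood := (good_iff k g).mp ⟨hb1, hb2, hb3, hb4⟩
    unfold bSign at hsign
    unfold bRho at hrho
    unfold bSz at hsz
    simp only [Bool.or_eq_true, decide_eq_true_eq, List.all_eq_true] at hsign
    simp only [decide_eq_true_eq, List.all_eq_true] at hrho
    simp only [Bool.and_eq_true, decide_eq_true_eq, List.all_eq_true, List.mem_range] at hsz
    have hρg : ∀ t : ↥(colL g.1.1).toFinset, rhoF g t.1 ∈ (rowL k g.1.1).toFinset := fun t =>
      List.mem_toFinset.mpr (hrho t.1 (List.mem_toFinset.mp t.2))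
    have hcert := (cert_iff (R := fun n => (LF k n + 2) ^ r) (p := fun n => (LF k n + 2) ^ p)
      (b := fun n => (LF k n + 2) ^ b) (g := g) hc.vertices hρg).mpr ⟨h1, h2, h3, h4⟩
    -- the table
    classical
    let τ' : Row → ℤ := fun r => if r ∈ rowL k g.1.1 then tauF k g r else 0
    have hτ' : ∀ r ∈ rowL k g.1.1, τ' r = tauF k g r := fun r hr => if_pos hr
    have hsys : sysOf k g.1.1 τ' = sysOf k g.1.1 (tauF k g) :=
      sysOf_congr fun r hr _ => hτ' r hr
    have hτs : ∀ r, τ' r = 0 ∨ τ' r = 1 ∨ τ' r = -1 := by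
      intro r
      by_cases hr : r ∈ rowL k g.1.1
      · rw [hτ' r hr]
        have := hsign r hr
        tauto
      · left
        exact if_neg hr
    refine (hasDrawing_iff_sys hc).mpr ⟨τ', hτs, ?_, ?_⟩
    · refine good_congr hc (fun u hu v hv => ?_) (fun u hu v hv => ?_)
        (fun i hi u hu v hv => ?_) hgood
      · exact (hτ' (0, u, v) (mem_rowL.mpr ⟨by simp, hu, hv⟩)).symm
      · exact (hτ' (1, u, v) (mem_rowL.mpr ⟨by show 1 < k + 4; omega, hu, hv⟩)).symm
      · exact (hτ' (i + 2, u, v) (mem_rowL.mpr ⟨by show i + 2 < k + 4; omega, hu, hv⟩)).symm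
    · rw [hsys]
      refine (hs _ _ _ _ (sysOf_ok k g.1.1 (tauF k g) fun r hr _ => ?_)).mpr
        ⟨_, _, _, _, hcert, fun i => hsz.2 i i.2, fun u a => hsz.1.2 u.1
          (List.mem_toFinset.mp u.2) a.1 (List.mem_toFinset.mp a.2), hsz.1.1⟩
      have := hsign r hr
      tauto

end Pool.Agent.Lib.UPSlopes
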