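import Pool.Agent.Lib.MP_51356b_lc.NPTools
import Pool.Agent.Lib.MP_51356b_lc.VDefs

/-!
# The verifier on lists and its polynomial-time computability
-/

set_option linter.unusedSimpArgs false

namespace Pool.Agent.Lib.UPSlopes

open Turing Pool.Agent.Lib.PolyTime

namespace Vf

/-- Certificates: the digraph, the table of signs, the parameters, the basis, the inverse matrix
and the determinant. -/
abbrev Cer := Code × List (Row × ℤ) × List ℤ × List (Col × Row) × List ((Col × Col) × ℤ) × ℤ

def tauF (k : ℕ) (g : Cer) (r : Row) : ℤ :=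
  if r.1 < k + 2 then (g.2.1.lookup r).getD 0 else 0

def qF (g : Cer) (i : ℕ) : ℤ := (g.2.2.1[i]?).getD 0

def zrow : Row := (0, (0 : ℕ), (0 : ℕ))

def rhoF (g : Cer) (t : Col) : Row := (g.2.2.2.1.lookup t).getD zrow

def wF (g : Cer) (p : Col × Col) : ℤ := (g.2.2.2.2.1.lookup p).getD 0

def dF (g : Cer) : ℤ := g.2.2.2.2.2

def irowF (k : ℕ) (b : ℤ) (g : Cer) (r : Row) (z : Col → ℤ) : ℤ :=
  ((colL g.1.1).map fun c =>
    (b * A0 k r c + ((List.range k).map fun i => qF g i * A1 i r c).sum) * z c).sum

def solF (k : ℕ) (g : Cer) (c : Col) : ℤ :=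
  ((colL g.1.1).map fun t => tauF k g (rhoF g t) * wF g (t, c)).sum

def bDig (c : Code) : Bool :=
  decide c.1.Nodup && (c.2.all fun e => decide (e.1 ∈ c.1) && decide (e.2 ∈ c.1)) &&
    (c.2.all fun e => !decide (e.1 = e.2)) && decide c.2.Nodup

def bInj (k : ℕ) (g : Cer) : Bool :=
  g.1.1.all fun u => g.1.1.all fun v =>
    !decide (tauF k g (0, u, v) = 0) || !decide (tauF k g (1, u, v) = 0) || decide (u = v)

def bEdge (k : ℕ) (g : Cer) : Bool :=
  g.1.2.all fun e => decide (tauF k g (1, e.2, e.1) = 1) &&
    (List.range k).any fun i => decide (tauF k g (i + 2, e.2, e.1) = 0)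

def bVertex (k : ℕ) (g : Cer) : Bool :=
  g.1.2.all fun e => (List.range k).all fun i => !decide (tauF k g (i + 2, e.2, e.1) = 0) ||
    g.1.1.all fun w => decide (w = e.1) || decide (w = e.2) ||
      !(decide (tauF k g (i + 2, w, e.1) = 0) && decide (tauF k g (1, w, e.1) = 1) &&
        decide (tauF k g (1, e.2, w) = 1))

def bCross (k : ℕ) (g : Cer) : Bool :=
  g.1.2.all fun e => g.1.2.all fun f => decide (e = f) ||
    (List.range k).all fun i => (List.range k).all fun j =>
      !decide (tauF k g (i + 2, e.2, e.1) = 0) || !decide (tauF k g (j + 2, f.2, f.1) = 0) ||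
      decide (e.1 = f.2) || decide (e.2 = f.1) ||
      (decide (e.1 = f.1) && !decide (tauF k g (i + 2, f.2, e.1) = 0)) ||
      (decide (e.2 = f.2) && !decide (tauF k g (i + 2, f.1, e.2) = 0)) ||
      (decide (tauF k g (i + 2, f.1, e.1) = 1) && decide (tauF k g (i + 2, f.2, e.1) = 1)) ||
      (decide (tauF k g (i + 2, f.1, e.1) = -1) && decide (tauF k g (i + 2, f.2, e.1) = -1)) ||
      (decide (tauF k g (j + 2, e.1, f.1) = 1) && decide (tauF k g (j + 2, e.2, f.1) = 1)) ||
      (decide (tauF k g (j + 2, e.1, f.1) = -1) && decide (tauF k g (j + 2, e.2, f.1) = -1)) ||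
      decide (tauF k g (1, f.1, e.2) = 1) || decide (tauF k g (1, e.1, f.2) = 1)

def bSign (k : ℕ) (g : Cer) : Bool :=
  (rowL k g.1.1).all fun r => decide (tauF k g r = 0) || decide (tauF k g r = 1) ||
    decide (tauF k g r = -1)

def bRho (k : ℕ) (g : Cer) : Bool :=
  (colL g.1.1).all fun t => decide (rhoF g t ∈ rowL k g.1.1)

def bBasis (k : ℕ) (b : ℕ → ℕ) (g : Cer) : Bool :=
  (colL g.1.1).all fun t => (colL g.1.1).all fun t' =>
    decide (irowF k (2 ^ b g.1.1.length) g (rhoF g t) (fun c => wF g (t', c)) =
      if t = t' then dF g else 0)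

def bEq (k : ℕ) (p b : ℕ → ℕ) (g : Cer) : Bool :=
  (rowL k g.1.1).all fun r => !decide (r.1 < k + 2) || !decide (tauF k g r = 0) ||
    decide (|irowF k (2 ^ b g.1.1.length) g r (solF k g)| * 2 ^ p g.1.1.length ≤ dF g)

def bGe (k : ℕ) (R b : ℕ → ℕ) (g : Cer) : Bool :=
  (rowL k g.1.1).all fun r => !decide (r.1 < k + 2) || decide (tauF k g r = 0) ||
    decide (dF g ≤ 2 ^ R g.1.1.length *
      (tauF k g r * irowF k (2 ^ b g.1.1.length) g r (solF k g)))

def bBd (k : ℕ) (R b : ℕ → ℕ) (g : Cer) : Bool :=
  decide (0 < dF g) &&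
  ((colL g.1.1).all fun t => (colL g.1.1).all fun c =>
    decide (|wF g (t, c)| * 2 ^ b g.1.1.length ≤ 2 ^ R g.1.1.length * dF g)) &&
  (List.range k).all fun i => decide (|qF g i| ≤ 2 ^ (b g.1.1.length + R g.1.1.length))

def bSz (k : ℕ) (T : ℕ → ℕ) (g : Cer) : Bool :=
  decide (dF g < 2 ^ T g.1.1.length) &&
  ((colL g.1.1).all fun t => (colL g.1.1).all fun c =>
    decide (|wF g (t, c)| < 2 ^ T g.1.1.length)) &&
  (List.range k).all fun i => decide (|qF g i| < 2 ^ T g.1.1.length)

/-- The verifier. -/
def verF (k : ℕ) (R p b T : ℕ → ℕ) (q : List Bool × Cer) : Bool :=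
  decide (q.1 = q.2.1.word) && bDig q.2.1 && bInj k q.2 && bEdge k q.2 && bVertex k q.2 &&
    bCross k q.2 && bSign k q.2 && bRho k q.2 && bBasis k b q.2 && bEq k p b q.2 &&
    bGe k R b q.2 && bBd k R b q.2 && bSz k T q.2

section

variable {α β : Type*} [TEnc α] [TEnc β]

theorem pf_tau {k : ℕ} {g : α → Cer} {r : α → Row} (hg : PolyF g) (hr : PolyF r) :
    PolyF (fun x => tauF k (g x) (r x)) :=
  PolyF.ite (p := fun x => (r x).1 < k + 2) (hr.fst.natLt (PolyF.const _))
    ((PolyF.lookup hr hg.snd.fst).getD (PolyF.const 0)) (PolyF.const 0)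

theorem pf_q {g : α → Cer} {i : α → ℕ} (hg : PolyF g) (hi : PolyF i) :
    PolyF (fun x => qF (g x) (i x)) :=
  (hi.getElem? hg.snd.snd.fst).getD (PolyF.const 0)

theorem pf_rho {g : α → Cer} {t : α → Col} (hg : PolyF g) (ht : PolyF t) :
    PolyF (fun x => rhoF (g x) (t x)) :=
  (PolyF.lookup ht hg.snd.snd.snd.fst).getD (PolyF.const _)

theorem pf_w {g : α → Cer} {t : α → Col × Col} (hg : PolyF g) (ht : PolyF t) :
    PolyF (fun x => wF (g x) (t x)) :=
  (PolyF.lookup ht hg.snd.snd.snd.snd.fst).getD (PolyF.const _)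

theorem pf_d {g : α → Cer} (hg : PolyF g) : PolyF (fun x => dF (g x)) :=
  hg.snd.snd.snd.snd.snd

theorem pf_colL {V : α → List NBin} (hV : PolyF V) : PolyF (fun x => colL (V x)) :=
  hV.product (PolyF.const _)

theorem pf_rowL {k : ℕ} {V : α → List NBin} (hV : PolyF V) : PolyF (fun x => rowL k (V x)) :=
  (PolyF.const (List.range (k + 4))).product (hV.product hV)

theorem pf_eC {u : α → NBin} {b : Bool} {c : α → Col} (hu : PolyF u) (hc : PolyF c) :
    PolyF (fun x => eC (u x) b (c x)) :=
  PolyF.ite (p := fun x => c x = (u x, b)) (hc.eq (hu.pair (PolyF.const b))) (PolyF.const 1)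
    (PolyF.const 0)

theorem pf_A0 {k : ℕ} {r : α → Row} {c : α → Col} (hr : PolyF r) (hc : PolyF c) :
    PolyF (fun x => A0 k (r x) (c x)) := by
  refine PolyF.ite (p := fun x => (r x).1 = 1) (hr.fst.natEq (PolyF.const _))
    ((pf_eC hr.snd.fst hc).intSub (pf_eC hr.snd.snd hc)) ?_
  refine PolyF.ite (p := fun x => (r x).1 < k + 2) (hr.fst.natLt (PolyF.const _))
    ((pf_eC hr.snd.fst hc).intSub (pf_eC hr.snd.snd hc)) ?_
  exact PolyF.ite (p := fun x => (r x).1 = k + 2) (hr.fst.natEq (PolyF.const _))
    (pf_eC hr.snd.fst hc) (pf_eC hr.snd.fst hc)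

theorem pf_A1 {i : α → ℕ} {r : α → Row} {c : α → Col} (hi : PolyF i) (hr : PolyF r)
    (hc : PolyF c) : PolyF (fun x => A1 (i x) (r x) (c x)) :=
  PolyF.ite (p := fun x => (r x).1 = i x + 2) (hr.fst.natEq (hi.natAdd (PolyF.const 2)))
    ((pf_eC hr.snd.snd hc).intSub (pf_eC hr.snd.fst hc)) (PolyF.const 0)

theorem pf_irow {k : ℕ} {b : α → ℤ} {g : α → Cer} {r : α → Row} {z : α → Col → ℤ}
    (hb : PolyF b) (hg : PolyF g) (hr : PolyF r) (hz : PolyF (fun p : α × Col => z p.1 p.2)) :
    PolyF (fun x => irowF k (b x) (g x) (r x) (z x)) := by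
  have h1 : PolyF (fun p : (α × Col) × ℕ => qF (g p.1.1) p.2 * A1 p.2 (r p.1.1) p.1.2) :=
    (pf_q (hg.comp PolyF.fst'.fst) PolyF.snd').intMul
      (pf_A1 PolyF.snd' (hr.comp PolyF.fst'.fst) PolyF.fst'.snd)
  have h2 : PolyF (fun p : α × Col => ((List.range k).map
      fun i => qF (g p.1) i * A1 i (r p.1) p.2).sum) :=
    ((PolyF.const (List.range k)).map
      (h := fun (p : α × Col) i => qF (g p.1) i * A1 i (r p.1) p.2) h1).intSum
  exact ((pf_colL hg.fst.fst).map (h := fun x c => (b x * A0 k (r x) c +
    ((List.range k).map fun i => qF (g x) i * A1 i (r x) c).sum) * z x c)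
    (((((hb.comp PolyF.fst').intMul (pf_A0 (hr.comp PolyF.fst') PolyF.snd')).intAdd h2)).intMul
      hz)).intSum

theorem pf_sol {k : ℕ} {g : α → Cer} {c : α → Col} (hg : PolyF g) (hc : PolyF c) :
    PolyF (fun x => solF k (g x) (c x)) :=
  ((pf_colL hg.fst.fst).map (h := fun x t => tauF k (g x) (rhoF (g x) t) * wF (g x) (t, c x))
    ((pf_tau (hg.comp PolyF.fst') (pf_rho (hg.comp PolyF.fst') PolyF.snd')).intMul
      (pf_w (hg.comp PolyF.fst') (PolyF.snd'.pair (hc.comp PolyF.fst'))))).intSum


theorem pf_nameWord {f : α → NBin} (hf : PolyF f) : PolyF (fun x => nameWord (f x)) := by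
  have h1 : PolyF (fun x => Nat.bits (f x)) := hf.toBin.bits
  have h2 : PolyF (fun x => (Nat.bits (f x)).flatMap (fun b => [true, b])) :=
    h1.flatMap (h := fun _ b => [true, b]) ((PolyF.const true).cons PolyF.snd'.singleton)
  exact h2.append (PolyF.const [false])

theorem pf_word1 {c : α → Code} (hc : PolyF c) : PolyF (fun x => (c x).1.flatMap (fun v => true :: nameWord v)) := by
  have h1 : PolyF (fun x => (c x).1.flatMap (fun v => true :: nameWord v)) :=
    PolyF.flatMap (h := fun _ v => true :: nameWord v) hc.fst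
      ((PolyF.const true).cons (pf_nameWord PolyF.snd'))
  exact h1

theorem pf_word3  : PolyF (fun p : α × (NBin × NBin) => true :: (nameWord p.2.1 ++ nameWord p.2.2)) := by
  have h1 : PolyF (fun p : α × (NBin × NBin) => nameWord p.2.1) := pf_nameWord PolyF.snd'.fst
  have h2 : PolyF (fun p : α × (NBin × NBin) => nameWord p.2.2) := pf_nameWord PolyF.snd'.snd
  exact (PolyF.const true).cons (h1.append h2)

theorem pf_word2 {c : α → Code} (hc : PolyF c) : PolyF (fun x => (c x).2.flatMap
      (fun e => true :: (nameWord e.1 ++ nameWord e.2))) := by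
  have h1 : PolyF (fun x => (c x).2) := hc.snd
  have h2 : PolyF (fun p : α × (NBin × NBin) => true :: (nameWord p.2.1 ++ nameWord p.2.2)) := pf_word3
  exact PolyF.flatMap (α := α) (β := NBin × NBin) (γ := Bool) (l := fun x => (c x).2) (h := fun _ e => true :: (nameWord e.1 ++ nameWord e.2)) h1 h2

theorem pf_word {c : α → Code} (hc : PolyF c) : PolyF (fun x => (c x).word) := by
  have h4 : PolyF (fun x => (c x).1.flatMap (fun v => true :: nameWord v) ++
      false :: ((c x).2.flatMap (fun e => true :: (nameWord e.1 ++ nameWord e.2)) ++ [false])) :=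
    (pf_word1 hc).append ((PolyF.const false).cons ((pf_word2 hc).append (PolyF.const [false])))
  exact h4


end

attribute [irreducible] tauF qF rhoF wF dF irowF solF
attribute [local irreducible] colL rowL

theorem pf_bDig : PolyF bDig := by
  unfold bDig
  repeat' (first
    | assumption
    | with_reducible exact PolyF.id
    | with_reducible exact PolyF.fst'
    | with_reducible exact PolyF.snd'
    | with_reducible exact PolyF.const _
    | with_reducible apply PolyF.and
    | with_reducible apply PolyF.or
    | with_reducible apply PolyF.not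
    | with_reducible apply PolyF.all
    | with_reducible apply PolyF.any
    | with_reducible apply PolyF.nodup
    | with_reducible apply PolyF.mem
    | with_reducible apply PolyF.eq
    | with_reducible apply pf_tau
    | with_reducible apply pf_q
    | with_reducible apply pf_rho
    | with_reducible apply pf_w
    | with_reducible apply pf_d
    | with_reducible apply pf_colL
    | with_reducible apply pf_rowL
    | with_reducible apply pf_sol
    | with_reducible apply PolyF.natAdd
    | with_reducible apply PolyF.intAbs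
    | with_reducible apply PolyF.fst
    | with_reducible apply PolyF.snd
    | with_reducible apply PolyF.pair)

theorem pf_bInj (k : ℕ) : PolyF (bInj k) := by
  unfold bInj
  repeat' (first
    | assumption
    | with_reducible exact PolyF.id
    | with_reducible exact PolyF.fst'
    | with_reducible exact PolyF.snd'
    | with_reducible exact PolyF.const _
    | with_reducible apply PolyF.and
    | with_reducible apply PolyF.or
    | with_reducible apply PolyF.not
    | with_reducible apply PolyF.all
    | with_reducible apply PolyF.any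
    | with_reducible apply PolyF.nodup
    | with_reducible apply PolyF.mem
    | with_reducible apply PolyF.eq
    | with_reducible apply pf_tau
    | with_reducible apply pf_q
    | with_reducible apply pf_rho
    | with_reducible apply pf_w
    | with_reducible apply pf_d
    | with_reducible apply pf_colL
    | with_reducible apply pf_rowL
    | with_reducible apply pf_sol
    | with_reducible apply PolyF.natAdd
    | with_reducible apply PolyF.intAbs
    | with_reducible apply PolyF.fst
    | with_reducible apply PolyF.snd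
    | with_reducible apply PolyF.pair)

theorem pf_bEdge (k : ℕ) : PolyF (bEdge k) := by
  unfold bEdge
  repeat' (first
    | assumption
    | with_reducible exact PolyF.id
    | with_reducible exact PolyF.fst'
    | with_reducible exact PolyF.snd'
    | with_reducible exact PolyF.const _
    | with_reducible apply PolyF.and
    | with_reducible apply PolyF.or
    | with_reducible apply PolyF.not
    | with_reducible apply PolyF.all
    | with_reducible apply PolyF.any
    | with_reducible apply PolyF.nodup
    | with_reducible apply PolyF.mem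
    | with_reducible apply PolyF.eq
    | with_reducible apply pf_tau
    | with_reducible apply pf_q
    | with_reducible apply pf_rho
    | with_reducible apply pf_w
    | with_reducible apply pf_d
    | with_reducible apply pf_colL
    | with_reducible apply pf_rowL
    | with_reducible apply pf_sol
    | with_reducible apply PolyF.natAdd
    | with_reducible apply PolyF.intAbs
    | with_reducible apply PolyF.fst
    | with_reducible apply PolyF.snd
    | with_reducible apply PolyF.pair)

theorem pf_bVertex (k : ℕ) : PolyF (bVertex k) := by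
  unfold bVertex
  repeat' (first
    | assumption
    | with_reducible exact PolyF.id
    | with_reducible exact PolyF.fst'
    | with_reducible exact PolyF.snd'
    | with_reducible exact PolyF.const _
    | with_reducible apply PolyF.and
    | with_reducible apply PolyF.or
    | with_reducible apply PolyF.not
    | with_reducible apply PolyF.all
    | with_reducible apply PolyF.any
    | with_reducible apply PolyF.nodup
    | with_reducible apply PolyF.mem
    | with_reducible apply PolyF.eq
    | with_reducible apply pf_tau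
    | with_reducible apply pf_q
    | with_reducible apply pf_rho
    | with_reducible apply pf_w
    | with_reducible apply pf_d
    | with_reducible apply pf_colL
    | with_reducible apply pf_rowL
    | with_reducible apply pf_sol
    | with_reducible apply PolyF.natAdd
    | with_reducible apply PolyF.intAbs
    | with_reducible apply PolyF.fst
    | with_reducible apply PolyF.snd
    | with_reducible apply PolyF.pair)

theorem pf_bCross (k : ℕ) : PolyF (bCross k) := by
  unfold bCross
  repeat' (first
    | assumption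
    | with_reducible exact PolyF.id
    | with_reducible exact PolyF.fst'
    | with_reducible exact PolyF.snd'
    | with_reducible exact PolyF.const _
    | with_reducible apply PolyF.and
    | with_reducible apply PolyF.or
    | with_reducible apply PolyF.not
    | with_reducible apply PolyF.all
    | with_reducible apply PolyF.any
    | with_reducible apply PolyF.nodup
    | with_reducible apply PolyF.mem
    | with_reducible apply PolyF.eq
    | with_reducible apply pf_tau
    | with_reducible apply pf_q
    | with_reducible apply pf_rho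
    | with_reducible apply pf_w
    | with_reducible apply pf_d
    | with_reducible apply pf_colL
    | with_reducible apply pf_rowL
    | with_reducible apply pf_sol
    | with_reducible apply PolyF.natAdd
    | with_reducible apply PolyF.intAbs
    | with_reducible apply PolyF.fst
    | with_reducible apply PolyF.snd
    | with_reducible apply PolyF.pair)

theorem pf_bSign (k : ℕ) : PolyF (bSign k) := by
  unfold bSign
  repeat' (first
    | assumption
    | with_reducible exact PolyF.id
    | with_reducible exact PolyF.fst'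
    | with_reducible exact PolyF.snd'
    | with_reducible exact PolyF.const _
    | with_reducible apply PolyF.and
    | with_reducible apply PolyF.or
    | with_reducible apply PolyF.not
    | with_reducible apply PolyF.all
    | with_reducible apply PolyF.any
    | with_reducible apply PolyF.nodup
    | with_reducible apply PolyF.mem
    | with_reducible apply PolyF.eq
    | with_reducible apply pf_tau
    | with_reducible apply pf_q
    | with_reducible apply pf_rho
    | with_reducible apply pf_w
    | with_reducible apply pf_d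
    | with_reducible apply pf_colL
    | with_reducible apply pf_rowL
    | with_reducible apply pf_sol
    | with_reducible apply PolyF.natAdd
    | with_reducible apply PolyF.intAbs
    | with_reducible apply PolyF.fst
    | with_reducible apply PolyF.snd
    | with_reducible apply PolyF.pair)

theorem pf_bRho (k : ℕ) : PolyF (bRho k) := by
  unfold bRho
  repeat' (first
    | assumption
    | with_reducible exact PolyF.id
    | with_reducible exact PolyF.fst'
    | with_reducible exact PolyF.snd'
    | with_reducible exact PolyF.const _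
    | with_reducible apply PolyF.and
    | with_reducible apply PolyF.or
    | with_reducible apply PolyF.not
    | with_reducible apply PolyF.all
    | with_reducible apply PolyF.any
    | with_reducible apply PolyF.nodup
    | with_reducible apply PolyF.mem
    | with_reducible apply PolyF.eq
    | with_reducible apply pf_tau
    | with_reducible apply pf_q
    | with_reducible apply pf_rho
    | with_reducible apply pf_w
    | with_reducible apply pf_d
    | with_reducible apply pf_colL
    | with_reducible apply pf_rowL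
    | with_reducible apply pf_sol
    | with_reducible apply PolyF.natAdd
    | with_reducible apply PolyF.intAbs
    | with_reducible apply PolyF.fst
    | with_reducible apply PolyF.snd
    | with_reducible apply PolyF.pair)

theorem pf_bBasis (k : ℕ) {b : ℕ → ℕ} (hb : PolyF b) : PolyF (bBasis k b) := by
  unfold bBasis
  have hn : PolyF (fun g : Cer => (2 : ℤ) ^ b g.1.1.length) :=
    PolyF.intTwoPow (hb.comp PolyF.fst'.fst.length)
  have h1 : PolyF (fun p : (Cer × Col) × Col => irowF k (2 ^ b p.1.1.1.1.length) p.1.1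
      (rhoF p.1.1 p.1.2) (fun c => wF p.1.1 (p.2, c))) :=
    pf_irow (b := fun p : (Cer × Col) × Col => 2 ^ b p.1.1.1.1.length)
      (z := fun (p : (Cer × Col) × Col) c => wF p.1.1 (p.2, c)) (hn.comp PolyF.fst'.fst)
      PolyF.fst'.fst (pf_rho PolyF.fst'.fst PolyF.fst'.snd)
      (pf_w PolyF.fst'.fst.fst (PolyF.fst'.snd.pair PolyF.snd'))
  have h2 : PolyF (fun p : (Cer × Col) × Col => if p.1.2 = p.2 then dF p.1.1 else 0) :=
    PolyF.ite (p := fun p : (Cer × Col) × Col => p.1.2 = p.2) (PolyF.fst'.snd.eq PolyF.snd')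
      (pf_d PolyF.fst'.fst) (PolyF.const 0)
  have h3 : PolyF (fun p : (Cer × Col) × Col => decide (irowF k (2 ^ b p.1.1.1.1.length) p.1.1
      (rhoF p.1.1 p.1.2) (fun c => wF p.1.1 (p.2, c)) =
      if p.1.2 = p.2 then dF p.1.1 else 0)) := h1.eq h2
  exact PolyF.all (pf_colL PolyF.fst'.fst)
    (p := fun (g : Cer) t => (colL g.1.1).all fun t' =>
      decide (irowF k (2 ^ b g.1.1.length) g (rhoF g t) (fun c => wF g (t', c)) =
      if t = t' then dF g else 0))
    (PolyF.all (pf_colL PolyF.fst'.fst.fst)
      (p := fun (q : Cer × Col) t' =>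
      decide (irowF k (2 ^ b q.1.1.1.length) q.1 (rhoF q.1 q.2) (fun c => wF q.1 (t', c)) =
      if q.2 = t' then dF q.1 else 0)) h3)

theorem pf_irs (k : ℕ) {b : ℕ → ℕ} (hb : PolyF b) :
    PolyF (fun p : Cer × Row => irowF k (2 ^ b p.1.1.1.length) p.1 p.2 (solF k p.1)) := by
  have hn : PolyF (fun g : Cer => (2 : ℤ) ^ b g.1.1.length) :=
    PolyF.intTwoPow (hb.comp PolyF.fst'.fst.length)
  exact pf_irow (b := fun p : Cer × Row => 2 ^ b p.1.1.1.length)
      (z := fun (p : Cer × Row) c => solF k p.1 c) (hn.comp PolyF.fst')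
      PolyF.fst' PolyF.snd' (pf_sol PolyF.fst'.fst PolyF.snd')

theorem pf_bEq (k : ℕ) {p b : ℕ → ℕ} (hp : PolyF p) (hb : PolyF b) : PolyF (bEq k p b) := by
  have hn : PolyF (fun q : Cer × Row => (2 : ℤ) ^ p q.1.1.1.length) :=
    PolyF.intTwoPow (hp.comp PolyF.fst'.fst.fst.length)
  have h1 := pf_irs k hb
  have h3 : PolyF (fun q : Cer × Row => decide
      (|irowF k (2 ^ b q.1.1.1.length) q.1 q.2 (solF k q.1)| * 2 ^ p q.1.1.1.length ≤ dF q.1)) :=
    (h1.intAbs.intMul hn).intLe (pf_d PolyF.fst')
  have h4 : PolyF (fun q : Cer × Row => !decide (q.2.1 < k + 2)) :=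
    (PolyF.snd'.fst.natLt (PolyF.const _)).not
  have h5 : PolyF (fun q : Cer × Row => !decide (tauF k q.1 q.2 = 0)) :=
    ((pf_tau PolyF.fst' PolyF.snd').eq (PolyF.const 0)).not
  exact PolyF.all (pf_rowL PolyF.fst'.fst)
    (p := fun (g : Cer) r => !decide (r.1 < k + 2) || !decide (tauF k g r = 0) ||
    decide (|irowF k (2 ^ b g.1.1.length) g r (solF k g)| * 2 ^ p g.1.1.length ≤ dF g))
    ((h4.or h5).or h3)

theorem pf_bGe (k : ℕ) {R b : ℕ → ℕ} (hR : PolyF R) (hb : PolyF b) : PolyF (bGe k R b) := by
  have hn : PolyF (fun q : Cer × Row => (2 : ℤ) ^ R q.1.1.1.length) :=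
    PolyF.intTwoPow (hR.comp PolyF.fst'.fst.fst.length)
  have h1 := pf_irs k hb
  have h3 : PolyF (fun q : Cer × Row => decide (dF q.1 ≤ 2 ^ R q.1.1.1.length *
      (tauF k q.1 q.2 * irowF k (2 ^ b q.1.1.1.length) q.1 q.2 (solF k q.1)))) :=
    (pf_d PolyF.fst').intLe (hn.intMul ((pf_tau PolyF.fst' PolyF.snd').intMul h1))
  have h4 : PolyF (fun q : Cer × Row => !decide (q.2.1 < k + 2)) :=
    (PolyF.snd'.fst.natLt (PolyF.const _)).not
  have h5 : PolyF (fun q : Cer × Row => decide (tauF k q.1 q.2 = 0)) :=
    (pf_tau PolyF.fst' PolyF.snd').eq (PolyF.const 0)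
  exact PolyF.all (pf_rowL PolyF.fst'.fst)
    (p := fun (g : Cer) r => !decide (r.1 < k + 2) || decide (tauF k g r = 0) ||
    decide (dF g ≤ 2 ^ R g.1.1.length *
      (tauF k g r * irowF k (2 ^ b g.1.1.length) g r (solF k g))))
    ((h4.or h5).or h3)

theorem pf_bBd (k : ℕ) {R b : ℕ → ℕ} (hR : PolyF R) (hb : PolyF b) : PolyF (bBd k R b) := by
  have h1 : PolyF (fun q : (Cer × Col) × Col => decide (|wF q.1.1 (q.1.2, q.2)| *
      2 ^ b q.1.1.1.1.length ≤ 2 ^ R q.1.1.1.1.length * dF q.1.1)) :=
    ((pf_w PolyF.fst'.fst (PolyF.fst'.snd.pair PolyF.snd')).intAbs.intMul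
      (PolyF.intTwoPow (hb.comp PolyF.fst'.fst.fst.fst.length))).intLe
      ((PolyF.intTwoPow (hR.comp PolyF.fst'.fst.fst.fst.length)).intMul (pf_d PolyF.fst'.fst))
  have h2 : PolyF (fun g : Cer => (colL g.1.1).all fun t => (colL g.1.1).all fun c =>
    decide (|wF g (t, c)| * 2 ^ b g.1.1.length ≤ 2 ^ R g.1.1.length * dF g)) :=
    PolyF.all (pf_colL PolyF.fst'.fst)
      (p := fun (g : Cer) t => (colL g.1.1).all fun c =>
        decide (|wF g (t, c)| * 2 ^ b g.1.1.length ≤ 2 ^ R g.1.1.length * dF g))
      (PolyF.all (pf_colL PolyF.fst'.fst.fst)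
        (p := fun (q : Cer × Col) c => decide (|wF q.1 (q.2, c)| * 2 ^ b q.1.1.1.length ≤
          2 ^ R q.1.1.1.length * dF q.1)) h1)
  have h3 : PolyF (fun q : Cer × ℕ => decide (|qF q.1 q.2| ≤
      2 ^ (b q.1.1.1.length + R q.1.1.1.length))) :=
    (pf_q PolyF.fst' PolyF.snd').intAbs.intLe (PolyF.intTwoPow
      ((hb.comp PolyF.fst'.fst.fst.length).natAdd (hR.comp PolyF.fst'.fst.fst.length)))
  have h4 : PolyF (fun g : Cer => (List.range k).all fun i =>
      decide (|qF g i| ≤ 2 ^ (b g.1.1.length + R g.1.1.length))) :=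
    PolyF.all (PolyF.const (List.range k))
      (p := fun (g : Cer) i => decide (|qF g i| ≤ 2 ^ (b g.1.1.length + R g.1.1.length))) h3
  have h5 : PolyF (fun g : Cer => decide (0 < dF g)) := (PolyF.const 0).intLt (pf_d PolyF.id)
  exact (h5.and h2).and h4

theorem pf_bSz (k : ℕ) {T : ℕ → ℕ} (hT : PolyF T) : PolyF (bSz k T) := by
  have h1 : PolyF (fun q : (Cer × Col) × Col => decide (|wF q.1.1 (q.1.2, q.2)| <
      2 ^ T q.1.1.1.1.length)) :=
    (pf_w PolyF.fst'.fst (PolyF.fst'.snd.pair PolyF.snd')).intAbs.intLt
      (PolyF.intTwoPow (hT.comp PolyF.fst'.fst.fst.fst.length))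
  have h2 : PolyF (fun g : Cer => (colL g.1.1).all fun t => (colL g.1.1).all fun c =>
    decide (|wF g (t, c)| < 2 ^ T g.1.1.length)) :=
    PolyF.all (pf_colL PolyF.fst'.fst)
      (p := fun (g : Cer) t => (colL g.1.1).all fun c =>
        decide (|wF g (t, c)| < 2 ^ T g.1.1.length))
      (PolyF.all (pf_colL PolyF.fst'.fst.fst)
        (p := fun (q : Cer × Col) c => decide (|wF q.1 (q.2, c)| < 2 ^ T q.1.1.1.length)) h1)
  have h3 : PolyF (fun q : Cer × ℕ => decide (|qF q.1 q.2| < 2 ^ T q.1.1.1.length)) :=
    (pf_q PolyF.fst' PolyF.snd').intAbs.intLt (PolyF.intTwoPow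
      (hT.comp PolyF.fst'.fst.fst.length))
  have h4 : PolyF (fun g : Cer => (List.range k).all fun i =>
      decide (|qF g i| < 2 ^ T g.1.1.length)) :=
    PolyF.all (PolyF.const (List.range k))
      (p := fun (g : Cer) i => decide (|qF g i| < 2 ^ T g.1.1.length)) h3
  have h5 : PolyF (fun g : Cer => decide (dF g < 2 ^ T g.1.1.length)) :=
    (pf_d PolyF.id).intLt (PolyF.intTwoPow (hT.comp PolyF.fst'.fst.length))
  exact (h5.and h2).and h4

theorem pf_ver (k : ℕ) {R p b T : ℕ → ℕ} (hR : PolyF R) (hp : PolyF p) (hb : PolyF b)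
    (hT : PolyF T) : PolyF (verF k R p b T) := by
  have h0 : PolyF (fun q : List Bool × Cer => decide (q.1 = q.2.1.word)) :=
    PolyF.fst'.eq (pf_word PolyF.snd'.fst)
  have s : PolyF (fun q : List Bool × Cer => q.2) := PolyF.snd'
  have h1 : PolyF (fun q : List Bool × Cer => bDig q.2.1) := pf_bDig.comp s.fst
  exact ((((((((((((h0.and h1).and ((pf_bInj k).comp s)).and ((pf_bEdge k).comp s)).and
    ((pf_bVertex k).comp s)).and ((pf_bCross k).comp s)).and ((pf_bSign k).comp s)).and
    ((pf_bRho k).comp s)).and ((pf_bBasis k hb).comp s)).and ((pf_bEq k hp hb).comp s)).and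
    ((pf_bGe k hR hb).comp s)).and ((pf_bBd k hR hb).comp s)).and ((pf_bSz k hT).comp s))

end Vf

end Pool.Agent.Lib.UPSlopes
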